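import Pool.Agent.Lib.MP_8ac08c_co.OD.Stm

/-!
# MP_8ac08c_co, project OD: assembly of the upper bound
-/

set_option autoImplicit false
set_option exponentiation.threshold 600

open Finset

namespace Pool.Agent.Lib.MP_8ac08c_co.OD

private lemma asm_log {κ : ℕ} (h : 2 ^ 500 ≤ κ) : 2 ^ 400 * (Nat.log 2 κ + 1) ≤ κ := by
  have h0 : κ ≠ 0 := by
    have : 0 < 2 ^ 500 := by positivity
    omega
  have h1 : 500 ≤ Nat.log 2 κ := Nat.le_log_of_pow_le (by norm_num) h
  obtain ⟨n, hn⟩ := Nat.exists_eq_add_of_le h1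
  have h2 : 2 ^ Nat.log 2 κ ≤ κ := Nat.pow_log_le_self 2 h0
  have h3 : 501 + n ≤ 2 ^ (100 + n) := by
    have : 100 + n < 2 ^ (100 + n) := Nat.lt_two_pow_self
    have h4 : n < 2 ^ n := Nat.lt_two_pow_self
    have h5 : 2 ^ (100 + n) = 2 ^ 100 * 2 ^ n := pow_add 2 100 n
    have h6 : 1000 ≤ 2 ^ 100 := by norm_num
    nlinarith [Nat.one_le_two_pow (n := n)]
  calc 2 ^ 400 * (Nat.log 2 κ + 1) = 2 ^ 400 * (501 + n) := by rw [hn]; ring
    _ ≤ 2 ^ 400 * 2 ^ (100 + n) := Nat.mul_le_mul_left _ h3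
    _ = 2 ^ Nat.log 2 κ := by rw [← pow_add, hn]; congr 1; ring
    _ ≤ κ := h2

private lemma asm_oddG {G : Type} [AddCommGroup G] [Finite G] {κ : ℕ} (hκ : Odd κ)
    (h : ∀ x : G, κ • x = 0) : Odd (Nat.card G) := by
  by_contra hcon
  rw [Nat.not_odd_iff_even] at hcon
  have h2 : 2 ∣ Nat.card G := hcon.two_dvd
  have : Fact (Nat.Prime 2) := ⟨Nat.prime_two⟩
  obtain ⟨x, hx⟩ := exists_prime_addOrderOf_dvd_card' (G := G) 2 h2
  have h3 : addOrderOf x ∣ κ := addOrderOf_dvd_of_nsmul_eq_zero (h x)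
  rw [hx] at h3
  rw [← Nat.not_even_iff_odd] at hκ
  exact hκ (even_iff_two_dvd.2 h3)

private lemma asm_Lg {G : Type} [AddCommGroup G] [DecidableEq G] {V Z : Finset G}
    {H H' : AddSubgroup G} {w : G → ℤ} {κ s : ℕ} (hstr : Strip V H H' w κ) (hZ : Z ⊆ V) :
    Lg w s Z ≤ H' := by
  unfold Lg
  rw [AddSubgroup.closure_le]
  rintro v ⟨P, N, hP, hN, hd, _, hw, rfl⟩
  have key := hstr.ker (fun x => if x ∈ P then 1 else if x ∈ N then -1 else 0)
  have e1 : ∀ {M : Type} [AddCommGroup M] (F : G → M),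
      ∑ a ∈ V, (if a ∈ P then (1 : ℤ) else if a ∈ N then -1 else 0) • F a =
      ∑ x ∈ P, F x - ∑ x ∈ N, F x := by
    intro M _ F
    have hPV : P ⊆ V := hP.trans hZ
    have hNV : N ⊆ V := hN.trans hZ
    have h1 : ∀ a ∈ V, (if a ∈ P then (1 : ℤ) else if a ∈ N then -1 else 0) • F a =
        (if a ∈ P then F a else 0) - (if a ∈ N then F a else 0) := by
      intro a _
      by_cases ha : a ∈ P
      · have : a ∉ N := fun h => (disjoint_left.1 hd ha) h
        simp [ha, this]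
      · by_cases hb : a ∈ N <;> simp [ha, hb]
    rw [sum_congr rfl h1, sum_sub_distrib, ← sum_filter, ← sum_filter]
    congr 2
    · ext x
      rw [mem_filter]
      exact ⟨fun h => h.2, fun h => ⟨hPV h, h⟩⟩
    · ext x
      rw [mem_filter]
      exact ⟨fun h => h.2, fun h => ⟨hNV h, h⟩⟩
  have h2 := e1 (fun a => w a)
  simp only [smul_eq_mul] at h2
  rw [e1] at key
  apply key
  rw [h2, hw, sub_self]

/-- elements of the closure -/
private lemma asm_lin {G : Type} [AddCommGroup G] {V : Finset G} {L : AddSubgroup G} {g : G}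
    {y : G → ℤ} (hsub : ∀ a ∈ V, a - y a • g ∈ L) :
    ∀ x ∈ AddSubgroup.closure (V : Set G), ∃ k : ℤ, x - k • g ∈ L := by
  intro x hx
  induction hx using AddSubgroup.closure_induction with
  | mem a ha => exact ⟨y a, hsub a ha⟩
  | zero => exact ⟨0, by simp⟩
  | add a b _ _ ha hb =>
    obtain ⟨k, hk⟩ := ha
    obtain ⟨l, hl⟩ := hb
    refine ⟨k + l, ?_⟩
    have : a + b - (k + l) • g = (a - k • g) + (b - l • g) := by
      rw [add_smul]
      abel
    rw [this]
    exact L.add_mem hk hl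
  | neg a _ ha =>
    obtain ⟨k, hk⟩ := ha
    refine ⟨-k, ?_⟩
    have : -a - (-k) • g = -(a - k • g) := by
      rw [neg_smul]
      abel
    rw [this]
    exact L.neg_mem hk

private lemma asm_card {G : Type} [AddCommGroup G] [Finite G] {H L : AddSubgroup G} {g : G}
    {o : ℕ} (ho : 0 < o) (hog : o • g ∈ L) (hH : ∀ x ∈ H, ∃ k : ℤ, x - k • g ∈ L) :
    Nat.card H ≤ o * Nat.card L := by
  have h1 : ∀ x : H, ∃ i : Fin o, (x : G) - (i : ℕ) • g ∈ L := by
    rintro ⟨x, hx⟩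
    obtain ⟨k, hk⟩ := hH x hx
    have ho' : (0 : ℤ) < o := by exact_mod_cast ho
    have h2 : 0 ≤ k % o := Int.emod_nonneg _ (ne_of_gt ho')
    have h3 : k % o < o := Int.emod_lt_of_pos _ ho'
    obtain ⟨i, hi⟩ := Int.eq_ofNat_of_zero_le h2
    refine ⟨⟨i, by omega⟩, ?_⟩
    have h4 : x - i • g = (x - k • g) + (k / o) • (o • g) := by
      have h5 : k = o * (k / o) + i := by
        rw [← hi]
        exact (Int.mul_ediv_add_emod k o).symm
      have h6 : k • g = (k / o) • (o • g) + i • g := by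
        conv_lhs => rw [h5]
        rw [add_smul, mul_comm, mul_smul, natCast_zsmul, natCast_zsmul]
      rw [h6]
      abel
    show x - i • g ∈ L
    rw [h4]
    exact L.add_mem hk (L.zsmul_mem hog _)
  choose f hf using h1
  have h2 : Function.Injective fun x : H => (f x, (⟨(x : G) - (f x : ℕ) • g, hf x⟩ : L)) := by
    intro a b hab
    simp only [Prod.mk.injEq, Subtype.mk.injEq] at hab
    obtain ⟨h3, h4⟩ := hab
    rw [h3] at h4
    exact Subtype.ext (sub_left_injective h4)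
  have h3 := Nat.card_le_card_of_injective _ h2
  rwa [Nat.card_prod, Nat.card_eq_fintype_card (α := Fin o), Fintype.card_fin] at h3

private lemma asm_ord {G : Type} [AddCommGroup G] [Finite G] (L : AddSubgroup G) (g : G) {κ : ℕ}
    (hκ : Odd κ) (h : κ • g ∈ L) : ∃ o : ℕ, 0 < o ∧ Odd o ∧ (o = κ ∨ 3 * o ≤ κ) ∧
    o • g ∈ L ∧ ∀ k : ℤ, k • g ∈ L → (o : ℤ) ∣ k := by
  set q : G ⧸ L := QuotientAddGroup.mk g with hq
  have e1 : ∀ k : ℤ, k • g ∈ L ↔ k • q = 0 := by
    intro k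
    rw [hq, ← QuotientAddGroup.mk_zsmul, QuotientAddGroup.eq_zero_iff]
  have e2 : ∀ k : ℕ, k • g ∈ L ↔ k • q = 0 := by
    intro k
    have := e1 k
    rwa [natCast_zsmul, natCast_zsmul] at this
  have hdvd : addOrderOf q ∣ κ := addOrderOf_dvd_of_nsmul_eq_zero ((e2 κ).1 h)
  obtain ⟨c, hc⟩ := hdvd
  have hodd : Odd (addOrderOf q) ∧ Odd c := by
    rw [hc] at hκ
    exact Nat.odd_mul.1 hκ
  refine ⟨addOrderOf q, addOrderOf_pos q, hodd.1, ?_, ?_, ?_⟩
  · obtain ⟨j, hj⟩ := hodd.2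
    rcases Nat.eq_zero_or_pos j with h0 | h0
    · left
      rw [hc, hj, h0]
      ring
    · right
      rw [hc]
      have : 3 ≤ c := by omega
      nlinarith [Nat.zero_le (addOrderOf q)]
  · exact (e2 _).2 (addOrderOf_nsmul_eq_zero q)
  · intro k hk
    exact addOrderOf_dvd_iff_zsmul_eq_zero.2 ((e1 k).1 hk)

theorem p_asm : S_asm := by
  intro hbig hbs1 hbs2 hdif hbs3 hsge hfin2 hbez hodd hspr hspc G _ _ _ κ h t hy hκ A hA
  have hlog := asm_log hκ
  have hκ0 : 0 < κ := lt_of_lt_of_le (by positivity) hκ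
  have hGodd : Odd (Nat.card G) := asm_oddG hy.odd hy.exp
  rcases hbig G κ h t hy (le_trans (by norm_num) hκ) A hA with hs | ⟨V, H, H', w, hVA, hVc, hstr⟩
  · exact hs
  have hcV : #(A \ V) + #V = #A := card_sdiff_add_card_eq_card hVA
  obtain ⟨V₁, hV₁V, hV₁c, hcls, hrob⟩ := hbs1 G κ V H H' w hκ (by omega) hstr
  have hcV₁ : #(V \ V₁) + #V₁ = #V := card_sdiff_add_card_eq_card hV₁V
  have hV₁big : 985 * κ ≤ 1000 * #V₁ := by omega
  obtain ⟨R, hRV₁, hRc, hRL⟩ := hbs2 G κ V V₁ H H' w hGodd hκ hstr hV₁V (by omega) hrob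
  set L := Lg w (2 ^ 78) V₁ with hL
  have hLH' : L ≤ H' := asm_Lg hstr hV₁V
  have hLcard : Nat.card L ≤ 2 ^ 77 * κ :=
    (AddSubgroup.card_le_of_le hLH').trans hstr.card'
  have hV₁H : AddSubgroup.closure (V₁ : Set G) = H := hstr.rob V₁ hV₁V hV₁c
  have hκH := hstr.card
  -- a non-zero weight
  have hw0 : ∃ a ∈ V₁, w a ≠ 0 := by
    by_contra hcon
    push Not at hcon
    have h1 : H ≤ H' := by
      rw [← hV₁H, AddSubgroup.closure_le]
      intro a ha
      have ha' : a ∈ V₁ := ha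
      have key := hstr.ker (fun x => if x = a then 1 else 0)
      simp only [ite_mul, one_mul, zero_mul, ite_smul, one_smul, zero_smul] at key
      rw [sum_ite_eq' V a, sum_ite_eq' V a, if_pos (hV₁V ha'), if_pos (hV₁V ha')] at key
      exact key (hcon a ha')
    have h2 : Nat.card H ≤ 2 ^ 77 * κ := (AddSubgroup.card_le_of_le h1).trans hstr.card'
    have h3 : κ * κ < 5000 * (2 ^ 77 * κ) := by
      rw [← sq]
      exact lt_of_lt_of_le hκH (Nat.mul_le_mul_left _ h2)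
    have h4 : κ < 5000 * 2 ^ 77 := by
      by_contra h5
      push Not at h5
      have := Nat.mul_le_mul_right κ h5
      nlinarith
    have h5 : (5000 * 2 ^ 77 : ℕ) ≤ 2 ^ 500 := by norm_num
    omega
  obtain ⟨g, y, hgcl, hsub, hwt, heq, hgcd⟩ := hbs3 G (2 ^ 77) V₁ L w
    (fun a ha => hstr.wt a (hV₁V ha)) hw0
    (fun a ha => by
      have h1 := hcls a ha
      have h2 : (2 ^ 77 * 2 ^ 92 : ℕ) ≤ 2 ^ 500 := by norm_num
      have h3 : 2 ^ 92 * 2 ^ 77 ≤ 2 ^ 92 * #(V₁.filter fun x => (w x).natAbs = (w a).natAbs) := by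
        linarith
      exact Nat.le_of_mul_le_mul_left h3 (by positivity))
    (fun P N hP hN hd hc hw => AddSubgroup.subset_closure
      ⟨P, N, hP, hN, hd, hc.trans (by norm_num), hw, rfl⟩)
  -- a non-zero multiple
  obtain ⟨a₁, ha₁, hya₁⟩ : ∃ a ∈ V₁, y a ≠ 0 := by
    by_contra hcon
    push Not at hcon
    have := hgcd 2 (fun a ha => by rw [hcon a ha]; exact dvd_zero 2)
    omega
  -- the size of L
  have hLbig : κ ≤ 2 ^ 80 * Nat.card L := by
    obtain ⟨C, hC1, hC2⟩ := hdif G w (2 ^ 77) V₁ (fun a ha => hstr.wt a (hV₁V ha))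
    have h1 : #C ≤ Nat.card L := by
      have h2 : (C : Set G) ⊆ (L : Set G) := by
        intro v hv
        obtain ⟨P, N, hP, hN, hd, hc, hw, hv⟩ := hC2 v hv
        exact AddSubgroup.subset_closure ⟨P, N, hP, hN, hd, hc.trans (by norm_num), hw, hv⟩
      have h3 := Set.ncard_le_ncard h2 (Set.toFinite _)
      rw [Set.ncard_coe_finset] at h3
      exact h3
    have h2 : #V₁ ≤ (2 * 2 ^ 77 + 1) * Nat.card L := hC1.trans (Nat.mul_le_mul_left _ h1)
    have h3 : (1000 * (2 * 2 ^ 77 + 1) : ℕ) ≤ 985 * 2 ^ 80 := by norm_num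
    have h4 : 985 * κ ≤ 985 * (2 ^ 80 * Nat.card L) := by
      calc 985 * κ ≤ 1000 * #V₁ := hV₁big
        _ ≤ 1000 * ((2 * 2 ^ 77 + 1) * Nat.card L) := Nat.mul_le_mul_left _ h2
        _ = 1000 * (2 * 2 ^ 77 + 1) * Nat.card L := by ring
        _ ≤ 985 * 2 ^ 80 * Nat.card L := Nat.mul_le_mul_right _ h3
        _ = _ := by ring
    exact Nat.le_of_mul_le_mul_left h4 (by norm_num)
  -- the order of g
  obtain ⟨o, ho0, hoodd, hoκ, hog, hodvd⟩ := asm_ord L g hy.odd (by
    rw [hy.exp]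
    exact L.zero_mem)
  have hobig : 2 ^ 157 < o := by
    have h1 : Nat.card H ≤ o * Nat.card L :=
      asm_card ho0 hog (fun x hx => asm_lin hsub x (by rw [hV₁H]; exact hx))
    by_contra h2
    push Not at h2
    have h3 : κ * κ < 5000 * (2 ^ 157 * (2 ^ 77 * κ)) := by
      rw [← sq]
      refine lt_of_lt_of_le hκH (Nat.mul_le_mul_left _ (h1.trans ?_))
      exact Nat.mul_le_mul h2 hLcard
    have h4 : κ < 5000 * (2 ^ 157 * 2 ^ 77) := by
      by_contra h5
      push Not at h5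
      have := Nat.mul_le_mul_right κ h5
      nlinarith
    have h5 : (5000 * (2 ^ 157 * 2 ^ 77) : ℕ) ≤ 2 ^ 500 := by norm_num
    omega
  have hm : ∀ k : ℕ, 0 < k → k ≤ 2 ^ 80 → k • (y a₁ • g) ∉ L := by
    intro k hk0 hk hmem
    have h1 : k • (y a₁ • g) = ((k : ℤ) * y a₁) • g := by
      rw [mul_smul, natCast_zsmul]
    rw [h1] at hmem
    have h2 := hodvd _ hmem
    have h3 : o ≤ ((k : ℤ) * y a₁).natAbs := by
      apply Nat.le_of_dvd
      · rw [Int.natAbs_mul]
        exact Nat.mul_pos (by simpa using hk0) (Int.natAbs_pos.2 hya₁)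
      · exact Int.natCast_dvd.1 h2
    rw [Int.natAbs_mul, Int.natAbs_natCast] at h3
    have h4 : k * (y a₁).natAbs ≤ 2 ^ 80 * 2 ^ 77 := Nat.mul_le_mul hk (hwt a₁ ha₁)
    have h5 : (2 ^ 80 * 2 ^ 77 : ℕ) = 2 ^ 157 := by norm_num
    omega
  -- log of the order
  have hlogG : Nat.log 2 (Nat.card G) ≤ 2 * Nat.log 2 κ + 1 := by
    have h1 : Nat.card G ≤ κ * κ := by
      rw [hy.card]
      exact Nat.mul_le_mul_right _ hy.le
    have h2 : κ < 2 ^ (Nat.log 2 κ + 1) := Nat.lt_pow_succ_log_self (by norm_num) κ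
    have h3 : κ * κ < 2 ^ (2 * Nat.log 2 κ + 2) := by
      have e : 2 ^ (2 * Nat.log 2 κ + 2) = 2 ^ (Nat.log 2 κ + 1) * 2 ^ (Nat.log 2 κ + 1) := by
        rw [← pow_add]
        congr 1
        ring
      rw [e]
      exact Nat.mul_lt_mul'' h2 h2
    have h4 : Nat.log 2 (Nat.card G) < 2 * Nat.log 2 κ + 2 :=
      Nat.log_lt_of_lt_pow (Nat.card_pos.ne') (lt_of_le_of_lt h1 h3)
    omega
  have ht : t ≤ Nat.log 2 κ := by
    apply Nat.le_log_of_pow_le (by norm_num)
    exact hy.ge.trans hy.le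
  set nE : ℕ := 2 * (t + 2 ^ 80 * (Nat.log 2 (Nat.card G) + 2)) with hnE
  have hnEc : 2 ^ 100 * nE ≤ κ := by
    have h1 : nE ≤ 2 ^ 84 * (Nat.log 2 κ + 1) := by
      rw [hnE]
      have : 2 ^ 80 * (Nat.log 2 (Nat.card G) + 2) ≤ 2 ^ 80 * (2 * Nat.log 2 κ + 3) :=
        Nat.mul_le_mul_left _ (by omega)
      have e2 : (2 ^ 84 : ℕ) = 16 * 2 ^ 80 := by norm_num
      rw [e2]
      nlinarith [Nat.zero_le (Nat.log 2 κ), Nat.one_le_two_pow (n := 80)]
    calc 2 ^ 100 * nE ≤ 2 ^ 100 * (2 ^ 84 * (Nat.log 2 κ + 1)) := Nat.mul_le_mul_left _ h1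
      _ = 2 ^ 184 * (Nat.log 2 κ + 1) := by ring
      _ ≤ 2 ^ 400 * (Nat.log 2 κ + 1) := Nat.mul_le_mul_right _ (by norm_num)
      _ ≤ κ := hlog
  -- the classes
  have hclsy : ∀ a ∈ V₁, ∀ Q : Finset G, 2 ^ 100 * #Q ≤ 2 * κ →
      κ ≤ 2 ^ 93 * #((V₁ \ Q).filter fun x => (y x).natAbs = (y a).natAbs) := by
    intro a ha Q hQ
    have h1 := hcls a ha
    have h2 : (V₁.filter fun x => (w x).natAbs = (w a).natAbs) ⊆
        ((V₁ \ Q).filter fun x => (y x).natAbs = (y a).natAbs) ∪ Q := by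
      intro x hx
      rw [mem_filter] at hx
      rw [mem_union, mem_filter, mem_sdiff]
      by_cases hxQ : x ∈ Q
      · exact Or.inr hxQ
      · exact Or.inl ⟨⟨hx.1, hxQ⟩, (heq x a hx.1 ha).2 hx.2⟩
    have h3 := (card_le_card h2).trans (card_union_le _ _)
    have h4 : 2 ^ 92 * #(V₁.filter fun x => (w x).natAbs = (w a).natAbs) ≤
        2 ^ 92 * (#((V₁ \ Q).filter fun x => (y x).natAbs = (y a).natAbs) + #Q) :=
      Nat.mul_le_mul_left _ h3
    have h5 : 2 ^ 92 * #Q * 2 ^ 8 ≤ 2 * κ := by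
      calc 2 ^ 92 * #Q * 2 ^ 8 = 2 ^ 100 * #Q := by ring
        _ ≤ _ := hQ
    rw [mul_add] at h4
    have e3 : 2 ^ 93 * #((V₁ \ Q).filter fun x => (y x).natAbs = (y a).natAbs) =
        2 * (2 ^ 92 * #((V₁ \ Q).filter fun x => (y x).natAbs = (y a).natAbs)) := by ring
    rw [e3]
    omega
  obtain ⟨E, hE1, hE2⟩ := exists_subset_card_eq (n := nE)
    (s := (V₁ \ R).filter fun x => (y x).natAbs = (y a₁).natAbs) (by
      have h1 := hclsy a₁ ha₁ R (by omega)
      have h2 : 2 ^ 93 * nE ≤ κ := le_trans (Nat.mul_le_mul_right _ (by norm_num)) hnEc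
      exact Nat.le_of_mul_le_mul_left (h2.trans h1) (by positivity))
  have hER : E ⊆ V₁ \ R := hE1.trans (filter_subset _ _)
  have hEV : E ⊆ V₁ := hER.trans sdiff_subset
  have hdRE : Disjoint R E := by
    rw [disjoint_left]
    intro x hx hx'
    exact (mem_sdiff.1 (hER hx')).2 hx
  have hEe : ∀ a ∈ E, a - y a₁ • g ∈ L ∨ a + y a₁ • g ∈ L := by
    intro a ha
    have h1 := (mem_filter.1 (hE1 ha)).2
    have h2 := hsub a (hEV ha)
    rcases Int.natAbs_eq_natAbs_iff.1 h1 with h3 | h3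
    · left
      rwa [h3] at h2
    · right
      rw [h3, neg_smul, sub_neg_eq_add] at h2
      exact h2
  have hm1 : κ ≤ (2 ^ 80 + 1) * Nat.card L := hLbig.trans (Nat.mul_le_mul_right _ (by norm_num))
  have hEven : Even #E := by
    rw [hE2, hnE]
    exact even_two_mul _
  have hRA : R ⊆ A := hRV₁.trans (hV₁V.trans hVA)
  have hEA : E ⊆ A := hEV.trans (hV₁V.trans hVA)
  have hfin := fun (W₀ : Finset G) (h1 : W₀ ⊆ A) (h2 : Disjoint R W₀) (h3 : Disjoint E W₀)
      (h4 : Odd (#R + #W₀)) (h5 : ∃ z ∈ SG W₀, z ∈ L) =>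
    hfin2 hsge G κ h t hy A R E W₀ L (y a₁ • g) (2 ^ 80) hA hRA hEA h1 hdRE h2 h3 hRL hEe hm1 hm
      hEven (le_of_eq (by rw [hE2])) h4 h5
  rcases Nat.even_or_odd #R with hRe | hRo
  swap
  · exact hfin ∅ (empty_subset _) (disjoint_empty_right _) (disjoint_empty_right _)
      (by simpa using hRo) ⟨0, zero_mem_SG_empty, L.zero_mem⟩
  -- an odd zero-sum is enough
  set V₃ := V₁ \ (R ∪ E) with hV₃
  have hV₃V : V₃ ⊆ V₁ := sdiff_subset
  have hgo : (∃ W ⊆ V₃, Odd #W ∧ ∃ z ∈ SG W, z ∈ L) → Sol A κ := by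
    rintro ⟨W, hW, hWo, hz⟩
    apply hfin W (hW.trans (hV₃V.trans (hV₁V.trans hVA))) _ _ (hRe.add_odd hWo) hz
    · rw [disjoint_left]
      intro x hx hx'
      exact (mem_sdiff.1 (hW hx')).2 (mem_union_left _ hx)
    · rw [disjoint_left]
      intro x hx hx'
      exact (mem_sdiff.1 (hW hx')).2 (mem_union_right _ hx)
  have hREc : 2 ^ 100 * #(R ∪ E) ≤ 2 * κ := by
    have h1 := card_union_le R E
    have h2 : 2 ^ 100 * #(R ∪ E) ≤ 2 ^ 100 * (#R + #E) := Nat.mul_le_mul_left _ h1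
    rw [mul_add, hE2] at h2
    omega
  have hV₃c : 98 * κ ≤ 100 * #V₃ := by
    have h1 : #V₁ ≤ #V₃ + #(R ∪ E) := by
      have := card_le_card_sdiff_add_card (s := V₁) (t := R ∪ E)
      exact this
    have h2 : 2 ^ 10 * #(R ∪ E) ≤ 2 ^ 100 * #(R ∪ E) := Nat.mul_le_mul_right _ (by norm_num)
    omega
  set θ : ℕ := κ / 2 ^ 93 with hθ
  have hLin : Lin V₃ L g y (2 ^ 77) θ :=
    { sub := fun a ha => hsub a (hV₃V ha)
      wt := fun a ha => hwt a (hV₃V ha)
      cls := by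
        intro a ha
        have h1 := hclsy a (hV₃V ha) (R ∪ E) hREc
        rw [hθ]
        apply Nat.div_le_of_le_mul
        exact h1
      gcd := by
        intro d hd
        apply hgcd d
        intro a ha
        have h1 := hclsy a ha (R ∪ E) hREc
        have h2 : 0 < #((V₁ \ (R ∪ E)).filter fun x => (y x).natAbs = (y a).natAbs) := by
          by_contra h3
          push Not at h3
          have h4 := Nat.le_zero.1 h3
          rw [h4] at h1
          omega
        obtain ⟨x, hx⟩ := card_pos.1 h2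
        rw [mem_filter] at hx
        rw [← hx.2]
        exact hd x hx.1 }
  have hθK : 2 * (2 ^ 77) ^ 3 ≤ θ := by
    rw [hθ, Nat.le_div_iff_mul_le (by positivity)]
    refine le_trans ?_ hκ
    norm_num
  have hbig5 : 100 * (4 * (2 ^ 77) ^ 5) ≤ κ := by
    refine le_trans ?_ hκ
    norm_num
  have hodd' := fun h5 => hgo (hodd hbez G V₃ L g y (2 ^ 77) θ o (by positivity) hLin hθK
    hoodd hog h5)
  by_cases hev : ∃ a ∈ V₃, Even (y a)
  · exact hodd' (Or.inl hev)
  push Not at hev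
  have hpos : ∀ a ∈ V₃, 1 ≤ (y a).natAbs := by
    intro a ha
    have h1 := hev a ha
    by_contra h2
    apply h1
    have h3 : (y a).natAbs = 0 := by omega
    rw [Int.natAbs_eq_zero.1 h3]
    exact Even.zero
  set U₁ := V₃.filter fun x => (y x).natAbs = 1 with hU₁
  have hsum : 3 * #V₃ ≤ ∑ a ∈ V₃, (y a).natAbs + 2 * #U₁ := by
    have h1 : ∀ a ∈ V₃, 3 ≤ (y a).natAbs + (if (y a).natAbs = 1 then 2 else 0) := by
      intro a ha
      have h2 := hpos a ha
      have h3 := hev a ha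
      by_cases h4 : (y a).natAbs = 1
      · rw [if_pos h4]
        omega
      · rw [if_neg h4]
        have h5 : (y a).natAbs ≠ 2 := by
          intro h6
          apply h3
          rw [← Int.natAbs_even, h6]
          exact even_two
        omega
    have h2 := sum_le_sum h1
    rw [sum_const, smul_eq_mul, sum_add_distrib, ← sum_filter, sum_const, smul_eq_mul] at h2
    rw [hU₁]
    linarith
  have hsum1 : #V₃ ≤ ∑ a ∈ V₃, (y a).natAbs := by
    have h2 := sum_le_sum hpos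
    rw [sum_const, smul_eq_mul, mul_one] at h2
    exact h2
  have hfin5 : o + κ / 100 ≤ ∑ a ∈ V₃, (y a).natAbs →
      o + 4 * (2 ^ 77) ^ 5 ≤ ∑ a ∈ V₃, (y a).natAbs := by
    intro h6
    have h7 : 4 * (2 ^ 77) ^ 5 ≤ κ / 100 := by
      rw [Nat.le_div_iff_mul_le (by norm_num), mul_comm]
      exact hbig5
    exact (Nat.add_le_add_left h7 o).trans h6
  rcases hoκ with hoκ | hoκ
  swap
  · apply hodd'
    right
    apply hfin5
    clear hfin5 hodd' hbig5
    omega
  by_cases hU₁c : 100 * #U₁ ≤ 95 * κ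
  · apply hodd'
    right
    apply hfin5
    clear hfin5 hodd' hbig5
    omega
  push Not at hU₁c
  -- the special case
  have hU₁g : ∀ a ∈ U₁, a - g ∈ L ∨ a + g ∈ L := by
    intro a ha
    rw [hU₁, mem_filter] at ha
    have h2 := hsub a (hV₃V ha.1)
    rcases Int.natAbs_eq_iff.1 ha.2 with h3 | h3
    · left
      rw [h3] at h2
      simpa using h2
    · right
      rw [h3] at h2
      simpa using h2
  obtain ⟨π, hπ1, hπL, hLh⟩ := hspr G κ h t hy (le_trans (by norm_num) hκ) U₁ L g hU₁g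
    (le_of_lt hU₁c) (by
      intro k hk0 hkκ hmem
      have h1 := hodvd k (by rwa [natCast_zsmul])
      have h2 : o ∣ k := Int.natCast_dvd_natCast.1 h1
      have := Nat.le_of_dvd hk0 h2
      omega)
  have hker : π.ker = L := by
    ext x
    rw [AddMonoidHom.mem_ker]
    exact hπL x
  apply hspc G κ h t hy (le_trans (by norm_num) hκ) π g A hπ1 (by rw [hker]; exact hLh) hA
  have hsubU : U₁ ⊆ A.filter fun a => J (π a) = 1 := by
    intro a ha
    rw [mem_filter]
    refine ⟨hVA (hV₁V (hV₃V ((filter_subset _ _) ha))), ?_⟩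
    have hκ3 : 3 ≤ κ := le_trans (by norm_num) hκ
    obtain ⟨c, hc⟩ := hy.odd
    have : NeZero κ := ⟨by omega⟩
    have : Fact (1 < κ) := ⟨by omega⟩
    have hval1 : (1 : ZMod κ).val = 1 := ZMod.val_one κ
    rcases hU₁g a ha with h1 | h1
    · have h2 : π a = 1 := by
        have h3 := (hπL _).2 h1
        rw [map_sub, hπ1, sub_eq_zero] at h3
        exact h3
      rw [h2]
      unfold J
      rw [hval1, if_pos (by norm_num)]
    · have h2 : π a = -1 := by
        have h3 := (hπL _).2 h1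
        rw [map_add, hπ1] at h3
        exact eq_neg_of_add_eq_zero_left h3
      rw [h2]
      unfold J
      have h4 : (-1 : ZMod κ).val = κ - 1 := by
        rw [ZMod.neg_val, if_neg one_ne_zero, hval1]
      rw [h4, if_neg (by omega)]
      omega
  have := card_le_card hsubU
  omega

end Pool.Agent.Lib.MP_8ac08c_co.OD
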