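import Pool.Agent.Lib.MP_8ac08c_co.OD.Stm

/-!
# MP_8ac08c_co, project OD: piece `big`
-/

set_option autoImplicit false

open Finset

namespace Pool.Agent.Lib.MP_8ac08c_co.OD

private theorem big_odd {G : Type} [AddCommGroup G] [Finite G] {κ : ℕ} (ho : Odd κ)
    (hx : ∀ x : G, κ • x = 0) : Odd (Nat.card G) := by
  rw [← Nat.not_even_iff_odd]
  intro he
  have : Fact (Nat.Prime 2) := ⟨Nat.prime_two⟩
  obtain ⟨x, hx2⟩ := exists_prime_addOrderOf_dvd_card' (G := G) 2 he.two_dvd
  have h1 : 2 ∣ κ := by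
    rw [← hx2]
    exact addOrderOf_dvd_of_nsmul_eq_zero (hx x)
  exact (Nat.not_even_iff_odd.2 ho) (even_iff_two_dvd.2 h1)

private theorem big_exp (l : ℕ) (hl : 100 ≤ l) : 1000000 * l ≤ 2 ^ l := by
  induction l, hl using Nat.le_induction with
  | base => norm_num
  | succ n hn ih =>
    rw [pow_succ]
    omega

private theorem big_card {G : Type} [AddCommGroup G] [Finite G] {Z : Finset G}
    {K : AddSubgroup G} (h : ∀ z ∈ Z, z ∈ K) : #Z ≤ Nat.card K := by
  have h2 : (Z : Set G) ⊆ (K : Set G) := fun z hz => h z (by exact_mod_cast hz)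
  have h3 : Nat.card (Z : Set G) ≤ Nat.card (K : Set G) :=
    Nat.card_le_card_of_injective _ (Set.inclusion_injective h2)
  have h4 : Nat.card (Z : Set G) = #Z := by simp
  rw [h4] at h3
  exact h3

private theorem big_log {p q κ : ℕ} (hp : p ≤ κ ^ 2) (hp0 : 0 < p)
    (h : Nat.log 2 q + 14 < Nat.log 2 p) : 5000 * q ≤ κ ^ 2 := by
  have h1 : q < 2 ^ (Nat.log 2 q + 1) := Nat.lt_pow_succ_log_self (by norm_num) q
  have h2 : 2 ^ Nat.log 2 p ≤ p := Nat.pow_log_le_self 2 (by omega)
  have h3 : 2 ^ (Nat.log 2 q + 1) * 2 ^ 14 ≤ 2 ^ Nat.log 2 p := by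
    rw [← pow_add]
    exact Nat.pow_le_pow_right (by norm_num) (by omega)
  have h4 : (2 : ℕ) ^ 14 = 16384 := by norm_num
  rw [h4] at h3
  omega

theorem p_big : S_big := by
  intro hrob hfin hsml hivh G _ _ _ κ h t hyp hκ A hA
  have hodd : Odd (Nat.card G) := big_odd hyp.odd hyp.exp
  obtain ⟨l, hl⟩ : ∃ l, l = Nat.log 2 κ := ⟨_, rfl⟩
  have hκ0 : κ ≠ 0 := by
    intro h0
    rw [h0] at hκ
    norm_num at hκ
  have hκpos : 0 < κ := Nat.pos_of_ne_zero hκ0
  have hl1 : 2 ^ l ≤ κ := by rw [hl]; exact Nat.pow_log_le_self 2 hκ0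
  have hl3 : 100 ≤ l := by rw [hl]; exact Nat.le_log_of_pow_le (by norm_num) hκ
  have hexp := (big_exp l hl3).trans hl1
  have ht : t ≤ l := by
    rw [hl]
    exact Nat.le_log_of_pow_le (by norm_num) (hyp.ge.trans hyp.le)
  have hG2 : Nat.card G ≤ κ ^ 2 := by
    rw [hyp.card, sq]
    exact Nat.mul_le_mul_right _ hyp.le
  obtain ⟨b, hb⟩ : ∃ b, b = κ / 2 ^ 11 := ⟨_, rfl⟩
  have hb1 : b * 2048 ≤ κ := by
    rw [hb]
    norm_num
    omega
  have hb2 : κ < (b + 1) * 2048 := by
    rw [hb]
    norm_num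
    omega
  by_cases hcase : ∀ Z ⊆ A, #(A \ Z) ≤ (14 + 1) * b →
      Nat.log 2 (Nat.card (AddSubgroup.closure (A : Set G))) ≤
        Nat.log 2 (Nat.card (AddSubgroup.closure (Z : Set G))) + 14
  · obtain ⟨Z, hZ, hZ1, hZ2⟩ := (hrob G G (fun Z : Finset G => AddSubgroup.closure (Z : Set G))
      (fun Z Z' hZZ => AddSubgroup.closure_mono (by exact_mod_cast hZZ)) A).2 b 14 hcase
    obtain ⟨H, hH⟩ : ∃ H, H = AddSubgroup.closure (Z : Set G) := ⟨_, rfl⟩
    rw [← hH] at hZ2
    have hZH : ∀ z ∈ Z, z ∈ H := by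
      intro z hz
      rw [hH]
      exact AddSubgroup.subset_closure (by exact_mod_cast hz)
    have hs : #(A \ Z) + #Z = #A := card_sdiff_add_card_eq_card hZ
    by_cases h5 : 5000 * Nat.card H ≤ κ ^ 2
    · left
      exact hsml G κ h t hyp hκ A Z H hA hZ hZH (by omega) h5
    · have hHle : Nat.card H ≤ κ ^ 2 :=
        (Nat.card_le_card_of_injective _ H.subtype_injective).trans hG2
      have hrb : ∀ Z' ⊆ Z, 2 ^ 11 * #(Z \ Z') ≤ κ → AddSubgroup.closure (Z' : Set G) = H := by
        intro Z' hZ' hc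
        refine hZ2 Z' hZ' ?_
        have h2 : (2 : ℕ) ^ 11 = 2048 := by norm_num
        rw [h2] at hc
        omega
      rcases hivh G κ H Z hyp.odd hodd hκ hHle hyp.exp (by omega) hZH
        (by
          intro Z' hZ' hc
          refine hrb Z' hZ' ?_
          have h2 : (2 : ℕ) ^ 11 = 2048 := by norm_num
          have h3 : (2 : ℕ) ^ 12 = 4096 := by norm_num
          rw [h3] at hc
          rw [h2]
          omega) with ⟨R, hR, hR1, hR2⟩ | ⟨V, H', w, hV, hV1, hw, hker, hH'⟩
      · left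
        have h3 : (2 : ℕ) ^ 12 = 4096 := by norm_num
        rw [h3] at hR1
        have h4 := big_card hZH
        exact hfin G κ h t hyp A Z R H hA hZ hZH hR hR2 (by omega) (by omega)
      · right
        have h3 : (2 : ℕ) ^ 12 = 4096 := by norm_num
        refine ⟨V, H, H', w, hV.trans hZ, ?_, ?_, hw, hker, hH', by omega⟩
        · have h6 : #(A \ V) ≤ #(A \ Z) + #(Z \ V) := by
            refine (card_le_card ?_).trans (card_union_le _ _)
            intro x hx
            rw [mem_sdiff] at hx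
            rw [mem_union, mem_sdiff, mem_sdiff]
            by_cases hxZ : x ∈ Z
            · right
              exact ⟨hxZ, hx.2⟩
            · left
              exact ⟨hx.1, hxZ⟩
          rw [h3] at hV1
          omega
        · intro V' hV' hc
          refine hrb V' (hV'.trans hV) ?_
          have h6 : #(Z \ V') ≤ #(Z \ V) + #(V \ V') := by
            refine (card_le_card ?_).trans (card_union_le _ _)
            intro x hx
            rw [mem_sdiff] at hx
            rw [mem_union, mem_sdiff, mem_sdiff]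
            by_cases hxV : x ∈ V
            · right
              exact ⟨hxV, hx.2⟩
            · left
              exact ⟨hx.1, hxV⟩
          have h2 : (2 : ℕ) ^ 11 = 2048 := by norm_num
          rw [h3] at hV1 hc
          rw [h2]
          omega
  · left
    push Not at hcase
    obtain ⟨Z, hZ, hZ1, hZ2⟩ := hcase
    have hs : #(A \ Z) + #Z = #A := card_sdiff_add_card_eq_card hZ
    refine hsml G κ h t hyp hκ A Z (AddSubgroup.closure (Z : Set G)) hA hZ
      (fun z hz => AddSubgroup.subset_closure (by exact_mod_cast hz)) (by omega) ?_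
    refine big_log ?_ Nat.card_pos hZ2
    exact (Nat.card_le_card_of_injective _
      (AddSubgroup.closure (A : Set G)).subtype_injective).trans hG2

end Pool.Agent.Lib.MP_8ac08c_co.OD
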