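import Pool.Agent.Lib.MP_8ac08c_co.OD.Stm

/-!
# MP_8ac08c_co, [OD bs2]: `L` is covered by few elements
-/

set_option autoImplicit false

open Finset

namespace Pool.Agent.Lib.MP_8ac08c_co.OD

/-- a short relation of weight zero is in `H'` -/
private theorem bs2_ker {G : Type} [AddCommGroup G] [DecidableEq G] {V : Finset G}
    {H' : AddSubgroup G} {w : G → ℤ}
    (hk : ∀ n : G → ℤ, ∑ a ∈ V, n a * w a = 0 → ∑ a ∈ V, n a • a ∈ H')
    {P N : Finset G} (hP : P ⊆ V) (hN : N ⊆ V) (h : ∑ x ∈ P, w x = ∑ x ∈ N, w x) :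
    ∑ x ∈ P, x - ∑ x ∈ N, x ∈ H' := by
  have h1 := hk (fun a => (if a ∈ P then 1 else 0) - (if a ∈ N then 1 else 0)) (by
    have e1 : ∀ a ∈ V, ((if a ∈ P then 1 else 0) - (if a ∈ N then 1 else 0) : ℤ) * w a =
        (if a ∈ P then w a else 0) - (if a ∈ N then w a else 0) := by
      intro a _
      split_ifs <;> ring
    rw [sum_congr rfl e1, sum_sub_distrib, sum_ite_mem, sum_ite_mem, inter_eq_right.2 hP,
      inter_eq_right.2 hN, h, sub_self])
  have e2 : ∀ a ∈ V, ((if a ∈ P then 1 else 0) - (if a ∈ N then 1 else 0) : ℤ) • a =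
      (if a ∈ P then a else 0) - (if a ∈ N then a else 0) := by
    intro a _
    split_ifs <;> simp
  rw [sum_congr rfl e2, sum_sub_distrib, sum_ite_mem, sum_ite_mem, inter_eq_right.2 hP,
    inter_eq_right.2 hN] at h1
  exact h1

/-- the estimate of the number of the steps -/
private theorem bs2_num (κ l : ℕ) (hκ : 2 ^ 500 ≤ κ) (hl : l ≤ 2 ^ 77 * κ) :
    (2 ^ 162 + 4 * Nat.log 2 l + 8) * 2 ^ 78 ≤ κ / 2 ^ 100 := by
  have hκ0 : κ ≠ 0 := by
    rintro rfl
    have : 0 < 2 ^ 500 := Nat.pow_pos (by norm_num)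
    exact absurd hκ (Nat.not_le.2 this)
  have h1 : Nat.log 2 l ≤ 77 + Nat.log 2 κ := by
    have h2 : Nat.log 2 (2 ^ 77 * κ) = 77 + Nat.log 2 κ := by
      have h3 : ∀ j : ℕ, Nat.log 2 (2 ^ j * κ) = j + Nat.log 2 κ := by
        intro j
        induction j with
        | zero => simp
        | succ j ih =>
          have h4 : 2 ^ (j + 1) * κ = (2 ^ j * κ) * 2 := by ring
          rw [h4, Nat.log_mul_base (by norm_num) (by positivity), ih]
          omega
      exact h3 77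
    rw [← h2]
    exact Nat.log_mono_right hl
  have h2 : 500 ≤ Nat.log 2 κ := Nat.le_log_of_pow_le (by norm_num) hκ
  have h3 : 2 ^ Nat.log 2 κ ≤ κ := Nat.pow_log_le_self 2 hκ0
  obtain ⟨k, hk⟩ := Nat.exists_eq_add_of_le h2
  rw [hk] at h1 h3
  have h4 : k < 2 ^ k := Nat.lt_two_pow_self
  rw [Nat.le_div_iff_mul_le (by positivity)]
  rw [pow_add] at h3
  refine le_trans ?_ h3
  generalize 2 ^ k = X at h4
  generalize Nat.log 2 l = y at h1
  have h5 : (2 ^ 162 + 4 * y + 8) ≤ 2 ^ 163 * X := by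
    have : 1 ≤ X := by omega
    norm_num
    omega
  calc (2 ^ 162 + 4 * y + 8) * 2 ^ 78 * 2 ^ 100 ≤ (2 ^ 163 * X) * 2 ^ 78 * 2 ^ 100 := by gcongr
    _ = 2 ^ (163 + 78 + 100) * X := by
      rw [pow_add, pow_add]
      generalize (2 : ℕ) ^ 163 = a
      generalize (2 : ℕ) ^ 78 = b
      generalize (2 : ℕ) ^ 100 = c
      ring
    _ ≤ 2 ^ 500 * X := Nat.mul_le_mul_right _ (Nat.pow_le_pow_right (by norm_num) (by norm_num))

theorem p_bs2 : S_bs2 := by
  intro hols hcov hdif G _ _ _ κ V V₁ H H' w hodd hκ hS hV1 hcard hrob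
  have hLH : Lg w (2 ^ 78) V₁ ≤ H' := by
    unfold Lg
    rw [AddSubgroup.closure_le]
    rintro v ⟨P, N, hP, hN, _, _, hw, rfl⟩
    exact bs2_ker hS.ker (hP.trans hV1) (hN.trans hV1) hw
  have hLc : Nat.card (Lg w (2 ^ 78) V₁) ≤ 2 ^ 77 * κ :=
    (Nat.card_mono (Set.toFinite _) hLH).trans hS.card'
  have hLo : Odd (Nat.card (Lg w (2 ^ 78) V₁)) :=
    hodd.of_dvd_nat (AddSubgroup.card_addSubgroup_dvd_card _)
  have hc0 : 0 < κ / 2 ^ 80 := by
    apply Nat.div_pos _ (by positivity)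
    exact le_trans (Nat.pow_le_pow_right (by norm_num) (by norm_num)) hκ
  obtain ⟨R, hR, hRc, hz⟩ := hcov hols G (Lg w (2 ^ 78) V₁) V₁ (2 ^ 78) (κ / 2 ^ 100) (κ / 2 ^ 80)
    (2 ^ 162) hLo hc0 (by
      intro U hU
      classical
      have hsub : V₁ \ (V₁ \ U) ⊆ U := by
        intro x hx
        rw [mem_sdiff, mem_sdiff] at hx
        by_contra h
        exact hx.2 ⟨hx.1, h⟩
      have hU1 : 2 ^ 100 * #(V₁ \ (V₁ \ U)) ≤ κ := by
        calc 2 ^ 100 * #(V₁ \ (V₁ \ U)) ≤ 2 ^ 100 * (κ / 2 ^ 100) :=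
              Nat.mul_le_mul_left _ ((card_le_card hsub).trans hU)
          _ ≤ κ := Nat.mul_div_le _ _
      have hZ := hrob (V₁ \ U) sdiff_subset hU1
      let S : Set G := {v | ∃ P N : Finset G, P ⊆ V₁ \ U ∧ N ⊆ V₁ \ U ∧ Disjoint P N ∧
        #P + #N ≤ 2 ^ 78 ∧ ∑ x ∈ P, w x = ∑ x ∈ N, w x ∧ v = ∑ x ∈ P, x - ∑ x ∈ N, x}
      have hSf : S.Finite := Set.toFinite _
      have hcl : AddSubgroup.closure S = Lg w (2 ^ 78) V₁ := hZ
      refine ⟨hSf.toFinset, ?_, ?_, ?_⟩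
      · obtain ⟨C, hC1, hC2⟩ := hdif G w (2 ^ 77) (V₁ \ U)
          (fun a ha => hS.wt a (hV1 (mem_sdiff.1 ha).1))
        have hCS : C ⊆ hSf.toFinset := by
          intro v hv
          rw [Set.Finite.mem_toFinset]
          obtain ⟨P, N, h1, h2, h3, h4, h5, h6⟩ := hC2 v hv
          exact ⟨P, N, h1, h2, h3, h4.trans (by norm_num), h5, h6⟩
        refine le_trans ?_ (card_le_card hCS)
        have h1 : #V₁ ≤ #(V₁ \ U) + #(V₁ \ (V₁ \ U)) := by
          have := card_le_card_sdiff_add_card (s := V₁) (t := V₁ \ U)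
          omega
        apply Nat.div_le_of_le_mul
        generalize #(V₁ \ (V₁ \ U)) = e at hU1 h1
        generalize #(V₁ \ U) = f at h1 hC1
        norm_num at hU1 hC1 ⊢
        omega
      · intro v hv
        rw [Set.Finite.mem_toFinset] at hv
        refine ⟨?_, ?_⟩
        · rw [← hcl]
          exact AddSubgroup.subset_closure hv
        · obtain ⟨P, N, h1, h2, h3, h4, h5, h6⟩ := hv
          refine ⟨P ∪ N, (union_subset h1 h2).trans sdiff_subset, ?_, ?_, ?_⟩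
          · exact (disjoint_sdiff_self_left).mono_left (union_subset h1 h2)
          · rw [card_union_of_disjoint h3]
            exact h4
          · rw [h6]
            exact sub_mem_SG h3
      · rw [Set.Finite.coe_toFinset]
        exact hcl) (by
      have h1 : κ < 2 ^ 80 * (κ / 2 ^ 80) + 2 ^ 80 := by
        have h2 := Nat.div_add_mod κ (2 ^ 80)
        have h3 := Nat.mod_lt κ (show 0 < 2 ^ 80 by positivity)
        omega
      generalize κ / 2 ^ 80 = c at h1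
      generalize Nat.card (Lg w (2 ^ 78) V₁) = l at hLc
      have hκ2 : 2 ^ 82 ≤ κ := le_trans (Nat.pow_le_pow_right (by norm_num) (by norm_num)) hκ
      clear hκ
      norm_num at h1 hLc hκ2 ⊢
      omega) (bs2_num κ _ hκ hLc)
  refine ⟨R, hR, ?_, hz⟩
  calc 2 ^ 100 * #R ≤ 2 ^ 100 * (κ / 2 ^ 100) :=
        Nat.mul_le_mul_left _ (hRc.trans (bs2_num κ _ hκ hLc))
    _ ≤ κ := Nat.mul_div_le _ _

end Pool.Agent.Lib.MP_8ac08c_co.OD
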