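import Pool.Agent.Lib.MP_8ac08c_co.OD.Stm

set_option autoImplicit false

open Finset

namespace Pool.Agent.Lib.MP_8ac08c_co.OD

private theorem bs3_bez {G : Type} [DecidableEq G] (w : G → ℤ) (s : Finset G) :
    ∃ (n : G → ℤ) (d : ℤ), ∑ a ∈ s, n a * w a = d ∧ ∀ a ∈ s, d ∣ w a := by
  induction s using Finset.induction_on with
  | empty => exact ⟨fun _ => 0, 0, by simp, by simp⟩
  | insert a s ha ih =>
    obtain ⟨n, d, hn, hd⟩ := ih
    refine ⟨fun x => if x = a then Int.gcdB d (w a) else Int.gcdA d (w a) * n x,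
      (Int.gcd d (w a) : ℤ), ?_, ?_⟩
    · rw [sum_insert ha]
      beta_reduce
      rw [if_pos rfl, Int.gcd_eq_gcd_ab]
      have h1 : ∑ x ∈ s, (if x = a then Int.gcdB d (w a) else Int.gcdA d (w a) * n x) * w x =
          Int.gcdA d (w a) * d := by
        rw [← hn, mul_sum]
        apply sum_congr rfl
        intro x hx
        have hxa : x ≠ a := by
          rintro rfl
          exact ha hx
        rw [if_neg hxa]
        ring
      rw [h1]
      ring
    · intro x hx
      rcases mem_insert.1 hx with rfl | hx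
      · exact Int.gcd_dvd_right d (w x)
      · exact (Int.gcd_dvd_left d (w a)).trans (hd x hx)

private def bs3_sg (u v : ℤ) : ℤ := if u = v then 1 else -1

private theorem bs3_sg_one (u v : ℤ) : bs3_sg u v = 1 ∨ bs3_sg u v = -1 := by
  unfold bs3_sg
  split_ifs
  · exact Or.inl rfl
  · exact Or.inr rfl

private theorem bs3_sg_mul (u v : ℤ) (h : u.natAbs = v.natAbs) : u = bs3_sg u v * v := by
  unfold bs3_sg
  split_ifs with h1
  · rw [h1, one_mul]
  · rcases Int.natAbs_eq_natAbs_iff.1 h with h2 | h2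
    · exact absurd h2 h1
    · rw [h2]
      ring

private def bs3_sn (z : ℤ) : ℤ := if 0 ≤ z then 1 else -1

private theorem bs3_sn_one (z : ℤ) : bs3_sn z = 1 ∨ bs3_sn z = -1 := by
  unfold bs3_sn
  split_ifs
  · exact Or.inl rfl
  · exact Or.inr rfl

private theorem bs3_sn_mul (z : ℤ) : (z.natAbs : ℤ) * bs3_sn z = z := by
  unfold bs3_sn
  split_ifs with h <;> omega

private theorem bs3_mul_one {u v : ℤ} (hu : u = 1 ∨ u = -1) (hv : v = 1 ∨ v = -1) :
    u * v = 1 ∨ u * v = -1 := by
  rcases hu with rfl | rfl <;> rcases hv with rfl | rfl <;> simp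

private theorem bs3_sum {G : Type} [AddCommGroup G] [DecidableEq G] (K : ℕ)
    (V : Finset G) (L : AddSubgroup G) (w : G → ℤ)
    (h4 : ∀ P N : Finset G, P ⊆ V → N ⊆ V → Disjoint P N → #P + #N ≤ 2 * K →
      ∑ x ∈ P, w x = ∑ x ∈ N, w x → ∑ x ∈ P, x - ∑ x ∈ N, x ∈ L)
    (U : Finset G) (hU : U ⊆ V) (hK : #U ≤ 2 * K) (s : G → ℤ)
    (hs : ∀ x ∈ U, s x = 1 ∨ s x = -1) (h0 : ∑ x ∈ U, s x * w x = 0) :
    ∑ x ∈ U, s x • x ∈ L := by
  have hfilt : ∀ x ∈ U.filter (fun x => ¬ s x = 1), s x = -1 := by
    intro x hx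
    rw [mem_filter] at hx
    exact (hs x hx.1).resolve_left hx.2
  have e1 : ∑ x ∈ U, s x * w x =
      ∑ x ∈ U.filter (fun x => s x = 1), w x - ∑ x ∈ U.filter (fun x => ¬ s x = 1), w x := by
    rw [← sum_filter_add_sum_filter_not U (fun x => s x = 1), sub_eq_add_neg, ← sum_neg_distrib]
    congr 1
    · apply sum_congr rfl
      intro x hx
      rw [(mem_filter.1 hx).2, one_mul]
    · apply sum_congr rfl
      intro x hx
      rw [hfilt x hx]
      ring
  have e2 : ∑ x ∈ U, s x • x =
      ∑ x ∈ U.filter (fun x => s x = 1), x - ∑ x ∈ U.filter (fun x => ¬ s x = 1), x := by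
    rw [← sum_filter_add_sum_filter_not U (fun x => s x = 1), sub_eq_add_neg, ← sum_neg_distrib]
    congr 1
    · apply sum_congr rfl
      intro x hx
      rw [(mem_filter.1 hx).2, one_smul]
    · apply sum_congr rfl
      intro x hx
      rw [hfilt x hx, neg_smul, one_smul]
  rw [e2]
  apply h4
  · exact (filter_subset _ _).trans hU
  · exact (filter_subset _ _).trans hU
  · exact disjoint_filter_filter_not U U (fun x => s x = 1)
  · rw [card_filter_add_card_filter_not]
    exact hK
  · linarith

theorem p_bs3 : S_bs3 := by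
  intro G _ _ K V L w h1 h2 h3 h4
  obtain ⟨a₀, ha₀, hw₀⟩ := h2
  have hK : 1 ≤ K := by
    have := h1 a₀ ha₀
    omega
  obtain ⟨n, d, hn, hd⟩ := bs3_bez w V
  have hd0 : d ≠ 0 := by
    rintro rfl
    exact hw₀ (zero_dvd_iff.1 (hd a₀ ha₀))
  have hy : ∀ a ∈ V, w a = d * (w a / d) := fun a ha => (Int.mul_ediv_cancel' (hd a ha)).symm
  set y : G → ℤ := fun a => w a / d with hydef
  have hy' : ∀ a ∈ V, w a = d * y a := hy
  have hny : ∑ a ∈ V, n a * y a = 1 := by
    have e1 : ∑ a ∈ V, n a * w a = d * ∑ a ∈ V, n a * y a := by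
      rw [mul_sum]
      apply sum_congr rfl
      intro a ha
      rw [hy' a ha]
      ring
    rw [e1] at hn
    have e2 : d * ∑ a ∈ V, n a * y a = d * 1 := by rw [hn, mul_one]
    exact mul_left_cancel₀ hd0 e2
  have habs : ∀ a ∈ V, (w a).natAbs = d.natAbs * (y a).natAbs := by
    intro a ha
    conv_lhs => rw [hy' a ha]
    exact Int.natAbs_mul _ _
  have hdpos : 0 < d.natAbs := Int.natAbs_pos.2 hd0
  have hyK : ∀ a ∈ V, (y a).natAbs ≤ K := by
    intro a ha
    have e1 := h1 a ha
    rw [habs a ha] at e1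
    nlinarith
  -- (1)
  have step1 : ∀ a ∈ V, ∀ a' ∈ V, ∀ ε : ℤ, (ε = 1 ∨ ε = -1) → w a' = ε * w a →
      a' - ε • a ∈ L := by
    intro a ha a' ha' ε hε hw
    by_cases haa : a = a'
    · subst haa
      rcases hε with rfl | rfl
      · rw [one_smul, sub_self]
        exact L.zero_mem
      · have hw0 : w a = 0 := by omega
        have e1 := h4 {a} ∅ (by simpa using ha) (empty_subset _) (disjoint_empty_right _)
          (by simp; omega) (by simp [hw0])
        rw [sum_singleton, sum_empty, sub_zero] at e1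
        rw [neg_smul, one_smul, sub_neg_eq_add]
        exact L.add_mem e1 e1
    · rcases hε with rfl | rfl
      · have e1 := h4 {a'} {a} (by simpa using ha') (by simpa using ha)
          (by rw [disjoint_singleton]; exact fun h => haa h.symm)
          (by simp; omega) (by simp [hw])
        rw [sum_singleton, sum_singleton] at e1
        rw [one_smul]
        exact e1
      · have e1 := h4 {a', a} ∅ (by
            intro x hx
            rcases mem_insert.1 hx with rfl | hx
            · exact ha'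
            · rw [mem_singleton.1 hx]
              exact ha) (empty_subset _) (disjoint_empty_right _)
          (by rw [card_pair (fun h => haa h.symm)]; simp; omega)
          (by rw [sum_pair (fun h => haa h.symm), hw]; simp)
        rw [sum_pair (fun h => haa h.symm), sum_empty, sub_zero] at e1
        rw [neg_smul, one_smul, sub_neg_eq_add]
        exact e1
  -- (2)
  have step2 : ∀ a ∈ V, ∀ b ∈ V, y b • a - y a • b ∈ L := by
    intro a ha b hb
    by_cases hab : (w b).natAbs = (w a).natAbs
    · have e1 := bs3_sg_mul _ _ hab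
      have e2 := step1 a ha b hb _ (bs3_sg_one (w b) (w a)) e1
      set ε := bs3_sg (w b) (w a) with hε
      have e3 : y b = ε * y a := by
        apply mul_left_cancel₀ hd0
        rw [← hy' b hb, e1, hy' a ha]
        ring
      have e4 : y b • a - y a • b = -(y a • (b - ε • a)) := by
        rw [e3, smul_sub, mul_comm ε (y a), mul_smul]
        abel
      rw [e4]
      exact L.neg_mem (L.zsmul_mem e2 _)
    · obtain ⟨P₁, hP₁, hc₁⟩ := exists_subset_card_eq ((hyK b hb).trans (h3 a ha))
      obtain ⟨P₂, hP₂, hc₂⟩ := exists_subset_card_eq ((hyK a ha).trans (h3 b hb))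
      have hm₁ : ∀ x ∈ P₁, x ∈ V ∧ (w x).natAbs = (w a).natAbs := fun x hx => mem_filter.1 (hP₁ hx)
      have hm₂ : ∀ x ∈ P₂, x ∈ V ∧ (w x).natAbs = (w b).natAbs := fun x hx => mem_filter.1 (hP₂ hx)
      have hdis : Disjoint P₁ P₂ := by
        rw [disjoint_left]
        intro x hx1 hx2
        apply hab
        rw [← (hm₂ x hx2).2, (hm₁ x hx1).2]
      set s : G → ℤ := fun x => if x ∈ P₁ then bs3_sg (w x) (w a) * bs3_sn (y b)
        else bs3_sg (w x) (w b) * -bs3_sn (y a) with hs
      have hs₁ : ∀ x ∈ P₁, s x = bs3_sg (w x) (w a) * bs3_sn (y b) := fun x hx => if_pos hx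
      have hs₂ : ∀ x ∈ P₂, s x = bs3_sg (w x) (w b) * -bs3_sn (y a) :=
        fun x hx => if_neg (disjoint_right.1 hdis hx)
      have hneg : ∀ z : ℤ, -bs3_sn z = 1 ∨ -bs3_sn z = -1 := by
        intro z
        rcases bs3_sn_one z with h | h
        · right
          rw [h]
        · left
          rw [h]
          rfl
      have hsq : ∀ u v : ℤ, bs3_sg u v * bs3_sg u v = 1 := by
        intro u v
        rcases bs3_sg_one u v with h | h <;> rw [h] <;> rfl
      have hwt : ∑ x ∈ P₁ ∪ P₂, s x * w x = 0 := by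
        rw [sum_union hdis]
        have e1 : ∑ x ∈ P₁, s x * w x = y b * w a := by
          have e2 : ∀ x ∈ P₁, s x * w x = bs3_sn (y b) * w a := by
            intro x hx
            rw [hs₁ x hx]
            have e3 := bs3_sg_mul _ _ (hm₁ x hx).2
            have e4 := hsq (w x) (w a)
            calc bs3_sg (w x) (w a) * bs3_sn (y b) * w x
                = bs3_sg (w x) (w a) * bs3_sn (y b) * (bs3_sg (w x) (w a) * w a) := by rw [← e3]
              _ = (bs3_sg (w x) (w a) * bs3_sg (w x) (w a)) * (bs3_sn (y b) * w a) := by ring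
              _ = bs3_sn (y b) * w a := by rw [e4, one_mul]
          rw [sum_congr rfl e2, sum_const, hc₁, nsmul_eq_mul, ← mul_assoc, bs3_sn_mul]
        have e1' : ∑ x ∈ P₂, s x * w x = -(y a * w b) := by
          have e2 : ∀ x ∈ P₂, s x * w x = -(bs3_sn (y a) * w b) := by
            intro x hx
            rw [hs₂ x hx]
            have e3 := bs3_sg_mul _ _ (hm₂ x hx).2
            have e4 := hsq (w x) (w b)
            calc bs3_sg (w x) (w b) * -bs3_sn (y a) * w x
                = bs3_sg (w x) (w b) * -bs3_sn (y a) * (bs3_sg (w x) (w b) * w b) := by rw [← e3]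
              _ = (bs3_sg (w x) (w b) * bs3_sg (w x) (w b)) * -(bs3_sn (y a) * w b) := by ring
              _ = -(bs3_sn (y a) * w b) := by rw [e4, one_mul]
          rw [sum_congr rfl e2, sum_const, hc₂, nsmul_eq_mul, mul_neg, ← mul_assoc, bs3_sn_mul]
        rw [e1, e1', hy' a ha, hy' b hb]
        ring
      have hmain := bs3_sum K V L w h4 (P₁ ∪ P₂)
        (union_subset (fun x hx => (hm₁ x hx).1) (fun x hx => (hm₂ x hx).1))
        (by
          rw [card_union_of_disjoint hdis, hc₁, hc₂]
          have := hyK a ha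
          have := hyK b hb
          omega) s
        (by
          intro x hx
          rcases mem_union.1 hx with hx | hx
          · rw [hs₁ x hx]
            exact bs3_mul_one (bs3_sg_one _ _) (bs3_sn_one _)
          · rw [hs₂ x hx]
            exact bs3_mul_one (bs3_sg_one _ _) (hneg _)) hwt
      rw [sum_union hdis] at hmain
      have f1 : ∑ x ∈ P₁, s x • x - y b • a ∈ L := by
        have e1 : y b • a = ∑ x ∈ P₁, bs3_sn (y b) • a := by
          rw [sum_const, hc₁, ← natCast_zsmul, ← mul_smul, bs3_sn_mul]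
        rw [e1, ← sum_sub_distrib]
        apply sum_mem
        intro x hx
        rw [hs₁ x hx]
        have e3 := step1 a ha x (hm₁ x hx).1 _ (bs3_sg_one _ _) (bs3_sg_mul _ _ (hm₁ x hx).2)
        have e4 : (bs3_sg (w x) (w a) * bs3_sn (y b)) • x - bs3_sn (y b) • a =
            (bs3_sg (w x) (w a) * bs3_sn (y b)) • (x - bs3_sg (w x) (w a) • a) := by
          rw [smul_sub, ← mul_smul]
          congr 2
          rw [mul_right_comm, hsq, one_mul]
        rw [e4]
        exact L.zsmul_mem e3 _
      have f2 : ∑ x ∈ P₂, s x • x + y a • b ∈ L := by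
        have e1 : y a • b = ∑ x ∈ P₂, bs3_sn (y a) • b := by
          rw [sum_const, hc₂, ← natCast_zsmul, ← mul_smul, bs3_sn_mul]
        rw [e1, ← sum_add_distrib]
        apply sum_mem
        intro x hx
        rw [hs₂ x hx]
        have e3 := step1 b hb x (hm₂ x hx).1 _ (bs3_sg_one _ _) (bs3_sg_mul _ _ (hm₂ x hx).2)
        have e4 : (bs3_sg (w x) (w b) * -bs3_sn (y a)) • x + bs3_sn (y a) • b =
            (bs3_sg (w x) (w b) * -bs3_sn (y a)) • (x - bs3_sg (w x) (w b) • b) := by
          rw [smul_sub, ← mul_smul, mul_right_comm, hsq, one_mul, neg_smul, sub_neg_eq_add]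
        rw [e4]
        exact L.zsmul_mem e3 _
      have e5 : y b • a - y a • b = (∑ x ∈ P₁, s x • x + ∑ x ∈ P₂, s x • x) -
          (∑ x ∈ P₁, s x • x - y b • a) - (∑ x ∈ P₂, s x • x + y a • b) := by
        abel
      rw [e5]
      exact L.sub_mem (L.sub_mem hmain f1) f2
  refine ⟨∑ a ∈ V, n a • a, y, ?_, ?_, hyK, ?_, ?_⟩
  · apply sum_mem
    intro a ha
    exact AddSubgroup.zsmul_mem _ (AddSubgroup.subset_closure ha) _
  · intro a ha
    have e1 : a - y a • ∑ b ∈ V, n b • b = ∑ b ∈ V, n b • (y b • a - y a • b) := by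
      have e2 : ∑ b ∈ V, n b • (y b • a - y a • b) =
          ∑ b ∈ V, (n b * y b) • a - ∑ b ∈ V, y a • (n b • b) := by
        rw [← sum_sub_distrib]
        apply sum_congr rfl
        intro b _
        rw [smul_sub, ← mul_smul, smul_comm (n b) (y a) b]
      rw [e2, ← sum_smul, hny, one_smul, smul_sum]
    rw [e1]
    apply sum_mem
    intro b hb
    exact L.zsmul_mem (step2 a ha b hb) _
  · intro a b ha hb
    rw [habs a ha, habs b hb]
    constructor
    · intro h
      rw [h]
    · intro h
      exact Nat.eq_of_mul_eq_mul_left hdpos h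
  · intro e he
    have e1 : (e : ℤ) ∣ 1 := by
      rw [← hny]
      apply dvd_sum
      intro a ha
      exact Dvd.dvd.mul_left (Int.natCast_dvd.2 (he a ha)) _
    exact_mod_cast Int.eq_one_of_dvd_one (by positivity) e1

end Pool.Agent.Lib.MP_8ac08c_co.OD
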