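import Pool.Agent.Lib.MP_8ac08c_co.OD.Stm

/-!
# MP_8ac08c_co, project OD: piece `c1b` (the direct construction)
-/

set_option autoImplicit false

open Finset

namespace Pool.Agent.Lib.MP_8ac08c_co.OD

private lemma c1b_signed {G : Type} [AddCommGroup G] [DecidableEq G] (σ : G → G)
    (hσ : ∀ a, σ a = a ∨ σ a = -a) (S : Finset G) : ∑ a ∈ S, σ a ∈ SG S := by
  induction S using Finset.induction_on with
  | empty => simpa using zero_mem_SG_empty
  | insert a S ha ih =>
    rw [sum_insert ha, insert_eq]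
    apply add_mem_SG (disjoint_singleton_left.mpr ha) _ ih
    rw [mem_SG_single]
    exact hσ a

private lemma c1b_oddJ {κ : ℕ} [NeZero κ] (hκ : Odd κ) (v : ZMod κ) : Odd (J v) := by
  unfold J
  split_ifs with h
  · exact Nat.odd_iff.mpr h
  · have h1 : v.val < κ := ZMod.val_lt v
    have h2 : v.val % 2 = 0 := by omega
    rw [Nat.odd_iff] at hκ ⊢
    omega

theorem p_c1b : S_c1b := by
  classical
  intro hrsm G _ _ _ κ h t hyp hκ π g A hg hker hA hU hW
  have hκ0 : 0 < κ := lt_of_lt_of_le (by positivity) hκ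
  haveI : NeZero κ := ⟨hκ0.ne'⟩
  -- the sign
  set n : G → G := fun a => if (π a).val % 2 = 1 then a else -a with hn
  have hnc : ∀ a, n a = a ∨ n a = -a := by
    intro a
    simp only [hn]
    split_ifs
    · exact Or.inl rfl
    · exact Or.inr rfl
  have hπn : ∀ a, π (n a) = ((J (π a) : ℕ) : ZMod κ) := by
    intro a
    simp only [hn, J]
    split_ifs with h1
    · rw [ZMod.natCast_zmod_val]
    · rw [Nat.cast_sub (ZMod.val_lt (π a)).le, ZMod.natCast_self, ZMod.natCast_zmod_val, map_neg,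
        zero_sub]
  have hodd : ∀ a, Odd (J (π a)) := fun a => c1b_oddJ hyp.odd _
  set U := A.filter (fun a => J (π a) = 1) with hUdef
  set W := A.filter (fun a => ¬ J (π a) = 1) with hWdef
  have hUW : #U + #W = #A := Finset.card_filter_add_card_filter_not _
  -- k
  have hpar : ∃ k, ∑ a ∈ W, J (π a) = #W + 2 * k := by
    have h1 : ∀ S : Finset G, ∃ k, ∑ a ∈ S, J (π a) = #S + 2 * k := by
      intro S
      induction S using Finset.induction_on with
      | empty => exact ⟨0, by simp⟩
      | insert a S ha ih =>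
        obtain ⟨k, hk⟩ := ih
        obtain ⟨m, hm⟩ := hodd a
        refine ⟨k + m, ?_⟩
        rw [sum_insert ha, card_insert_of_notMem ha, hk, hm]
        ring
    exact h1 W
  obtain ⟨k, hk⟩ := hpar
  have hk1 : 1000 * k ≤ 35 * κ := by omega
  have hkU : k ≤ #U := by omega
  obtain ⟨M, hMU, hMk⟩ := exists_subset_card_eq hkU
  have hUA : U ⊆ A := filter_subset _ _
  have hMA : M ⊆ A := hMU.trans hUA
  -- the signs with M
  set σ : G → G := fun a => if a ∈ M then -n a else n a with hσ
  have hσc : ∀ a, σ a = a ∨ σ a = -a := by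
    intro a
    simp only [hσ]
    split_ifs
    · rcases hnc a with h1 | h1
      · right; rw [h1]
      · left; rw [h1, neg_neg]
    · exact hnc a
  set z := ∑ a ∈ A, σ a with hz
  have hJU : ∀ a ∈ U, J (π a) = 1 := by
    intro a ha
    exact (mem_filter.mp ha).2
  have hπz : π z = (t : ZMod κ) := by
    have h1 : π z = ∑ a ∈ A, π (σ a) := map_sum π _ _
    have h2 : ∀ a ∈ A, π (σ a) = ((J (π a) : ℕ) : ZMod κ) - (if a ∈ M then (2 : ZMod κ) else 0) := by
      intro a ha
      simp only [hσ]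
      split_ifs with h3
      · rw [map_neg, hπn, hJU a (hMU h3)]
        norm_num
      · rw [hπn, sub_zero]
    rw [h1, sum_congr rfl h2, sum_sub_distrib, ← sum_filter]
    have h3 : A.filter (fun a => a ∈ M) = M := by
      ext a
      rw [mem_filter]
      exact ⟨fun h => h.2, fun h => ⟨hMA h, h⟩⟩
    rw [h3, sum_const, hMk, ← Nat.cast_sum]
    have h4 : ∑ a ∈ A, J (π a) = #A + 2 * k := by
      rw [← sum_filter_add_sum_filter_not A (fun a => J (π a) = 1)]
      change ∑ a ∈ U, J (π a) + ∑ a ∈ W, J (π a) = _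
      rw [hk, sum_congr rfl hJU, sum_const, smul_eq_mul, mul_one]
      omega
    rw [h4, hA]
    push_cast
    rw [ZMod.natCast_self, nsmul_eq_mul]
    ring
  -- the kernel
  let Λ := π.ker
  letI : Fintype Λ := Fintype.ofFinite _
  have hcardΛ : Fintype.card Λ = h := by rw [← Nat.card_eq_fintype_card]; exact hker
  have hf0 : ∀ a ∈ U, n a - g ∈ π.ker := by
    intro a ha
    rw [AddMonoidHom.mem_ker, map_sub, hπn, hJU a ha, hg]
    simp
  let f : G → Λ := fun a => if h1 : n a - g ∈ π.ker then ⟨n a - g, h1⟩ else 0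
  have hfU : ∀ a ∈ U, ((f a : Λ) : G) = n a - g := by
    intro a ha
    simp only [f, dif_pos (hf0 a ha)]
  have hfib : ∀ (S : Finset G), S ⊆ U → ∀ v : Λ, #(S.filter fun a => f a = v) ≤ 2 := by
    intro S hS v
    have h1 : (S.filter fun a => f a = v) ⊆ {(v : G) + g, -((v : G) + g)} := by
      intro a ha
      rw [mem_filter] at ha
      have h2 := hfU a (hS ha.1)
      rw [ha.2] at h2
      have h3 : n a = (v : G) + g := by rw [h2]; abel
      rw [mem_insert, mem_singleton]
      rcases hnc a with h4 | h4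
      · left; rw [← h3, h4]
      · right; rw [← h3, h4, neg_neg]
    exact (card_le_card h1).trans card_le_two
  have hU2 : #U ≤ 2 * h := by
    have h1 := card_le_mul_card_image_of_maps_to (s := U) (t := (univ : Finset Λ)) (f := f)
      (fun a _ => mem_univ _) 2 (fun v _ => hfib U (Subset.refl _) v)
    rwa [card_univ, hcardΛ] at h1
  have hh : 94 * κ ≤ 200 * h := by omega
  have hhκ : h ≤ κ := hyp.le
  have hoddh : Odd h := by
    by_contra hne
    rw [Nat.not_odd_iff_even] at hne
    have h2 : 2 ∣ Nat.card Λ := by rw [show Nat.card Λ = h from hker]; exact hne.two_dvd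
    haveI : Fact (Nat.Prime 2) := ⟨Nat.prime_two⟩
    obtain ⟨x, hx⟩ := exists_prime_addOrderOf_dvd_card' (G := Λ) 2 h2
    have h3 : κ • (x : G) = 0 := hyp.exp _
    have h4 : κ • x = 0 := by
      apply Subtype.ext
      simpa using h3
    have h5 := addOrderOf_dvd_of_nsmul_eq_zero h4
    rw [hx] at h5
    have h6 := hyp.odd
    rw [Nat.odd_iff] at h6
    omega
  have h2100 : (2 : ℕ) ^ 100 ≤ κ := hκ
  have hbig : 2 ^ 98 ≤ h := by
    have e : (2 : ℕ) ^ 100 = 4 * 2 ^ 98 := by norm_num
    omega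
  have ht : 98 ≤ t := by
    have h1 : 2 ^ 98 < 2 ^ (t + 1) := lt_of_le_of_lt hbig hyp.lt
    have h2 := (Nat.pow_lt_pow_iff_right (by norm_num : 1 < 2)).mp h1
    omega
  have h100 : 100 * t ≤ h := by
    have h1 : ∀ m : ℕ, 100 * (m + 98) ≤ 2 ^ (m + 98) := by
      intro m
      induction m with
      | zero => norm_num
      | succ m ih =>
        rw [show m + 1 + 98 = (m + 98) + 1 by ring, pow_succ]
        omega
    obtain ⟨m, rfl⟩ := Nat.exists_eq_add_of_le ht
    have h2 := h1 m
    rw [add_comm m 98] at h2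
    exact h2.trans hyp.ge
  set s := U \ M with hs
  have hsc : #s = #U - k := by rw [hs, card_sdiff_of_subset hMU, hMk]
  have hsU : s ⊆ U := sdiff_subset
  have h910 : 9 * Fintype.card Λ ≤ 10 * #s := by
    rw [hcardΛ, hsc]
    omega
  have htgt : z - t • g ∈ π.ker := by
    rw [AddMonoidHom.mem_ker, map_sub, map_nsmul, hπz, hg]
    simp
  obtain ⟨O, hOs, hOt, hOsum⟩ := hrsm Λ G s f t (by rw [hcardΛ]; exact hoddh)
    (by rw [hcardΛ]; exact le_trans (by norm_num) hbig) (hfib s hsU) h910 (by omega)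
    (by rw [hcardΛ]; exact h100) ⟨z - t • g, htgt⟩
  have hOU : O ⊆ U := hOs.trans hsU
  have hOA : O ⊆ A := hOU.trans hUA
  have hOM : ∀ a ∈ O, a ∉ M := fun a ha => (mem_sdiff.mp (hOs ha)).2
  have hOn : ∑ a ∈ O, n a = z := by
    have h1 : ((∑ a ∈ O, f a : Λ) : G) = z - t • g := by rw [hOsum]
    have h2 : ((∑ a ∈ O, f a : Λ) : G) = ∑ a ∈ O, ((f a : Λ) : G) := by
      exact AddSubgroup.val_finset_sum _ _ _
    rw [h2, sum_congr rfl (fun a ha => hfU a (hOU ha)), sum_sub_distrib, sum_const, hOt] at h1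
    exact sub_left_inj.mp h1
  have hfin : ∑ a ∈ A \ O, σ a = 0 := by
    have h1 : ∑ a ∈ A \ O, σ a + ∑ a ∈ O, σ a = z := sum_sdiff hOA
    have h2 : ∑ a ∈ O, σ a = z := by
      rw [← hOn]
      apply sum_congr rfl
      intro a ha
      simp only [hσ, if_neg (hOM a ha)]
    rw [h2] at h1
    simpa using h1
  have hmem : (0 : G) ∈ SG (A \ O) := by
    rw [← hfin]
    exact c1b_signed σ hσc _
  apply sol_of_SG sdiff_subset _ hmem
  rw [card_sdiff_of_subset hOA, hA, hOt]
  omega

end Pool.Agent.Lib.MP_8ac08c_co.OD
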