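import Pool.Agent.Lib.MP_8ac08c_co.OD.Stm

/-! Piece `chr` of project OD: characters of a group killed by `κ` are maps to `ZMod κ`. -/

set_option autoImplicit false

open Finset

namespace Pool.Agent.Lib.MP_8ac08c_co.OD

private theorem chr_val {κ : ℕ} [NeZero κ] (i : ℕ) :
    (ZMod.stdAddChar (N := κ) (i : ZMod κ)) = Complex.exp (2 * Real.pi * Complex.I / κ) ^ i := by
  have h := ZMod.stdAddChar_coe (N := κ) (i : ℤ)
  rw [Int.cast_natCast] at h
  rw [h, ← Complex.exp_nat_mul]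
  congr 1
  push_cast
  ring

theorem p_chr : S_chr := by
  intro Γ _ κ _ hκ χ
  have hp := Complex.isPrimitiveRoot_exp κ (NeZero.ne κ)
  have h1 : ∀ x : Γ, ∃ z : ZMod κ, χ x = ZMod.stdAddChar z := by
    intro x
    have h2 : (χ x) ^ κ = 1 := by
      rw [← AddChar.map_nsmul_eq_pow, hκ x, AddChar.map_zero_eq_one]
    obtain ⟨i, -, hi⟩ := hp.eq_pow_of_pow_eq_one h2
    exact ⟨(i : ZMod κ), by rw [chr_val, hi]⟩
  choose ψ hψ using h1
  have hinj := ZMod.injective_stdAddChar (N := κ)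
  refine ⟨⟨⟨ψ, ?_⟩, ?_⟩, ?_⟩
  · apply hinj
    rw [← hψ, AddChar.map_zero_eq_one, AddChar.map_zero_eq_one]
  · intro x y
    apply hinj
    rw [AddChar.map_add_eq_mul, ← hψ, ← hψ, ← hψ, AddChar.map_add_eq_mul]
  · intro x
    exact hψ x

end Pool.Agent.Lib.MP_8ac08c_co.OD
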