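import Pool.Agent.Lib.MP_8ac08c_co.OD.Stm

/-!
# MP_8ac08c_co, project OD, piece cov: covering a subgroup by the signed sums of few gadgets
-/

set_option autoImplicit false

open Finset

namespace Pool.Agent.Lib.MP_8ac08c_co.OD

/-- the potential -/
private noncomputable def cov_Phi (l c n : ℕ) : ℝ :=
  16 * ((l : ℝ) - n) / c + 2 * Real.logb 2 ((l : ℝ) / n) +
    (if n < l then Real.logb 2 ((l : ℝ) - n) + 1 else 0)

private theorem cov_log32 : 1 ≤ 2 * Real.logb 2 (3 / 2) := by
  have h1 : (2 : ℝ) * Real.logb 2 (3 / 2) = Real.logb 2 ((3 / 2) ^ 2) := by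
    rw [Real.logb_pow]
    norm_num
  rw [h1]
  have h2 : (1 : ℝ) = Real.logb 2 2 := (Real.logb_self_eq_one (by norm_num)).symm
  rw [h2]
  exact Real.logb_le_logb_of_le (by norm_num) (by norm_num) (by norm_num)

private theorem cov_step (l c n n' : ℕ) (hc : 0 < c) (hn : 1 ≤ n) (hl : n < l) (h1 : n ≤ n')
    (h2 : n' ≤ l) (h : min (8 * n) (min (8 * (l - n)) c) ≤ 16 * (n' - n)) :
    cov_Phi l c n' + 1 ≤ cov_Phi l c n := by
  have hcR : (0 : ℝ) < c := by exact_mod_cast hc
  have hnR : (1 : ℝ) ≤ n := by exact_mod_cast hn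
  have hlR : (n : ℝ) + 1 ≤ l := by exact_mod_cast hl
  have h1R : (n : ℝ) ≤ n' := by exact_mod_cast h1
  have h2R : (n' : ℝ) ≤ l := by exact_mod_cast h2
  have t1 : 16 * ((l : ℝ) - n') / c ≤ 16 * ((l : ℝ) - n) / c :=
    div_le_div_of_nonneg_right (by linarith) hcR.le
  have t2 : Real.logb 2 ((l : ℝ) / n') ≤ Real.logb 2 ((l : ℝ) / n) := by
    apply Real.logb_le_logb_of_le (by norm_num)
    · exact div_pos (by linarith) (by linarith)
    · exact div_le_div_of_nonneg_left (by linarith) (by linarith) h1R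
  have t3 : 0 ≤ Real.logb 2 ((l : ℝ) - n) := Real.logb_nonneg (by norm_num) (by linarith)
  unfold cov_Phi
  rw [if_pos hl]
  rcases h2.lt_or_eq with h3 | h3
  · rw [if_pos h3]
    have h3R : (n' : ℝ) + 1 ≤ l := by exact_mod_cast h3
    have t4 : Real.logb 2 ((l : ℝ) - n') ≤ Real.logb 2 ((l : ℝ) - n) :=
      Real.logb_le_logb_of_le (by norm_num) (by linarith) (by linarith)
    rw [min_le_iff, min_le_iff] at h
    rcases h with h | h | h
    · have h4 : 3 * n ≤ 2 * n' := by omega
      have h4R : (3 : ℝ) * n ≤ 2 * n' := by exact_mod_cast h4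
      have t5 : Real.logb 2 ((l : ℝ) / n') + Real.logb 2 (3 / 2) ≤ Real.logb 2 ((l : ℝ) / n) := by
        rw [← Real.logb_mul (by
          have : (0 : ℝ) < (l : ℝ) / n' := div_pos (by linarith) (by linarith)
          exact this.ne') (by norm_num)]
        apply Real.logb_le_logb_of_le (by norm_num)
        · have : (0 : ℝ) < (l : ℝ) / n' := div_pos (by linarith) (by linarith)
          positivity
        · rw [div_mul_div_comm, div_le_div_iff₀ (by linarith) (by linarith)]
          nlinarith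
      have := cov_log32
      linarith
    · have h4 : l + n ≤ 2 * n' := by omega
      have h4R : (l : ℝ) + n ≤ 2 * n' := by exact_mod_cast h4
      have t5 : Real.logb 2 ((l : ℝ) - n') + Real.logb 2 2 ≤ Real.logb 2 ((l : ℝ) - n) := by
        rw [← Real.logb_mul (by linarith) (by norm_num)]
        exact Real.logb_le_logb_of_le (by norm_num) (by linarith) (by linarith)
      rw [Real.logb_self_eq_one (by norm_num)] at t5
      linarith
    · have h4 : c + 16 * n ≤ 16 * n' := by omega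
      have h4R : (c : ℝ) + 16 * n ≤ 16 * n' := by exact_mod_cast h4
      have t5 : 16 * ((l : ℝ) - n') / c + 1 ≤ 16 * ((l : ℝ) - n) / c := by
        have : 16 * ((l : ℝ) - n') / c + 1 = (16 * ((l : ℝ) - n') + c) / c := by
          field_simp
        rw [this]
        exact div_le_div_of_nonneg_right (by linarith) hcR.le
      linarith
  · rw [if_neg (by omega)]
    linarith

private theorem cov_pos (l c n : ℕ) (hc : 0 < c) (hn : 1 ≤ n) (hl : n < l) :
    0 ≤ cov_Phi l c n := by
  have hcR : (0 : ℝ) < c := by exact_mod_cast hc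
  have hnR : (1 : ℝ) ≤ n := by exact_mod_cast hn
  have hlR : (n : ℝ) + 1 ≤ l := by exact_mod_cast hl
  unfold cov_Phi
  rw [if_pos hl]
  have t1 : 0 ≤ 16 * ((l : ℝ) - n) / c := div_nonneg (by linarith) hcR.le
  have t2 : 0 ≤ Real.logb 2 ((l : ℝ) / n) :=
    Real.logb_nonneg (by norm_num) (by rw [le_div_iff₀ (by linarith)]; linarith)
  have t3 : 0 ≤ Real.logb 2 ((l : ℝ) - n) := Real.logb_nonneg (by norm_num) (by linarith)
  linarith

private theorem cov_start (l c m : ℕ) (hc : 0 < c) (hl : 1 ≤ l) (hm : 16 * l ≤ c * m) :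
    cov_Phi l c 1 < ((m + 4 * Nat.log 2 l + 8 : ℕ) : ℝ) := by
  have hcR : (0 : ℝ) < c := by exact_mod_cast hc
  have hlR : (1 : ℝ) ≤ l := by exact_mod_cast hl
  have hmR : (16 : ℝ) * l ≤ c * m := by exact_mod_cast hm
  have hlog : Real.logb 2 (l : ℝ) ≤ (Nat.log 2 l : ℝ) + 1 := by
    have h1 : l < 2 ^ (Nat.log 2 l + 1) := Nat.lt_pow_succ_log_self (by norm_num) l
    have h2 : (l : ℝ) ≤ (2 : ℝ) ^ ((Nat.log 2 l : ℝ) + 1) := by
      have h3 : (l : ℝ) < (2 : ℝ) ^ (Nat.log 2 l + 1) := by exact_mod_cast h1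
      have h4 : (2 : ℝ) ^ ((Nat.log 2 l : ℝ) + 1) = (2 : ℝ) ^ (Nat.log 2 l + 1) := by
        rw [← Real.rpow_natCast]
        push_cast
        rfl
      rw [h4]
      exact h3.le
    rw [Real.logb_le_iff_le_rpow (by norm_num) (by linarith)]
    exact h2
  have hx : (0 : ℝ) ≤ Nat.log 2 l := Nat.cast_nonneg _
  have t1 : 16 * ((l : ℝ) - (1 : ℕ)) / c ≤ m := by
    rw [div_le_iff₀ hcR]
    push_cast
    nlinarith
  have t2 : Real.logb 2 ((l : ℝ) / (1 : ℕ)) = Real.logb 2 (l : ℝ) := by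
    rw [Nat.cast_one, div_one]
  have t3 : (if 1 < l then Real.logb 2 ((l : ℝ) - (1 : ℕ)) + 1 else 0) ≤
      Real.logb 2 (l : ℝ) + 1 := by
    split_ifs with h
    · have hlR' : (1 : ℝ) + 1 ≤ l := by exact_mod_cast h
      have : Real.logb 2 ((l : ℝ) - (1 : ℕ)) ≤ Real.logb 2 (l : ℝ) :=
        Real.logb_le_logb_of_le (by norm_num) (by push_cast; linarith) (by push_cast; linarith)
      linarith
    · have : 0 ≤ Real.logb 2 (l : ℝ) := Real.logb_nonneg (by norm_num) hlR
      linarith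
  unfold cov_Phi
  rw [t2]
  push_cast at t1 t3 ⊢
  linarith

private theorem cov_bd {G : Type} [AddCommGroup G] [DecidableEq G] (L : AddSubgroup G)
    [DecidablePred (· ∈ L)] [DecidableEq L] (S : Finset G) (hSL : ∀ z ∈ S, z ∈ L) (x : L) :
    bd (S.subtype (· ∈ L)) x = bd S (x : G) := by
  unfold bd
  have h : ((S.subtype (· ∈ L)).filter fun s => s + x ∉ S.subtype (· ∈ L)).map
      (Function.Embedding.subtype _) = S.filter fun s => s + (x : G) ∉ S := by
    ext z
    simp only [mem_map, mem_filter, mem_subtype, Function.Embedding.coe_subtype,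
      AddSubgroup.coe_add]
    constructor
    · rintro ⟨t, ⟨h1, h2⟩, rfl⟩
      exact ⟨h1, h2⟩
    · rintro ⟨h1, h2⟩
      exact ⟨⟨z, hSL z h1⟩, ⟨h1, h2⟩, rfl⟩
  rw [← h, card_map]

private theorem cov_two {L : Type} [AddCommGroup L] [Finite L] (hodd : Odd (Nat.card L)) (v : L) :
    ∃ j : ℕ, j • (v + v) = v := by
  obtain ⟨j, hj⟩ := hodd
  refine ⟨j + 1, ?_⟩
  have h1 : Nat.card L • v = 0 := card_nsmul_eq_zero'
  rw [hj] at h1
  have h2 : (j + 1) • (v + v) = (2 * j + 1) • v + v := by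
    rw [← two_nsmul, ← mul_nsmul, ← succ_nsmul]
    congr 1
  rw [h2, h1, zero_add]

private theorem cov_closure {G : Type} [AddCommGroup G] (L : AddSubgroup G) (C : Set G)
    (h : AddSubgroup.closure C = L) :
    AddSubgroup.closure ((fun x : L => (x : G)) ⁻¹' C) = ⊤ := by
  subst h
  exact AddSubgroup.closure_closure_coe_preimage

private theorem cov_grow (hols : S_ols) {G : Type} [AddCommGroup G] [Fintype G] [DecidableEq G]
    (L : AddSubgroup G) (Y R S : Finset G) (s c : ℕ) (hodd : Odd (Nat.card L)) (hc : 0 < c)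
    (C : Finset G) (hC : c ≤ #C)
    (hC2 : ∀ v ∈ C, v ∈ L ∧ ∃ D ⊆ Y, Disjoint D R ∧ #D ≤ s ∧ v ∈ SG D)
    (hC3 : AddSubgroup.closure (C : Set G) = L) (hR : R ⊆ Y) (hS : S ⊆ SG R)
    (hSL : ∀ z ∈ S, z ∈ L) (hS0 : S.Nonempty) :
    ∃ R' ⊆ Y, #R' ≤ #R + s ∧ ∃ S' ⊆ SG R', (∀ z ∈ S', z ∈ L) ∧ #S ≤ #S' ∧
      min (8 * #S) (min (8 * (Nat.card L - #S)) c) ≤ 16 * (#S' - #S) := by
  classical
  let SL : Finset L := S.subtype (· ∈ L)
  have hSLc : #SL = #S := by
    show #(S.subtype (· ∈ L)) = #S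
    rw [card_subtype, filter_true_of_mem hSL]
  let CL : Finset L := C.subtype (· ∈ L)
  have hCLc : #CL = #C := by
    show #(C.subtype (· ∈ L)) = #C
    rw [card_subtype, filter_true_of_mem fun v hv => (hC2 v hv).1]
  let C' : Finset L := insert 0 (CL.image (fun v => v + v) ∪ CL.image (fun v => -(v + v)))
  have hinj : Function.Injective (fun v : L => v + v) := by
    intro v w h
    have h' : v + v = w + w := h
    obtain ⟨j, hj⟩ := hodd
    have e : ∀ u : L, (j + 1) • (u + u) = u := by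
      intro u
      have h1 : Nat.card L • u = 0 := card_nsmul_eq_zero'
      rw [hj] at h1
      have h2 : (j + 1) • (u + u) = (2 * j + 1) • u + u := by
        rw [← two_nsmul, ← mul_nsmul, ← succ_nsmul]
        congr 1
      rw [h2, h1, zero_add]
    rw [← e v, ← e w, h']
  have hC'c : c ≤ #C' := by
    calc c ≤ #CL := by rw [hCLc]; exact hC
      _ = #(CL.image (fun v => v + v)) := (card_image_of_injective _ hinj).symm
      _ ≤ #C' := card_le_card (subset_union_left.trans (subset_insert _ _))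
  have hsymm : ∀ x ∈ C', -x ∈ C' := by
    intro x hx
    rcases mem_insert.1 hx with rfl | hx
    · rw [neg_zero]
      exact mem_insert_self _ _
    · rcases mem_union.1 hx with hx | hx
      · obtain ⟨v, hv, rfl⟩ := mem_image.1 hx
        exact mem_insert_of_mem (mem_union_right _ (mem_image.2 ⟨v, hv, rfl⟩))
      · obtain ⟨v, hv, rfl⟩ := mem_image.1 hx
        rw [neg_neg]
        exact mem_insert_of_mem (mem_union_left _ (mem_image.2 ⟨v, hv, rfl⟩))
  have hclos : AddSubgroup.closure (C' : Set L) = ⊤ := by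
    rw [eq_top_iff, ← cov_closure L (C : Set G) hC3, AddSubgroup.closure_le]
    intro v hv
    have hvC : v ∈ CL := mem_subtype.2 hv
    obtain ⟨j, hj⟩ := cov_two hodd v
    rw [← hj]
    apply AddSubgroup.nsmul_mem
    apply AddSubgroup.subset_closure
    exact mem_coe.2 (mem_insert_of_mem (mem_union_left _ (mem_image.2 ⟨v, hvC, rfl⟩)))
  have hne : SL.Nonempty := by
    obtain ⟨z, hz⟩ := hS0
    exact ⟨⟨z, hSL z hz⟩, mem_subtype.2 hz⟩
  obtain ⟨x, hx, hmin⟩ := hols L C' SL hsymm (mem_insert_self _ _) hclos hne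
  have hbd : bd SL x = bd S (x : G) := cov_bd L S hSL x
  rw [hSLc, ← Nat.card_eq_fintype_card, hbd] at hmin
  have hmin' : min (8 * #S) (min (8 * (Nat.card L - #S)) c) ≤ 16 * bd S (x : G) :=
    (min_le_min le_rfl (min_le_min le_rfl hC'c)).trans hmin
  -- the step with a vector `v`
  have key : ∀ v : G, v ∈ L → (∃ D ⊆ Y, Disjoint D R ∧ #D ≤ s ∧ v ∈ SG D) → v + v = x →
      ∃ R' ⊆ Y, #R' ≤ #R + s ∧ ∃ S' ⊆ SG R', (∀ z ∈ S', z ∈ L) ∧ #S ≤ #S' ∧
        min (8 * #S) (min (8 * (Nat.card L - #S)) c) ≤ 16 * (#S' - #S) := by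
    rintro v hvL ⟨D, hDY, hDR, hDs, hvD⟩ hvx
    obtain ⟨g1, g2⟩ := SG_grow hS hDR.symm hvD
    refine ⟨R ∪ D, union_subset hR hDY, (card_union_le _ _).trans (by omega), _, g1, ?_, ?_, ?_⟩
    · intro z hz
      rcases mem_union.1 hz with hz | hz
      · obtain ⟨y, hy, rfl⟩ := mem_image.1 hz
        exact L.add_mem (hSL y hy) hvL
      · obtain ⟨y, hy, rfl⟩ := mem_image.1 hz
        exact L.sub_mem (hSL y hy) hvL
    · rw [g2]
      exact Nat.le_add_right _ _
    · rw [g2, hvx, Nat.add_sub_cancel_left]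
      exact hmin'
  rcases mem_insert.1 hx with hx | hx
  · refine ⟨R, hR, Nat.le_add_right _ _, S, hS, hSL, le_rfl, ?_⟩
    have h0 : bd S (x : G) = 0 := by
      rw [hx]
      unfold bd
      rw [card_eq_zero, filter_eq_empty_iff]
      intro z hz
      rw [AddSubgroup.coe_zero, add_zero, not_not]
      exact hz
    rw [h0] at hmin'
    omega
  · rcases mem_union.1 hx with hx | hx
    · obtain ⟨v, hv, rfl⟩ := mem_image.1 hx
      have hv' : (v : G) ∈ C := mem_subtype.1 hv
      exact key v v.2 (hC2 _ hv').2 rfl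
    · obtain ⟨v, hv, rfl⟩ := mem_image.1 hx
      have hv' : (v : G) ∈ C := mem_subtype.1 hv
      obtain ⟨D, h1, h2, h3, h4⟩ := (hC2 _ hv').2
      refine key (-(v : G)) (L.neg_mem v.2) ⟨D, h1, h2, h3, neg_mem_SG h4⟩ ?_
      rw [AddSubgroup.coe_neg, AddSubgroup.coe_add]
      abel

theorem p_cov : S_cov := by
  intro hols G _ _ _ L Y s b c m hodd hc hyp hm hb
  classical
  have hl1 : 1 ≤ Nat.card L := Nat.card_pos
  have hcard : ∀ S : Finset G, (∀ z ∈ S, z ∈ L) → #S ≤ Nat.card L := by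
    intro S hS
    have h1 : #(S.subtype (· ∈ L)) = #S := by
      rw [card_subtype, filter_true_of_mem hS]
    rw [← h1, Nat.card_eq_fintype_card]
    exact card_le_univ _
  have main : ∀ k ≤ m + 4 * Nat.log 2 (Nat.card L) + 8, ∃ R ⊆ Y, #R ≤ k * s ∧
      ∃ S ⊆ SG R, (∀ z ∈ S, z ∈ L) ∧ S.Nonempty ∧ (#S = Nat.card L ∨
        cov_Phi (Nat.card L) c #S + k ≤ cov_Phi (Nat.card L) c 1) := by
    intro k
    induction k with
    | zero =>
      intro _
      refine ⟨∅, empty_subset _, by simp, {0}, ?_, ?_, singleton_nonempty _, Or.inr ?_⟩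
      · rw [SG_empty]
      · intro z hz
        rw [mem_singleton.1 hz]
        exact L.zero_mem
      · rw [card_singleton, Nat.cast_zero, add_zero]
    | succ k ih =>
      intro hk
      obtain ⟨R, hR, hRc, S, hS, hSL, hS0, h⟩ := ih (by omega)
      have hkk : k * s ≤ (k + 1) * s := Nat.mul_le_mul_right _ (Nat.le_succ _)
      by_cases hfull : #S = Nat.card L
      · exact ⟨R, hR, hRc.trans hkk, S, hS, hSL, hS0, Or.inl hfull⟩
      · have hlt : #S < Nat.card L := lt_of_le_of_ne (hcard S hSL) hfull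
        have hΦ := h.resolve_left hfull
        have hRb : #R ≤ b := hRc.trans ((Nat.mul_le_mul_right s (by omega)).trans hb)
        obtain ⟨C, hC1, hC2, hC3⟩ := hyp R hRb
        obtain ⟨R', hR', hRc', S', hS', hSL', hle, hmin⟩ :=
          cov_grow hols L Y R S s c hodd hc C hC1 hC2 hC3 hR hS hSL hS0
        refine ⟨R', hR', ?_, S', hS', hSL', ?_, Or.inr ?_⟩
        · calc #R' ≤ #R + s := hRc'
            _ ≤ k * s + s := by omega
            _ = (k + 1) * s := by ring
        · exact card_pos.1 (lt_of_lt_of_le (card_pos.2 hS0) hle)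
        · have := cov_step (Nat.card L) c #S #S' hc (card_pos.2 hS0) hlt hle (hcard S' hSL') hmin
          push_cast
          linarith
  obtain ⟨R, hR, hRc, S, hS, hSL, hS0, h⟩ := main _ le_rfl
  refine ⟨R, hR, hRc, ?_⟩
  have hfull : #S = Nat.card L := by
    rcases h with h | h
    · exact h
    · by_contra hne
      have hlt : #S < Nat.card L := lt_of_le_of_ne (hcard S hSL) hne
      have h1 := cov_pos (Nat.card L) c #S hc (card_pos.2 hS0) hlt
      have h2 := cov_start (Nat.card L) c m hc hl1 hm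
      linarith
  intro z hz
  apply hS
  by_contra hzS
  have h1 : #(insert z S) ≤ Nat.card L := by
    apply hcard
    intro y hy
    rcases mem_insert.1 hy with rfl | hy
    · exact hz
    · exact hSL y hy
  rw [card_insert_of_notMem hzS] at h1
  omega

end Pool.Agent.Lib.MP_8ac08c_co.OD
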