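import Pool.Agent.Lib.MP_8ac08c_co.OD.Stm

/-!
# MP_8ac08c_co, project OD: piece dif, many differences
-/

set_option autoImplicit false

open Finset

namespace Pool.Agent.Lib.MP_8ac08c_co.OD

theorem p_dif : S_dif := by
  intro G _ _ w K Z hw
  obtain ⟨i, -, hi⟩ := exists_max_image (Icc (-(K : ℤ)) K) (fun i => #(Z.filter fun a => w a = i))
    ⟨0, mem_Icc.2 ⟨by omega, by omega⟩⟩
  have h1 : #Z ≤ #(Z.filter fun a => w a = i) * #(Icc (-(K : ℤ)) K) := by
    refine card_le_mul_card_image_of_maps_to (f := w) (fun a ha => ?_) _ hi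
    have h2 := hw a ha
    rw [mem_Icc]
    omega
  have h2 : #(Icc (-(K : ℤ)) K) = 2 * K + 1 := by
    rw [Int.card_Icc]
    omega
  rw [h2, mul_comm] at h1
  rcases (Z.filter fun a => w a = i).eq_empty_or_nonempty with h3 | ⟨b, hb⟩
  · rw [h3, card_empty, mul_zero] at h1
    exact ⟨∅, by rw [card_empty, mul_zero]; exact h1, fun v hv => absurd hv (notMem_empty v)⟩
  · refine ⟨(Z.filter fun a => w a = i).image fun a => a - b, ?_, ?_⟩
    · rw [card_image_of_injective _ sub_left_injective]
      exact h1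
    · intro v hv
      rw [mem_image] at hv
      obtain ⟨a, ha, rfl⟩ := hv
      rw [mem_filter] at ha hb
      by_cases hab : a = b
      · refine ⟨∅, ∅, empty_subset _, empty_subset _, disjoint_empty_left _, by simp, rfl, ?_⟩
        rw [hab]
        simp
      · refine ⟨{a}, {b}, singleton_subset_iff.2 ha.1, singleton_subset_iff.2 hb.1,
          disjoint_singleton.2 hab, by simp, ?_, by simp⟩
        rw [sum_singleton, sum_singleton, ha.2, hb.2]

end Pool.Agent.Lib.MP_8ac08c_co.OD
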