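import Pool.Agent.Lib.MP_8ac08c_co.OD.Stm

set_option autoImplicit false

open Finset

namespace Pool.Agent.Lib.MP_8ac08c_co.OD

private theorem fin1_half {G : Type} [AddCommGroup G] {κ : ℕ} (hκ : Odd κ)
    (he : ∀ x : G, κ • x = 0) (K : AddSubgroup G) {x : G} (hx : x + x ∈ K) : x ∈ K := by
  obtain ⟨m, hm⟩ := hκ
  have h1 : x = -(m • (x + x)) := by
    have h2 := he x
    rw [hm, add_nsmul, one_nsmul, mul_comm, mul_nsmul, two_nsmul, ← nsmul_add] at h2
    exact eq_neg_of_add_eq_zero_right h2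
  rw [h1]
  exact K.neg_mem (K.nsmul_mem hx m)

private theorem fin1_odd {G : Type} [AddCommGroup G] [Fintype G] {κ : ℕ} (hκ : Odd κ)
    (he : ∀ x : G, κ • x = 0) (K : AddSubgroup G) : Odd (Nat.card K) := by
  rw [← Nat.not_even_iff_odd]
  intro hev
  have h2 : 2 ∣ Nat.card K := hev.two_dvd
  have : Fact (Nat.Prime 2) := ⟨Nat.prime_two⟩
  obtain ⟨x, hx⟩ := exists_prime_addOrderOf_dvd_card' (G := K) 2 h2
  have h3 : κ • x = 0 := Subtype.ext (by
    rw [AddSubgroup.coe_nsmul, he, AddSubgroup.coe_zero])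
  have h4 := addOrderOf_dvd_of_nsmul_eq_zero h3
  rw [hx] at h4
  exact (Nat.not_even_iff_odd.2 hκ) (even_iff_two_dvd.2 h4)

private def fin1_Q {G : Type} [AddCommGroup G] [DecidableEq G] (K : AddSubgroup G)
    (W : Finset G) : Prop := ∃ z ∈ SG W, z ∈ K

/-- maximality of `W` -/
private def fin1_Max {G : Type} [AddCommGroup G] [DecidableEq G] (K : AddSubgroup G)
    (X W : Finset G) : Prop :=
  ∀ W' ⊆ X, (∃ z ∈ SG W', z ∈ K) → #W' ≤ #W

private theorem fin1_key {G : Type} [AddCommGroup G] [DecidableEq G] {K : AddSubgroup G}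
    {X W : Finset G} (hM : fin1_Max K X W) (hWX : W ⊆ X) {S S' : Finset G} (hS : S ⊆ X \ W)
    (hS' : S' ⊆ X \ W) (hne : S ≠ S') {u : G} (hu : u ∈ SG W)
    (hk : u + (∑ x ∈ S, x - ∑ x ∈ S', x) ∈ K) : False := by
  have hd : Disjoint (S \ S') (S' \ S) := disjoint_sdiff_sdiff
  have hDX : (S \ S') ∪ (S' \ S) ⊆ X \ W :=
    union_subset (sdiff_subset.trans hS) (sdiff_subset.trans hS')
  have hWD : Disjoint W ((S \ S') ∪ (S' \ S)) :=
    Disjoint.mono_right hDX disjoint_sdiff
  have hsum : ∑ x ∈ S, x - ∑ x ∈ S', x = ∑ x ∈ S \ S', x - ∑ x ∈ S' \ S, x := by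
    have h1 := sum_sdiff_sub_sum_sdiff (s₁ := S') (s₂ := S) (f := fun x : G => x)
    exact h1.symm
  have hmem : u + (∑ x ∈ S, x - ∑ x ∈ S', x) ∈ SG (W ∪ ((S \ S') ∪ (S' \ S))) := by
    rw [hsum]
    exact add_mem_SG hWD hu (sub_mem_SG hd)
  have h1 := hM _ (union_subset hWX (hDX.trans sdiff_subset)) ⟨_, hmem, hk⟩
  rw [card_union_of_disjoint hWD] at h1
  have h2 : #((S \ S') ∪ (S' \ S)) = 0 := by omega
  rw [card_eq_zero, union_eq_empty] at h2
  apply hne
  apply Subset.antisymm
  · exact sdiff_eq_empty_iff_subset.1 h2.1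
  · exact sdiff_eq_empty_iff_subset.1 h2.2

private theorem fin1_a {G : Type} [AddCommGroup G] [Fintype G] [DecidableEq G]
    {K : AddSubgroup G} {X W : Finset G} (hM : fin1_Max K X W) (hWX : W ⊆ X) {z : G}
    (hz : z ∈ SG W) (hzK : z ∈ K) : 2 ^ #(X \ W) ≤ Nat.card (G ⧸ K) := by
  classical
  let _ : Fintype (G ⧸ K) := Fintype.ofFinite _
  rw [Nat.card_eq_fintype_card, ← card_powerset, ← Finset.card_univ]
  apply card_le_card_of_injOn (fun S : Finset G => ((∑ x ∈ S, x : G) : G ⧸ K))
  · intro S _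
    exact mem_coe.2 (mem_univ _)
  · intro S hS S' hS' heq
    by_contra hne
    have hS1 := mem_powerset.1 (mem_coe.1 hS)
    have hS2 := mem_powerset.1 (mem_coe.1 hS')
    have h1 : -(∑ x ∈ S', x) + ∑ x ∈ S, x ∈ K := QuotientAddGroup.eq.1 heq.symm
    apply fin1_key hM hWX hS1 hS2 hne hz
    apply K.add_mem hzK
    rwa [neg_add_eq_sub] at h1

private theorem fin1_b {G : Type} [AddCommGroup G] [Fintype G] [DecidableEq G]
    {K : AddSubgroup G} {X W : Finset G} (hM : fin1_Max K X W) (hWX : W ⊆ X) {z : G}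
    (hz : z ∈ SG W) (hzK : z ∈ K) {w : G} (hw : w ∈ W) (hwK : w + w ∉ K) :
    2 ^ (#(X \ W) + 1) ≤ Nat.card (G ⧸ K) := by
  classical
  let _ : Fintype (G ⧸ K) := Fintype.ofFinite _
  -- the cross collision
  have hcross : ∀ S ⊆ X \ W, ∀ S' ⊆ X \ W,
      (w + w) + ∑ x ∈ S, x - ∑ x ∈ S', x ∈ K → False := by
    intro S hS S' hS' hk
    by_cases hne : S = S'
    · subst hne
      apply hwK
      rwa [add_sub_cancel_right] at hk
    · rw [mem_SG] at hz
      obtain ⟨P, hP, hPz⟩ := hz
      by_cases hwP : w ∈ P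
      · have h1 : z - (w + w) ∈ SG W := by
          rw [mem_SG]
          refine ⟨P.erase w, (erase_subset _ _).trans hP, ?_⟩
          have h2 := sum_erase_add P (fun x : G => x) hwP
          rw [← hPz, ← h2]
          abel
        apply fin1_key hM hWX hS' hS (Ne.symm hne) h1
        have h3 := K.sub_mem hzK hk
        have h4 : z - (w + w) + (∑ x ∈ S', x - ∑ x ∈ S, x) =
            z - (w + w + ∑ x ∈ S, x - ∑ x ∈ S', x) := by abel
        rw [h4]
        exact h3
      · have h1 : z + (w + w) ∈ SG W := by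
          rw [mem_SG]
          refine ⟨insert w P, insert_subset hw hP, ?_⟩
          rw [sum_insert hwP, ← hPz]
          abel
        apply fin1_key hM hWX hS hS' hne h1
        have h3 := K.add_mem hzK hk
        have h4 : z + (w + w) + (∑ x ∈ S, x - ∑ x ∈ S', x) =
            z + (w + w + ∑ x ∈ S, x - ∑ x ∈ S', x) := by abel
        rw [h4]
        exact h3
  have hcard : 2 ^ (#(X \ W) + 1) = #((univ : Finset Bool) ×ˢ (X \ W).powerset) := by
    rw [card_product, card_powerset, card_univ, Fintype.card_bool, pow_succ, mul_comm]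
  rw [Nat.card_eq_fintype_card, hcard, ← Finset.card_univ]
  apply card_le_card_of_injOn
    (fun p : Bool × Finset G => (((if p.1 then w + w else 0) + ∑ x ∈ p.2, x : G) : G ⧸ K))
  · intro S _
    exact mem_coe.2 (mem_univ _)
  · rintro ⟨b, S⟩ hS ⟨b', S'⟩ hS' heq
    have hS1 := mem_powerset.1 (mem_product.1 (mem_coe.1 hS)).2
    have hS2 := mem_powerset.1 (mem_product.1 (mem_coe.1 hS')).2
    have h1 := QuotientAddGroup.eq.1 heq.symm
    have h1' := QuotientAddGroup.eq.1 heq
    by_contra hne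
    rcases b with _ | _ <;> rcases b' with _ | _
    · have hne' : S ≠ S' := fun h => hne (by rw [h])
      simp only [Bool.false_eq_true, if_false, zero_add] at h1
      apply fin1_key hM hWX hS1 hS2 hne' hz
      apply K.add_mem hzK
      rwa [neg_add_eq_sub] at h1
    · simp only [Bool.false_eq_true, if_false, zero_add, if_true] at h1'
      apply hcross S' hS2 S hS1
      rwa [neg_add_eq_sub] at h1'
    · simp only [Bool.false_eq_true, if_false, zero_add, if_true] at h1
      apply hcross S hS1 S' hS2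
      rwa [neg_add_eq_sub] at h1
    · have hne' : S ≠ S' := fun h => hne (by rw [h])
      simp only [if_true] at h1
      apply fin1_key hM hWX hS1 hS2 hne' hz
      apply K.add_mem hzK
      have h4 : -(w + w + ∑ x ∈ S', x) + (w + w + ∑ x ∈ S, x) = ∑ x ∈ S, x - ∑ x ∈ S', x := by
        abel
      rwa [h4] at h1

theorem p_fin1 : S_fin1 := by
  intro G _ _ _ κ h t hyp A Z R K hA hZA hZK hRZ hcov hcard hK
  classical
  have hκ := hyp.odd
  have he := hyp.exp
  have hκ0 : 0 < κ := hκ.pos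
  set X : Finset G := A.filter (fun x => x ∉ K) with hX
  set AK : Finset G := A.filter (fun x => x ∈ K) with hAK
  have hsplit : #AK + #X = κ + t := by
    rw [← hA, hAK, hX]
    exact card_filter_add_card_filter_not _
  -- the maximal W
  have hne : (X.powerset.filter (fun W => fin1_Q K W)).Nonempty := by
    refine ⟨∅, ?_⟩
    rw [mem_filter]
    exact ⟨empty_mem_powerset _, 0, zero_mem_SG_empty, K.zero_mem⟩
  obtain ⟨W, hW, hWmax⟩ := exists_max_image _ (fun W : Finset G => #W) hne
  rw [mem_filter, mem_powerset] at hW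
  obtain ⟨hWX, z, hz, hzK⟩ := hW
  have hM : fin1_Max K X W := by
    intro W' hW' hz'
    exact hWmax W' (mem_filter.2 ⟨mem_powerset.2 hW', hz'⟩)
  have ha := fin1_a hM hWX hz hzK
  have hindex : Nat.card G = Nat.card (G ⧸ K) * Nat.card K :=
    AddSubgroup.card_eq_card_quotient_mul_card_addSubgroup K
  rw [hyp.card] at hindex
  have hq : Nat.card (G ⧸ K) ≤ 2 * h := by
    have h1 : Nat.card (G ⧸ K) * κ ≤ (2 * h) * κ := by
      calc Nat.card (G ⧸ K) * κ ≤ Nat.card (G ⧸ K) * (2 * Nat.card K) := Nat.mul_le_mul_left _ hK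
        _ = 2 * (Nat.card (G ⧸ K) * Nat.card K) := by ring
        _ = 2 * (h * κ) := by rw [hindex]
        _ = (2 * h) * κ := by ring
    exact Nat.le_of_mul_le_mul_right h1 hκ0
  have hq2 : Nat.card (G ⧸ K) < 2 ^ (t + 2) := by
    have := hyp.lt
    rw [pow_succ]
    omega
  have hXW : #(X \ W) + #W = #X := card_sdiff_add_card_eq_card hWX
  have hC : #(X \ W) ≤ t := by
    rcases W.eq_empty_or_nonempty with hWe | ⟨w, hw⟩
    · by_contra hlt
      push Not at hlt
      have h1 : #(X \ W) < t + 2 := (Nat.pow_lt_pow_iff_right (by norm_num)).1 (lt_of_le_of_lt ha hq2)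
      have h2 : #(X \ W) = t + 1 := by omega
      rw [h2] at ha
      have h3 : #W = 0 := by rw [hWe]; rfl
      have h4 : #AK = κ - 1 := by omega
      have h5 : #AK ≤ Nat.card K := by
        let _ : Fintype K := Fintype.ofFinite _
        rw [Nat.card_eq_fintype_card, ← Finset.card_univ (α := K)]
        have h6 : #AK ≤ #((univ : Finset K).image (fun x : K => (x : G))) := by
          apply card_le_card
          intro x hx
          rw [mem_image]
          exact ⟨⟨x, (mem_filter.1 hx).2⟩, mem_univ _, rfl⟩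
        exact h6.trans card_image_le
      have h6 := fin1_odd hκ he K
      have h7 : κ ≤ Nat.card K := by
        obtain ⟨a, ha'⟩ := h6
        obtain ⟨b, hb⟩ := hκ
        omega
      have h8 : Nat.card (G ⧸ K) ≤ h := by
        have h1 : Nat.card (G ⧸ K) * κ ≤ h * κ := by
          rw [hindex]
          exact Nat.mul_le_mul_left _ h7
        exact Nat.le_of_mul_le_mul_right h1 hκ0
      have := hyp.lt
      omega
    · have hwX := hWX hw
      rw [hX, mem_filter] at hwX
      have hwK : w + w ∉ K := fun hh => hwX.2 (fin1_half hκ he K hh)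
      have hb := fin1_b hM hWX hz hzK hw hwK
      have h1 : #(X \ W) + 1 < t + 2 :=
        (Nat.pow_lt_pow_iff_right (by norm_num)).1 (lt_of_le_of_lt hb hq2)
      omega
  have hge : κ ≤ #AK + #W := by omega
  have hXZ : #X ≤ #(A \ Z) := by
    apply card_le_card
    intro x hx
    rw [hX, mem_filter] at hx
    rw [mem_sdiff]
    exact ⟨hx.1, fun hz => hx.2 (hZK x hz)⟩
  have hRAK : R ⊆ AK := by
    intro x hx
    rw [hAK, mem_filter]
    exact ⟨hZA (hRZ hx), hZK x (hRZ hx)⟩
  obtain ⟨B, hRB, hBA, hBc⟩ := exists_subsuperset_card_eq (n := κ - #W) hRAK (by omega) (by omega)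
  have hdAX : Disjoint AK X := by
    rw [hAK, hX]
    exact disjoint_filter_filter_not _ _ _
  have hWB : Disjoint W B := (Disjoint.mono hBA hWX hdAX).symm
  have hcW : #(W ∪ B) = κ := by
    rw [card_union_of_disjoint hWB, hBc]
    omega
  have hWA : W ∪ B ⊆ A := by
    apply union_subset
    · exact hWX.trans (filter_subset _ _)
    · exact hBA.trans (filter_subset _ _)
  apply sol_of_SG hWA hcW
  have hBR : ∑ x ∈ B \ R, x ∈ SG (B \ R) := by
    rw [mem_SG']
    exact ⟨B \ R, ∅, disjoint_empty_right _, union_empty _, by simp⟩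
  have hBRK : ∑ x ∈ B \ R, x ∈ K := by
    apply sum_mem
    intro x hx
    exact (mem_filter.1 (hBA (mem_sdiff.1 hx).1)).2
  have hneg : -(z + ∑ x ∈ B \ R, x) ∈ SG R := hcov _ (K.neg_mem (K.add_mem hzK hBRK))
  have hB : -z ∈ SG B := by
    have h1 := add_mem_SG (disjoint_sdiff (s := R) (t := B)) hneg hBR
    rw [union_sdiff_of_subset hRB] at h1
    have h2 : -(z + ∑ x ∈ B \ R, x) + ∑ x ∈ B \ R, x = -z := by abel
    rwa [h2] at h1
  have h1 := add_mem_SG hWB hz hB
  rwa [add_neg_cancel] at h1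

end Pool.Agent.Lib.MP_8ac08c_co.OD
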