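import Pool.Agent.Lib.MP_8ac08c_co.OD.Stm

/-!
# MP_8ac08c_co, project OD: piece `fin2` (finishing with an odd signed zero-sum modulo `L`)
-/

set_option autoImplicit false

open Finset

namespace Pool.Agent.Lib.MP_8ac08c_co.OD

/-- halving modulo `L` -/
private theorem fin2_half {G : Type} [AddCommGroup G] {κ : ℕ} (hodd : Odd κ)
    (hexp : ∀ x : G, κ • x = 0) (L : AddSubgroup G) (y : G) (hy : y + y ∈ L) : y ∈ L := by
  obtain ⟨r, hr⟩ := hodd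
  have h1 : y = κ • y - r • (y + y) := by
    rw [hr, add_nsmul, mul_nsmul, two_nsmul, one_nsmul]
    abel
  rw [h1, hexp, zero_sub]
  exact L.neg_mem (L.nsmul_mem hy r)

/-- the pigeonhole step -/
private theorem fin2_ph {G : Type} [AddCommGroup G] [Fintype G] [DecidableEq G] {κ : ℕ}
    (hodd : Odd κ) (hexp : ∀ x : G, κ • x = 0) (L : AddSubgroup G) (e : G) (m m' : ℕ)
    (hm : m' ≤ m) (hL : ∀ k : ℕ, 0 < k → k ≤ m → k • e ∉ L) (C : Finset G)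
    (hC : 2 * Nat.card (G ⧸ L) < (m' + 1) * 2 ^ #C) :
    ∃ D ⊆ C, 2 ≤ #D ∧ Even #D ∧ ∃ v ∈ SG D, ∃ k : ℤ, k.natAbs ≤ m' ∧ v + (2 * k) • e ∈ L := by
  classical
  have hfin : Fintype (G ⧸ L) := Fintype.ofFinite _
  obtain ⟨f, hf⟩ : ∃ f : ℕ × Finset G → (G ⧸ L) × Fin 2, ∀ p, f p =
      (((p.1 • (e + e) + ∑ x ∈ p.2, x : G) : G ⧸ L), ⟨#p.2 % 2, Nat.mod_lt _ two_pos⟩) :=
    ⟨_, fun _ => rfl⟩
  have hcard : #(univ : Finset ((G ⧸ L) × Fin 2)) < #(range (m' + 1) ×ˢ C.powerset) := by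
    rw [card_univ, Fintype.card_prod, Fintype.card_fin, card_product, card_range, card_powerset,
      ← Nat.card_eq_fintype_card]
    linarith
  obtain ⟨⟨k₁, S₁⟩, h₁, ⟨k₂, S₂⟩, h₂, hne, heq⟩ :=
    exists_ne_map_eq_of_card_lt_of_maps_to hcard (f := f) (fun _ _ => mem_univ _)
  rw [mem_product, mem_range, mem_powerset] at h₁ h₂
  rw [hf, hf, Prod.mk.injEq] at heq
  obtain ⟨heq1, heq2⟩ := heq
  have heq2 : #S₁ % 2 = #S₂ % 2 := by
    have := congrArg Fin.val heq2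
    exact this
  have heq1 : -(k₁ • (e + e) + ∑ x ∈ S₁, x) + (k₂ • (e + e) + ∑ x ∈ S₂, x) ∈ L :=
    QuotientAddGroup.eq.1 heq1
  have h₁ : k₁ < m' + 1 ∧ S₁ ⊆ C := h₁
  have h₂ : k₂ < m' + 1 ∧ S₂ ⊆ C := h₂
  -- the sets are different
  have key : ∀ a b : ℕ, a < b → b < m' + 1 → ¬ (b • (e + e) - a • (e + e) ∈ L) := by
    intro a b hab hb hmem
    apply hL (b - a) (by omega) (by omega)
    apply fin2_half hodd hexp
    have h3 : b = (b - a) + a := by omega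
    have h4 : b • (e + e) - a • (e + e) = (b - a) • e + (b - a) • e := by
      conv_lhs => rw [h3, add_nsmul, add_sub_cancel_right, nsmul_add]
    rw [← h4]
    exact hmem
  have hS : S₁ ≠ S₂ := by
    intro hS
    have hk : k₁ ≠ k₂ := by
      intro hk
      exact hne (by rw [hk, hS])
    rw [hS] at heq1
    have h3 : -(k₁ • (e + e) + ∑ x ∈ S₂, x) + (k₂ • (e + e) + ∑ x ∈ S₂, x) =
        k₂ • (e + e) - k₁ • (e + e) := by abel
    rw [h3] at heq1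
    rcases Nat.lt_or_gt_of_ne hk with h4 | h4
    · exact key _ _ h4 h₂.1 heq1
    · apply key _ _ h4 h₁.1
      have h5 := L.neg_mem heq1
      rwa [neg_sub] at h5
  have hdis : Disjoint (S₁ \ S₂) (S₂ \ S₁) := by
    rw [disjoint_left]
    intro x hx hx'
    exact (mem_sdiff.1 hx).2 (mem_sdiff.1 hx').1
  have hc1 : #(S₁ \ S₂) + #(S₁ ∩ S₂) = #S₁ := card_sdiff_add_card_inter _ _
  have hc2 : #(S₂ \ S₁) + #(S₂ ∩ S₁) = #S₂ := card_sdiff_add_card_inter _ _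
  rw [inter_comm S₂ S₁] at hc2
  have hcD : #((S₁ \ S₂) ∪ (S₂ \ S₁)) = #(S₁ \ S₂) + #(S₂ \ S₁) := card_union_of_disjoint hdis
  have heven : Even #((S₁ \ S₂) ∪ (S₂ \ S₁)) := by
    rw [hcD, Nat.even_iff]
    omega
  have hpos : 0 < #((S₁ \ S₂) ∪ (S₂ \ S₁)) := by
    rw [card_pos]
    by_contra hemp
    rw [not_nonempty_iff_eq_empty, union_eq_empty, sdiff_eq_empty_iff_subset,
      sdiff_eq_empty_iff_subset] at hemp
    exact hS (Subset.antisymm hemp.1 hemp.2)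
  refine ⟨(S₁ \ S₂) ∪ (S₂ \ S₁), ?_, ?_, heven, ∑ x ∈ S₁ \ S₂, x - ∑ x ∈ S₂ \ S₁, x,
    sub_mem_SG hdis, (k₁ : ℤ) - k₂, ?_, ?_⟩
  · exact union_subset (sdiff_subset.trans h₁.2) (sdiff_subset.trans h₂.2)
  · obtain ⟨r, hr⟩ := heven
    omega
  · have := h₁.1
    have := h₂.1
    omega
  · have h3 : ∑ x ∈ S₁ \ S₂, x + ∑ x ∈ S₁ ∩ S₂, x = ∑ x ∈ S₁, x := by
      rw [← sum_inter_add_sum_sdiff S₁ S₂, add_comm]
    have h4 : ∑ x ∈ S₂ \ S₁, x + ∑ x ∈ S₁ ∩ S₂, x = ∑ x ∈ S₂, x := by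
      rw [inter_comm, ← sum_inter_add_sum_sdiff S₂ S₁, add_comm]
    have h5 : ∑ x ∈ S₁ \ S₂, x - ∑ x ∈ S₂ \ S₁, x = ∑ x ∈ S₁, x - ∑ x ∈ S₂, x := by
      rw [← h3, ← h4]
      abel
    have h6 : (2 * ((k₁ : ℤ) - k₂)) • e = k₁ • (e + e) - k₂ • (e + e) := by
      rw [mul_sub, sub_smul, ← natCast_zsmul (e + e) k₁, ← natCast_zsmul (e + e) k₂, ← two_zsmul,
        smul_smul, smul_smul, mul_comm (k₁ : ℤ), mul_comm (k₂ : ℤ)]
    rw [h5, h6]
    have h7 := L.neg_mem heq1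
    have h8 : -(-(k₁ • (e + e) + ∑ x ∈ S₁, x) + (k₂ • (e + e) + ∑ x ∈ S₂, x)) =
        ∑ x ∈ S₁, x - ∑ x ∈ S₂, x + (k₁ • (e + e) - k₂ • (e + e)) := by abel
    rw [h8] at h7
    exact h7

/-- a state -/
private def fin2_St {G : Type} [AddCommGroup G] [DecidableEq G] (L : AddSubgroup G) (e : G)
    (X : Finset G) (w : ℕ) (J : ℕ) (W : Finset G) : Prop :=
  W ⊆ X ∧ #W % 2 = w % 2 ∧ ∃ z ∈ SG W, ∃ k : ℤ, k.natAbs ≤ J ∧ z + (2 * k) • e ∈ L

private theorem fin2_step {G : Type} [AddCommGroup G] [Fintype G] [DecidableEq G] {κ : ℕ}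
    (hodd : Odd κ) (hexp : ∀ x : G, κ • x = 0) (L : AddSubgroup G) (e : G) (m m' : ℕ)
    (hm : m' ≤ m) (hL : ∀ k : ℕ, 0 < k → k ≤ m → k • e ∉ L) (X : Finset G) (w J : ℕ)
    (W : Finset G) (hW : fin2_St L e X w J W)
    (hC : 2 * Nat.card (G ⧸ L) < (m' + 1) * 2 ^ #(X \ W)) :
    ∃ W', fin2_St L e X w (J + m') W' ∧ #W + 2 ≤ #W' ∧ #(X \ W') + 2 ≤ #(X \ W) := by
  obtain ⟨D, hD, hD2, hDe, v, hv, k', hk', hv'⟩ := fin2_ph hodd hexp L e m m' hm hL _ hC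
  obtain ⟨hWX, hpar, z, hz, k, hk, hz'⟩ := hW
  have hdis : Disjoint W D := by
    rw [disjoint_left]
    intro x hx hx'
    exact (mem_sdiff.1 (hD hx')).2 hx
  have hDX : D ⊆ X := hD.trans sdiff_subset
  have hcard : #(W ∪ D) = #W + #D := card_union_of_disjoint hdis
  have hsub : W ∪ D ⊆ X := union_subset hWX hDX
  refine ⟨W ∪ D, ⟨hsub, ?_, z + v, add_mem_SG hdis hz hv, k + k', ?_, ?_⟩, by omega, ?_⟩
  · obtain ⟨r, hr⟩ := hDe
    omega
  · have := Int.natAbs_add_le k k'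
    omega
  · have h1 : z + v + (2 * (k + k')) • e = (z + (2 * k) • e) + (v + (2 * k') • e) := by
      rw [mul_add, add_smul]
      abel
    rw [h1]
    exact L.add_mem hz' hv'
  · have h1 := card_sdiff_add_card_eq_card hWX
    have h2 := card_sdiff_add_card_eq_card hsub
    omega

private theorem fin2_iter {G : Type} [AddCommGroup G] [Fintype G] [DecidableEq G] {κ : ℕ}
    (hodd : Odd κ) (hexp : ∀ x : G, κ • x = 0) (L : AddSubgroup G) (e : G) (m : ℕ)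
    (hL : ∀ k : ℕ, 0 < k → k ≤ m → k • e ∉ L) (X : Finset G) (w N : ℕ)
    (W₁ : Finset G) (hW₁ : fin2_St L e X w 0 W₁) (hN : #(X \ W₁) ≤ N) (j : ℕ) :
    ∃ i ≤ j, ∃ W, fin2_St L e X w (i * m) W ∧
      ((m + 1) * 2 ^ #(X \ W) ≤ 2 * Nat.card (G ⧸ L) ∨ i = j ∧ #(X \ W) + 2 * j ≤ N) := by
  induction j with
  | zero =>
    refine ⟨0, le_rfl, W₁, ?_, Or.inr ⟨rfl, by omega⟩⟩
    rw [zero_mul]
    exact hW₁
  | succ j ih =>
    obtain ⟨i, hi, W, hW, h | ⟨hij, h⟩⟩ := ih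
    · exact ⟨i, by omega, W, hW, Or.inl h⟩
    · by_cases h1 : (m + 1) * 2 ^ #(X \ W) ≤ 2 * Nat.card (G ⧸ L)
      · exact ⟨i, by omega, W, hW, Or.inl h1⟩
      · obtain ⟨W', hW', -, h2⟩ := fin2_step hodd hexp L e m m le_rfl hL X w (i * m) W hW
          (not_le.1 h1)
        refine ⟨i + 1, by omega, W', ?_, Or.inr ⟨by omega, by omega⟩⟩
        rw [add_mul, one_mul]
        exact hW'

theorem p_fin2 : S_fin2 := by
  intro hsge G _ _ _ κ h t hH A R E W₀ L e m hA hRA hEA hWA hRE hRW hEW hLR hEe hκ hL hEven hEc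
    hOdd ⟨z₀, hz₀, hz₀L⟩
  have hκodd := hH.odd
  have hexp := hH.exp
  have hκpos : 0 < κ := hκodd.pos
  obtain ⟨X, hX⟩ : ∃ X : Finset G, X = A \ (R ∪ E) := ⟨_, rfl⟩
  have hREA : R ∪ E ⊆ A := union_subset hRA hEA
  have hcardX : #X + (#R + #E) = κ + t := by
    rw [hX, ← card_union_of_disjoint hRE, card_sdiff_add_card_eq_card hREA, hA]
  have hW₀X : W₀ ⊆ X := by
    intro x hx
    rw [hX, mem_sdiff, mem_union]
    refine ⟨hWA hx, ?_⟩
    rintro (h1 | h1)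
    · exact disjoint_left.1 hRW h1 hx
    · exact disjoint_left.1 hEW h1 hx
  have hSt0 : fin2_St L e X #W₀ 0 W₀ := by
    refine ⟨hW₀X, rfl, z₀, hz₀, 0, by simp, ?_⟩
    simpa using hz₀L
  classical
  -- a state of level zero of maximal size
  obtain ⟨W₁, hW₁, hmax⟩ := exists_max_image (X.powerset.filter fun W => fin2_St L e X #W₀ 0 W)
    card ⟨W₀, mem_filter.2 ⟨mem_powerset.2 hW₀X, hSt0⟩⟩
  have hW₁S : fin2_St L e X #W₀ 0 W₁ := (mem_filter.1 hW₁).2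
  have hb : 2 ^ #(X \ W₁) ≤ 2 * Nat.card (G ⧸ L) := by
    by_contra hcon
    obtain ⟨W', hW', hc, -⟩ := fin2_step hκodd hexp L e m 0 (Nat.zero_le _) hL X #W₀ 0 W₁ hW₁S
      (by rw [zero_add, one_mul]; exact not_le.1 hcon)
    have h1 := hmax W' (mem_filter.2 ⟨mem_powerset.2 hW'.1, hW'⟩)
    omega
  have hcardG : Nat.card G = Nat.card (G ⧸ L) * Nat.card L :=
    AddSubgroup.card_eq_card_quotient_mul_card_addSubgroup L
  have hcL : 0 < Nat.card L := Nat.card_pos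
  have hcQ : 0 < Nat.card (G ⧸ L) := Nat.card_pos
  have hQG : Nat.card (G ⧸ L) ≤ Nat.card G := by
    rw [hcardG]
    exact Nat.le_mul_of_pos_right _ hcL
  have hlog : #(X \ W₁) ≤ Nat.log 2 (Nat.card G) + 1 := by
    have h1 : 2 ^ #(X \ W₁) ≤ Nat.card G * 2 := by linarith
    have h2 := Nat.le_log_of_pow_le (b := 2) (by norm_num) h1
    rwa [Nat.log_mul_base (by norm_num) (by omega)] at h2
  obtain ⟨i, hi, W, hW, h1⟩ := fin2_iter hκodd hexp L e m hL X #W₀ _ W₁ hW₁S hlog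
    (Nat.log 2 (Nat.card G) + 2)
  have h2 : (m + 1) * 2 ^ #(X \ W) ≤ 2 * Nat.card (G ⧸ L) := by
    rcases h1 with h1 | ⟨-, h1⟩
    · exact h1
    · omega
  obtain ⟨hWX, hpar, z, hz, k, hk, hzL⟩ := hW
  -- the number of remaining elements
  have h3 : 2 ^ #(X \ W) ≤ 2 * h := by
    have h4 : (m + 1) * 2 ^ #(X \ W) * Nat.card L ≤ 2 * Nat.card (G ⧸ L) * Nat.card L :=
      Nat.mul_le_mul_right _ h2
    have h5 : 2 * Nat.card (G ⧸ L) * Nat.card L = 2 * h * κ := by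
      rw [mul_assoc, ← hcardG, hH.card]
      ring
    have h6 : κ * 2 ^ #(X \ W) ≤ (m + 1) * Nat.card L * 2 ^ #(X \ W) :=
      Nat.mul_le_mul_right _ hκ
    have h7 : (m + 1) * Nat.card L * 2 ^ #(X \ W) = (m + 1) * 2 ^ #(X \ W) * Nat.card L := by ring
    have h8 : 2 ^ #(X \ W) * κ ≤ 2 * h * κ := by
      calc 2 ^ #(X \ W) * κ = κ * 2 ^ #(X \ W) := by ring
        _ ≤ (m + 1) * 2 ^ #(X \ W) * Nat.card L := by rw [← h7]; exact h6
        _ ≤ 2 * h * κ := by rw [← h5]; exact h4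
    exact Nat.le_of_mul_le_mul_right h8 hκpos
  have h4 : #(X \ W) < t + 2 := by
    have h5 : 2 ^ #(X \ W) < 2 ^ (t + 2) := by
      have h6 := hH.lt
      have h7 : 2 ^ (t + 2) = 2 * 2 ^ (t + 1) := by ring
      omega
    exact (Nat.pow_lt_pow_iff_right (by norm_num)).1 h5
  have h5 : #(X \ W) + #W = #X := card_sdiff_add_card_eq_card hWX
  have hT : κ ≤ #R + #E + #W := by
    obtain ⟨a, ha⟩ := hκodd
    obtain ⟨b, hb⟩ := hEven
    obtain ⟨c, hc⟩ := hOdd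
    omega
  obtain ⟨x, hx⟩ : ∃ x, #R + #E + #W = κ + x := ⟨#R + #E + #W - κ, by omega⟩
  have hxt : x ≤ t := by omega
  have hxe : x % 2 = 0 := by
    obtain ⟨a, ha⟩ := hκodd
    obtain ⟨b, hb⟩ := hEven
    obtain ⟨c, hc⟩ := hOdd
    omega
  have hk2 : k.natAbs ≤ m * (Nat.log 2 (Nat.card G) + 2) := by
    refine hk.trans ?_
    rw [mul_comm m]
    exact Nat.mul_le_mul_right _ hi
  obtain ⟨E', hE', hE'c⟩ := exists_subset_card_eq (s := E) (n := #E - x) (Nat.sub_le _ _)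
  have hxE : x ≤ #E := by omega
  obtain ⟨v, hv, hvL⟩ := hsge G L e E' k (fun a ha => hEe a (hE' ha))
    (by
      rw [hE'c, Nat.even_iff]
      obtain ⟨b, hb⟩ := hEven
      omega)
    (by
      rw [hE'c]
      omega)
  have hzv : z + v ∈ L := by
    have h6 := L.add_mem hzL hvL
    have h7 : z + (2 * k) • e + (v - (2 * k) • e) = z + v := by abel
    rwa [h7] at h6
  have hr := hLR _ (L.neg_mem hzv)
  have hRE' : Disjoint R E' := disjoint_of_subset_right hE' hRE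
  have hREW : Disjoint (R ∪ E') W := by
    rw [disjoint_left]
    intro y hy hy'
    have h6 := hWX hy'
    rw [hX, mem_sdiff, mem_union] at h6
    rw [mem_union] at hy
    exact h6.2 (hy.imp_right fun h => hE' h)
  have h0 : (0 : G) ∈ SG ((R ∪ E') ∪ W) := by
    have h6 := add_mem_SG hREW (add_mem_SG hRE' hr hv) hz
    have h7 : -(z + v) + v + z = 0 := by abel
    rwa [h7] at h6
  refine sol_of_SG ?_ ?_ h0
  · refine union_subset (union_subset hRA (hE'.trans hEA)) (hWX.trans ?_)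
    rw [hX]
    exact sdiff_subset
  · rw [card_union_of_disjoint hREW, card_union_of_disjoint hRE', hE'c]
    omega

end Pool.Agent.Lib.MP_8ac08c_co.OD
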