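import Pool.Agent.Lib.MP_8ac08c_co.OD.Stm

/-!
# MP_8ac08c_co, project OD, piece `fou`: a large Fourier coefficient
-/

set_option autoImplicit false

open Finset

namespace Pool.Agent.Lib.MP_8ac08c_co.OD

theorem p_fou : S_fou := by
  intro hpar Γ _ _ _ S B δ β hδ hβ hS1 hS2 hB1 hbd
  classical
  have hN0 : (0 : ℝ) < (Fintype.card Γ : ℝ) := by exact_mod_cast Fintype.card_pos
  have hS2' : 2 * (#S : ℝ) ≤ (Fintype.card Γ : ℝ) := by exact_mod_cast hS2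
  obtain ⟨hp1, hp2⟩ := hpar Γ S
  obtain ⟨_, hq2⟩ := hpar Γ B
  generalize (Fintype.card Γ : ℝ) = N at *
  have hB0 : (0 : ℝ) < (#B : ℝ) := lt_of_lt_of_le (mul_pos hβ hN0) hB1
  have hf0 : ∀ χ : AddChar Γ ℂ, 0 ≤ ‖∑ s ∈ S, χ s‖ ^ 2 := fun χ => sq_nonneg _
  have hbn : ∀ χ : AddChar Γ ℂ, ‖∑ y ∈ B, χ y‖ ≤ (#B : ℝ) := by
    intro χ
    calc ‖∑ y ∈ B, χ y‖ ≤ ∑ y ∈ B, ‖χ y‖ := norm_sum_le _ _
      _ = ∑ y ∈ B, (1 : ℝ) := sum_congr rfl fun y _ => AddChar.norm_apply χ y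
      _ = (#B : ℝ) := by simp
  have hbre : ∀ χ : AddChar Γ ℂ, (∑ y ∈ B, χ y).re ≤ ‖∑ y ∈ B, χ y‖ :=
    fun χ => Complex.re_le_norm _
  have h1 : ∑ χ : AddChar Γ ℂ, ‖∑ s ∈ S, χ s‖ ^ 2 * ((#B : ℝ) - (∑ y ∈ B, χ y).re) ≤
      δ / 8 * N ^ 2 * (#B : ℝ) := by
    have e1 : ∑ y ∈ B, N * (bd S y : ℝ) =
        ∑ χ : AddChar Γ ℂ, ‖∑ s ∈ S, χ s‖ ^ 2 * ((#B : ℝ) - (∑ y ∈ B, χ y).re) := by
      rw [sum_congr rfl fun y _ => hp1 y, sum_comm]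
      refine sum_congr rfl fun χ _ => ?_
      rw [← mul_sum, sum_sub_distrib, Complex.re_sum]
      simp
    rw [← e1]
    calc ∑ y ∈ B, N * (bd S y : ℝ) ≤ ∑ y ∈ B, N * (δ / 8 * N) :=
          sum_le_sum fun y hy => mul_le_mul_of_nonneg_left (hbd y hy) hN0.le
      _ = δ / 8 * N ^ 2 * (#B : ℝ) := by
          rw [sum_const, nsmul_eq_mul]
          ring
  let T : Finset (AddChar Γ ℂ) := univ.filter fun χ => (#B : ℝ) / 2 ≤ ‖∑ y ∈ B, χ y‖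
  have hT : ∀ χ, χ ∈ T ↔ (#B : ℝ) / 2 ≤ ‖∑ y ∈ B, χ y‖ := fun χ => by simp [T]
  -- the part outside of `T`
  have h2 : ∑ χ ∈ Tᶜ, ‖∑ s ∈ S, χ s‖ ^ 2 ≤ δ / 4 * N ^ 2 := by
    have e1 : ∑ χ ∈ Tᶜ, ‖∑ s ∈ S, χ s‖ ^ 2 * ((#B : ℝ) / 2) ≤
        ∑ χ : AddChar Γ ℂ, ‖∑ s ∈ S, χ s‖ ^ 2 * ((#B : ℝ) - (∑ y ∈ B, χ y).re) := by
      calc ∑ χ ∈ Tᶜ, ‖∑ s ∈ S, χ s‖ ^ 2 * ((#B : ℝ) / 2) ≤
            ∑ χ ∈ Tᶜ, ‖∑ s ∈ S, χ s‖ ^ 2 * ((#B : ℝ) - (∑ y ∈ B, χ y).re) := by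
            refine sum_le_sum fun χ hχ => mul_le_mul_of_nonneg_left ?_ (hf0 χ)
            rw [mem_compl, hT, not_le] at hχ
            have := hbre χ
            linarith
        _ ≤ ∑ χ : AddChar Γ ℂ, ‖∑ s ∈ S, χ s‖ ^ 2 * ((#B : ℝ) - (∑ y ∈ B, χ y).re) := by
            refine sum_le_sum_of_subset_of_nonneg (subset_univ _) fun χ _ _ => ?_
            refine mul_nonneg (hf0 χ) ?_
            have := hbre χ
            have := hbn χ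
            linarith
    rw [← sum_mul] at e1
    have e2 := e1.trans h1
    have e3 : (∑ χ ∈ Tᶜ, ‖∑ s ∈ S, χ s‖ ^ 2) * (#B : ℝ) ≤ δ / 4 * N ^ 2 * (#B : ℝ) := by
      linarith
    exact le_of_mul_le_mul_right e3 hB0
  -- the size of `T`
  have h3 : (#T : ℝ) * β ≤ 4 := by
    have e1 : (#T : ℝ) * ((#B : ℝ) / 2) ^ 2 ≤ N * (#B : ℝ) := by
      rw [hq2]
      calc (#T : ℝ) * ((#B : ℝ) / 2) ^ 2 = ∑ χ ∈ T, ((#B : ℝ) / 2) ^ 2 := by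
            rw [sum_const, nsmul_eq_mul]
        _ ≤ ∑ χ ∈ T, ‖∑ y ∈ B, χ y‖ ^ 2 := by
            refine sum_le_sum fun χ hχ => ?_
            rw [hT] at hχ
            exact pow_le_pow_left₀ (by positivity) hχ 2
        _ ≤ ∑ χ : AddChar Γ ℂ, ‖∑ y ∈ B, χ y‖ ^ 2 :=
            sum_le_sum_of_subset_of_nonneg (subset_univ _) fun χ _ _ => sq_nonneg _
    have e2 : (#T : ℝ) * (#B : ℝ) ≤ 4 * N := by
      have e3 : ((#T : ℝ) * (#B : ℝ)) * (#B : ℝ) ≤ (4 * N) * (#B : ℝ) := by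
        nlinarith
      exact le_of_mul_le_mul_right e3 hB0
    have e4 : ((#T : ℝ) * β) * N ≤ 4 * N := by
      calc ((#T : ℝ) * β) * N = (#T : ℝ) * (β * N) := by ring
        _ ≤ (#T : ℝ) * (#B : ℝ) := mul_le_mul_of_nonneg_left hB1 (Nat.cast_nonneg _)
        _ ≤ 4 * N := e2
    exact le_of_mul_le_mul_right e4 hN0
  by_contra hcon
  have hall : ∀ χ : AddChar Γ ℂ, χ ≠ 1 → ‖∑ s ∈ S, χ s‖ ^ 2 < δ * β / 16 * N ^ 2 := by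
    intro χ hχ
    by_contra hc
    apply hcon
    refine ⟨χ, ?_, not_lt.1 hc⟩
    by_contra hx
    apply hχ
    ext x
    by_contra h
    exact hx ⟨x, by simpa using h⟩
  have h4 : ∑ χ ∈ T.erase 1, ‖∑ s ∈ S, χ s‖ ^ 2 < δ / 4 * N ^ 2 := by
    rcases (T.erase 1).eq_empty_or_nonempty with he | he
    · rw [he, sum_empty]
      positivity
    · calc ∑ χ ∈ T.erase 1, ‖∑ s ∈ S, χ s‖ ^ 2 < ∑ χ ∈ T.erase 1, δ * β / 16 * N ^ 2 :=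
            sum_lt_sum_of_nonempty he fun χ hχ => hall χ (ne_of_mem_erase hχ)
        _ = (#(T.erase 1) : ℝ) * (δ * β / 16 * N ^ 2) := by
            rw [sum_const, nsmul_eq_mul]
        _ ≤ (#T : ℝ) * (δ * β / 16 * N ^ 2) := by
            refine mul_le_mul_of_nonneg_right ?_ (by positivity)
            exact_mod_cast card_le_card (erase_subset _ _)
        _ = ((#T : ℝ) * β) * (δ / 16 * N ^ 2) := by ring
        _ ≤ 4 * (δ / 16 * N ^ 2) := mul_le_mul_of_nonneg_right h3 (by positivity)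
        _ = δ / 4 * N ^ 2 := by ring
  have h5 : ‖∑ s ∈ S, (1 : AddChar Γ ℂ) s‖ ^ 2 = (#S : ℝ) ^ 2 := by
    simp
  have h6 : ∑ χ ∈ T, ‖∑ s ∈ S, χ s‖ ^ 2 ≤
      ∑ χ ∈ T.erase 1, ‖∑ s ∈ S, χ s‖ ^ 2 + (#S : ℝ) ^ 2 := by
    by_cases h : (1 : AddChar Γ ℂ) ∈ T
    · rw [← h5, sum_erase_add _ _ h]
    · rw [erase_eq_of_notMem h]
      have : (0 : ℝ) ≤ (#S : ℝ) ^ 2 := sq_nonneg _
      linarith
  have h7 : N * (#S : ℝ) = ∑ χ ∈ T, ‖∑ s ∈ S, χ s‖ ^ 2 + ∑ χ ∈ Tᶜ, ‖∑ s ∈ S, χ s‖ ^ 2 := by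
    rw [hp2, sum_add_sum_compl]
  have h8 : 0 ≤ (#S : ℝ) * (N - 2 * (#S : ℝ)) :=
    mul_nonneg (Nat.cast_nonneg _) (by linarith)
  have h9 : δ * N * N ≤ (#S : ℝ) * N := mul_le_mul_of_nonneg_right hS1 hN0.le
  nlinarith

end Pool.Agent.Lib.MP_8ac08c_co.OD
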