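import Pool.Agent.Lib.MP_8ac08c_co.OD.Stm

/-!
# The inverse theorem (assembly)
-/

set_option autoImplicit false

open Finset

namespace Pool.Agent.Lib.MP_8ac08c_co.OD

private lemma inv_sdiff {Γ : Type} [DecidableEq Γ] (Z U : Finset Γ) : #(Z \ (Z \ U)) ≤ #U := by
  apply card_le_card
  intro x hx
  rw [mem_sdiff, mem_sdiff, not_and_or, not_not] at hx
  rcases hx.2 with h | h
  · exact absurd hx.1 h
  · exact h

private lemma inv_sdiff2 {Γ : Type} [DecidableEq Γ] (Z U Z' : Finset Γ) :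
    #(Z \ Z') ≤ #U + #((Z \ U) \ Z') := by
  refine (card_le_card ?_).trans (card_union_le U ((Z \ U) \ Z'))
  intro x hx
  rw [mem_sdiff] at hx
  rw [mem_union, mem_sdiff, mem_sdiff]
  by_cases h : x ∈ U
  · exact Or.inl h
  · exact Or.inr ⟨⟨hx.1, h⟩, hx.2⟩

theorem p_inv : S_inv := by
  intro hols hst hpar hfou hchr hlin hcc Γ _ _ _ κ _ Z hκ hΓ hκ100 hΓκ hexp hZ hrob
  have h1213 : (2 : ℕ) ^ 13 = 2 * 2 ^ 12 := by norm_num
  obtain ⟨U₁, hU1Z, hU1c, hU1d, hU1g⟩ := hst hols Γ κ Z hΓ hκ100 hΓκ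
    (fun Z' hZ' hc => hrob Z' hZ' (by rw [h1213] at hc; nlinarith)) (by omega)
  have hZ1 : #Z ≤ #(Z \ U₁) + #U₁ := by
    have := card_sdiff_add_card_inter Z U₁
    have h2 : #(Z ∩ U₁) ≤ #U₁ := card_le_card inter_subset_right
    omega
  by_cases h1 : 2 * #(SG U₁) ≤ Fintype.card Γ
  · right
    obtain ⟨φ, hφ, hφa⟩ := hcc hpar hfou hchr hlin Γ κ (Z \ U₁) (SG U₁) hκ hΓ hκ100 hΓκ hexp h1
      hU1d (hrob (Z \ U₁) sdiff_subset (by
        have := inv_sdiff Z U₁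
        omega)) (by omega) hU1g
    refine ⟨φ, hφ, Z \ U₁, sdiff_subset, ?_, hφa⟩
    have := inv_sdiff Z U₁
    omega
  · obtain ⟨U₂, hU2Z, hU2c, hU2d, hU2g⟩ := hst hols Γ κ (Z \ U₁) hΓ hκ100 hΓκ
      (fun Z' hZ' hc => hrob Z' (hZ'.trans sdiff_subset) (by
        have := inv_sdiff2 Z U₁ Z'
        omega)) (by omega)
    have hU2Z' : U₂ ⊆ Z := hU2Z.trans sdiff_subset
    have hZ2 : #(Z \ U₁) ≤ #((Z \ U₁) \ U₂) + #U₂ := by
      have := card_sdiff_add_card_inter (Z \ U₁) U₂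
      have h2 : #((Z \ U₁) ∩ U₂) ≤ #U₂ := card_le_card inter_subset_right
      omega
    have hcV : #(Z \ ((Z \ U₁) \ U₂)) ≤ #U₁ + #U₂ := by
      refine (inv_sdiff2 Z U₁ _).trans ?_
      have := inv_sdiff (Z \ U₁) U₂
      omega
    have hVZ : (Z \ U₁) \ U₂ ⊆ Z := sdiff_subset.trans sdiff_subset
    by_cases h2 : 2 * #(SG U₂) ≤ Fintype.card Γ
    · right
      obtain ⟨φ, hφ, hφa⟩ := hcc hpar hfou hchr hlin Γ κ ((Z \ U₁) \ U₂) (SG U₂) hκ hΓ hκ100 hΓκ
        hexp h2 hU2d (hrob _ hVZ (by omega)) (by omega) hU2g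
      exact ⟨φ, hφ, (Z \ U₁) \ U₂, hVZ, by omega, hφa⟩
    · left
      have hdis : Disjoint U₁ U₂ := by
        rw [disjoint_left]
        intro x hx hx2
        exact (mem_sdiff.mp (hU2Z hx2)).2 hx
      refine ⟨U₁ ∪ U₂, union_subset hU1Z hU2Z', ?_, ?_⟩
      · rw [card_union_of_disjoint hdis]
        omega
      · intro z
        have hc : #((SG U₂).image fun b => z - b) = #(SG U₂) :=
          card_image_of_injective _ sub_right_injective
        have hne : (SG U₁ ∩ ((SG U₂).image fun b => z - b)).Nonempty := by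
          apply inter_nonempty_of_card_lt_card_add_card (subset_univ _) (subset_univ _)
          rw [hc, card_univ]
          omega
        obtain ⟨x, hx⟩ := hne
        rw [mem_inter, mem_image] at hx
        obtain ⟨hx1, b, hb, hbx⟩ := hx
        rw [mem_SG_union hdis]
        exact ⟨x, hx1, b, hb, by rw [← hbx]; abel⟩

end Pool.Agent.Lib.MP_8ac08c_co.OD
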