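import Pool.Agent.Lib.MP_8ac08c_co.OD.Stm

set_option autoImplicit false

open Finset

namespace Pool.Agent.Lib.MP_8ac08c_co.OD

private theorem ivh_map_sdiff {α β : Type} [DecidableEq α] [DecidableEq β] (e : α ↪ β)
    (s t : Finset α) : (s \ t).map e = s.map e \ t.map e := by
  ext x
  simp only [mem_map, mem_sdiff]
  constructor
  · rintro ⟨a, ⟨h1, h2⟩, rfl⟩
    refine ⟨⟨a, h1, rfl⟩, ?_⟩
    rintro ⟨b, hb, hab⟩
    exact h2 (e.injective hab ▸ hb)
  · rintro ⟨⟨a, h1, rfl⟩, h2⟩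
    exact ⟨a, ⟨h1, fun h => h2 ⟨a, h, rfl⟩⟩, rfl⟩

private theorem ivh_sum {G : Type} [AddCommGroup G] (H : AddSubgroup G) (e : H ↪ G)
    (he : ∀ x : H, e x = x) (P : Finset H) : ∑ x ∈ P.map e, x = ((∑ x ∈ P, x : H) : G) := by
  rw [sum_map]
  simp only [he]
  rw [AddSubgroup.val_finsetSum]

private theorem ivh_SG {G : Type} [AddCommGroup G] [DecidableEq G] (H : AddSubgroup G)
    (e : H ↪ G) (he : ∀ x : H, e x = x) (R : Finset H) (z : H) (hz : z ∈ SG R) :
    (z : G) ∈ SG (R.map e) := by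
  rw [mem_SG'] at hz ⊢
  obtain ⟨P, N, hd, hu, h⟩ := hz
  refine ⟨P.map e, N.map e, (disjoint_map e).2 hd, ?_, ?_⟩
  · rw [← map_union, hu]
  · rw [ivh_sum H e he, ivh_sum H e he, ← h]
    rfl

private theorem ivh_clos {G : Type} [AddCommGroup G] (H : AddSubgroup G)
    (e : H ↪ G) (he : ∀ x : H, e x = x) (Z : Finset H)
    (h : AddSubgroup.closure ((Z.map e : Finset G) : Set G) = H) :
    AddSubgroup.closure (Z : Set H) = ⊤ := by
  apply AddSubgroup.map_injective H.subtype_injective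
  rw [AddMonoidHom.map_closure]
  have h1 : (H.subtype '' (Z : Set H)) = ((Z.map e : Finset G) : Set G) := by
    ext x
    simp only [coe_map, Set.mem_image, mem_coe, he, AddSubgroup.coe_subtype]
  rw [h1, h]
  ext x
  simp

private theorem ivh_card {κ : ℕ} [NeZero κ] {Γ : Type} [AddCommGroup Γ] [Finite Γ]
    (φ : Γ →+ ZMod κ) (a : Γ) (ha : φ a ≠ 0) (hw : (φ a).valMinAbs.natAbs ≤ 2 ^ 77)
    (hc : Nat.card Γ ≤ κ ^ 2) : Nat.card φ.ker ≤ 2 ^ 77 * κ := by
  have hκ : 0 < κ := Nat.pos_of_ne_zero (NeZero.ne κ)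
  have h1 : Nat.card φ.ker * Nat.card φ.range = Nat.card Γ := by
    rw [← AddSubgroup.card_mul_index φ.ker, AddSubgroup.index_ker]
  have h2 : addOrderOf (φ a) ≤ Nat.card φ.range := by
    rw [← Nat.card_zmultiples]
    have : AddSubgroup.zmultiples (φ a) ≤ φ.range := by
      rw [AddSubgroup.zmultiples_le]
      exact ⟨a, rfl⟩
    exact Nat.le_of_dvd Nat.card_pos (AddSubgroup.card_dvd_of_le this)
  have h3 : κ ≤ addOrderOf (φ a) * (φ a).valMinAbs.natAbs := by
    have h4 : ((addOrderOf (φ a) * (φ a).valMinAbs : ℤ) : ZMod κ) = 0 := by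
      push_cast
      rw [← nsmul_eq_mul, addOrderOf_nsmul_eq_zero]
    rw [ZMod.intCast_zmod_eq_zero_iff_dvd] at h4
    have h5 : (addOrderOf (φ a) * (φ a).valMinAbs : ℤ) ≠ 0 := by
      apply mul_ne_zero
      · exact_mod_cast (addOrderOf_pos (φ a)).ne'
      · rw [Ne, ZMod.valMinAbs_eq_zero]
        exact ha
    have h6 := Int.natAbs_le_of_dvd_ne_zero h4 h5
    rw [Int.natAbs_mul, Int.natAbs_natCast, Int.natAbs_natCast] at h6
    exact h6
  have h7 : κ ≤ Nat.card φ.range * 2 ^ 77 := h3.trans (Nat.mul_le_mul h2 hw)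
  have h8 : Nat.card φ.ker * κ ≤ (2 ^ 77 * κ) * κ := by
    calc Nat.card φ.ker * κ ≤ Nat.card φ.ker * (Nat.card φ.range * 2 ^ 77) :=
          Nat.mul_le_mul_left _ h7
      _ = Nat.card Γ * 2 ^ 77 := by rw [← h1]; ring
      _ ≤ κ ^ 2 * 2 ^ 77 := Nat.mul_le_mul_right _ hc
      _ = (2 ^ 77 * κ) * κ := by ring
  exact Nat.le_of_mul_le_mul_right h8 hκ

theorem p_ivh : S_ivh := by
  intro hinv G _ _ _ κ H Z hκ hG hκ2 hH hexp hZ hZH hrob
  classical
  have : NeZero κ := ⟨hκ.pos.ne'⟩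
  have : Fintype H := Fintype.ofFinite H
  set e : H ↪ G := ⟨Subtype.val, Subtype.val_injective⟩ with he'
  have he : ∀ x : H, e x = x := fun _ => rfl
  set Z' : Finset H := Z.preimage e e.injective.injOn with hZ'
  have hmem : ∀ x : H, x ∈ Z' ↔ (x : G) ∈ Z := fun x => mem_preimage
  have hmap : Z'.map e = Z := by
    ext x
    rw [mem_map]
    constructor
    · rintro ⟨y, hy, rfl⟩
      exact (hmem y).1 hy
    · intro hx
      exact ⟨⟨x, hZH x hx⟩, (hmem _).2 hx, rfl⟩
  have hcard : #Z' = #Z := by rw [← hmap, card_map]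
  have hsub : ∀ W ⊆ Z', W.map e ⊆ Z := by
    intro W hW
    rw [← hmap]
    exact map_subset_map.2 hW
  have hsd : ∀ W : Finset H, #(Z \ W.map e) = #(Z' \ W) := by
    intro W
    rw [← card_map e, ivh_map_sdiff, hmap]
  have hrob' : ∀ W ⊆ Z', 2 ^ 12 * #(Z' \ W) ≤ κ → AddSubgroup.closure (W : Set H) = ⊤ := by
    intro W hW hc
    apply ivh_clos H e he
    apply hrob _ (hsub W hW)
    rw [hsd]
    exact hc
  have hcH : Fintype.card H = Nat.card H := (Nat.card_eq_fintype_card).symm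
  have hodd : Odd (Fintype.card H) := by
    rw [hcH]
    exact Odd.of_dvd_nat hG (AddSubgroup.card_addSubgroup_dvd_card H)
  have hexp' : ∀ x : H, κ • x = 0 := by
    intro x
    apply Subtype.ext
    have := hexp x
    simpa using this
  rcases hinv H κ Z' hκ hodd hκ2 (by rw [hcH]; exact hH) hexp' (by rw [hcard]; exact hZ) hrob' with
    ⟨R, hR, hRc, hRz⟩ | ⟨φ, hφ, V, hV, hVc, hVw⟩
  · left
    refine ⟨R.map e, hsub R hR, by rw [card_map]; exact hRc, ?_⟩
    intro z hz
    exact ivh_SG H e he R ⟨z, hz⟩ (hRz _)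
  · right
    set w : G → ℤ := fun a => if h : a ∈ H then (φ ⟨a, h⟩).valMinAbs else 0 with hw
    have hwe : ∀ x : H, w x = (φ x).valMinAbs := by
      intro x
      rw [hw]
      simp only
      rw [dif_pos x.2]
    refine ⟨V.map e, φ.ker.map H.subtype, w, hsub V hV, by rw [hsd]; exact hVc, ?_, ?_, ?_⟩
    · intro a ha
      rw [mem_map] at ha
      obtain ⟨x, hx, rfl⟩ := ha
      rw [he, hwe]
      exact hVw x hx
    · intro n hn
      rw [sum_map] at hn ⊢
      simp only [he, hwe] at hn ⊢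
      rw [AddSubgroup.mem_map]
      refine ⟨∑ x ∈ V, n x • x, ?_, ?_⟩
      · rw [AddMonoidHom.mem_ker, map_sum]
        have h1 : ((∑ x ∈ V, n x * (φ x).valMinAbs : ℤ) : ZMod κ) = 0 := by rw [hn]; simp
        rw [← h1, Int.cast_sum]
        apply sum_congr rfl
        intro x _
        rw [map_zsmul, Int.cast_mul, ZMod.coe_valMinAbs, zsmul_eq_mul]
      · rw [map_sum]
        apply sum_congr rfl
        intro x _
        simp
    · have h1 : Nat.card (φ.ker.map H.subtype) = Nat.card φ.ker :=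
        (Nat.card_congr (AddSubgroup.equivMapOfInjective _ _ H.subtype_injective).toEquiv).symm
      rw [h1]
      have hcl := hrob' V hV hVc
      obtain ⟨a, haV, ha⟩ : ∃ a ∈ V, φ a ≠ 0 := by
        by_contra hcon
        push Not at hcon
        apply hφ
        have h2 : AddSubgroup.closure (V : Set H) ≤ φ.ker := by
          rw [AddSubgroup.closure_le]
          intro x hx
          exact hcon x hx
        rw [hcl] at h2
        ext x
        exact h2 (AddSubgroup.mem_top x)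
      exact ivh_card φ a ha (hVw a haV) hH

end Pool.Agent.Lib.MP_8ac08c_co.OD
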