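import Pool.Agent.Lib.MP_8ac08c_co.OD.Stm

/-!
# MP_8ac08c_co, project OD: sums of the odd representatives J
-/

set_option autoImplicit false

open Finset

namespace Pool.Agent.Lib.MP_8ac08c_co.OD

private lemma jsm_odd {κ : ℕ} [NeZero κ] (hκ : Odd κ) (v : ZMod κ) : Odd (J v) := by
  unfold J
  have hlt : v.val < κ := ZMod.val_lt v
  split_ifs with h
  · exact Nat.odd_iff.2 h
  · have h1 : v.val % 2 = 0 := by omega
    have h2 := Nat.odd_iff.1 hκ
    apply Nat.odd_iff.2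
    omega

private lemma jsm_le {κ : ℕ} [NeZero κ] (v : ZMod κ) : J v ≤ κ := by
  unfold J
  have hlt : v.val < κ := ZMod.val_lt v
  split_ifs with h
  · exact hlt.le
  · exact Nat.sub_le _ _

private lemma jsm_cast1 {κ : ℕ} [NeZero κ] (v : ZMod κ) (h : v.val % 2 = 1) :
    ((J v : ℕ) : ZMod κ) = v := by
  unfold J
  rw [if_pos h, ZMod.natCast_zmod_val]

private lemma jsm_cast2 {κ : ℕ} [NeZero κ] (v : ZMod κ) (h : ¬ v.val % 2 = 1) :
    ((J v : ℕ) : ZMod κ) = -v := by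
  unfold J
  rw [if_neg h, Nat.cast_sub (ZMod.val_lt v).le, ZMod.natCast_self, ZMod.natCast_zmod_val, zero_sub]

private lemma jsm_SG {G : Type} [AddCommGroup G] [DecidableEq G] {κ : ℕ} [NeZero κ]
    (π : G →+ ZMod κ) (W : Finset G) :
    ∃ z ∈ SG W, π z = ((∑ a ∈ W, J (π a) : ℕ) : ZMod κ) := by
  classical
  let P : Finset G := W.filter fun a => (π a).val % 2 = 1
  let N : Finset G := W.filter fun a => ¬ (π a).val % 2 = 1
  have hd : Disjoint P N := disjoint_filter_filter_not _ _ _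
  have hu : P ∪ N = W := filter_union_filter_not_eq _ _
  refine ⟨∑ x ∈ P, x - ∑ x ∈ N, x, mem_SG'.2 ⟨P, N, hd, hu, rfl⟩, ?_⟩
  rw [map_sub, map_sum, map_sum, Nat.cast_sum]
  have h1 : ∑ a ∈ W, ((J (π a) : ℕ) : ZMod κ) =
      ∑ a ∈ P, ((J (π a) : ℕ) : ZMod κ) + ∑ a ∈ N, ((J (π a) : ℕ) : ZMod κ) := by
    rw [← sum_union hd, hu]
  rw [h1, sum_congr rfl (fun a ha => jsm_cast1 (π a) (mem_filter.1 ha).2),
    sum_congr (g := fun a => -π a) rfl (fun a ha => jsm_cast2 (π a) (mem_filter.1 ha).2),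
    sum_neg_distrib, sub_eq_add_neg]

private lemma jsm_fin {G : Type} [AddCommGroup G] [DecidableEq G] {κ : ℕ} [NeZero κ]
    (π : G →+ ZMod κ) (X W : Finset G) (hκ : Odd κ) (hW : W ⊆ X) (hs : ∑ a ∈ W, J (π a) = κ) :
    ∃ W ⊆ X, Odd #W ∧ ∃ z ∈ SG W, π z = 0 := by
  classical
  refine ⟨W, hW, ?_, ?_⟩
  · have h1 : Odd (∑ a ∈ W, J (π a)) := by rw [hs]; exact hκ
    rw [Finset.odd_sum_iff_odd_card_odd] at h1
    have h2 : W.filter (fun a => Odd (J (π a))) = W :=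
      filter_true_of_mem fun a _ => jsm_odd hκ _
    rwa [h2] at h1
  · obtain ⟨z, hz, hz2⟩ := jsm_SG π W
    refine ⟨z, hz, ?_⟩
    rw [hz2, hs, ZMod.natCast_self]

private lemma jsm_one {G : Type} [AddCommGroup G] [DecidableEq G] {κ : ℕ} [NeZero κ]
    (π : G →+ ZMod κ) (X T : Finset G) (hT : T ⊆ X.filter fun a => J (π a) = 1) :
    ∑ a ∈ T, J (π a) = #T := by
  rw [card_eq_sum_ones]
  exact sum_congr rfl fun a ha => (mem_filter.1 (hT ha)).2

theorem p_jsm : S_jsm := by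
  classical
  intro G _ _ κ _ π X hκ hu hX
  let X1 : Finset G := X.filter fun a => J (π a) = 1
  let X2 : Finset G := X.filter fun a => ¬ J (π a) = 1
  have hX1 : X1 ⊆ X := filter_subset _ _
  have hX2 : X2 ⊆ X := filter_subset _ _
  have hd : Disjoint X1 X2 := disjoint_filter_filter_not _ _ _
  have huX : X1 ∪ X2 = X := filter_union_filter_not_eq _ _
  have hu' : κ ≤ 2 * #X1 := hu
  -- completing a part `Y` of `X2`
  have key : ∀ Y ⊆ X2, ∑ a ∈ Y, J (π a) ≤ κ → κ ≤ ∑ a ∈ Y, J (π a) + #X1 →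
      ∃ W ⊆ X, Odd #W ∧ ∃ z ∈ SG W, π z = 0 := by
    intro Y hY h1 h2
    obtain ⟨T, hT, hT2⟩ := exists_subset_card_eq (s := X1) (n := κ - ∑ a ∈ Y, J (π a)) (by omega)
    apply jsm_fin π X (Y ∪ T) hκ (union_subset (hY.trans hX2) (hT.trans hX1))
    have hd2 : Disjoint Y T := (disjoint_of_subset_left hT (disjoint_of_subset_right hY hd)).symm
    rw [sum_union hd2, jsm_one π X T hT, hT2]
    omega
  by_cases hA : ∃ a ∈ X2, κ ≤ J (π a) + #X1
  · obtain ⟨a, ha, ha2⟩ := hA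
    apply key {a} (singleton_subset_iff.2 ha)
    · rw [sum_singleton]
      exact jsm_le _
    · rw [sum_singleton]
      exact ha2
  · have hB : ∀ a ∈ X2, J (π a) + #X1 < κ := fun a ha => by
      by_contra h
      exact hA ⟨a, ha, not_lt.1 h⟩
    have hne : (X2.powerset.filter fun Y => ∑ a ∈ Y, J (π a) ≤ κ).Nonempty :=
      ⟨∅, mem_filter.2 ⟨empty_mem_powerset _, by simp⟩⟩
    obtain ⟨Y, hY, hmax⟩ := exists_max_image _ (fun Y : Finset G => #Y) hne
    rw [mem_filter, mem_powerset] at hY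
    obtain ⟨hY1, hY2⟩ := hY
    by_cases hC : κ ≤ ∑ a ∈ Y, J (π a) + #X1
    · exact key Y hY1 hY2 hC
    · exfalso
      have hlt : ∑ a ∈ Y, J (π a) + #X1 < κ := not_le.1 hC
      have hsum : ∑ a ∈ X, J (π a) = #X1 + ∑ a ∈ X2, J (π a) := by
        rw [← huX, sum_union hd, jsm_one π X X1 (Subset.refl _)]
      have hneq : Y ≠ X2 := by
        intro h
        rw [h] at hlt
        omega
      obtain ⟨a, ha, ha2⟩ := exists_of_ssubset (Finset.ssubset_iff_subset_ne.2 ⟨hY1, hneq⟩)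
      have h3 : ¬ ∑ b ∈ insert a Y, J (π b) ≤ κ := by
        intro h4
        have h5 := hmax (insert a Y) (mem_filter.2 ⟨mem_powerset.2
          (insert_subset_iff.2 ⟨ha, hY1⟩), h4⟩)
        rw [card_insert_of_notMem ha2] at h5
        omega
      rw [sum_insert ha2] at h3
      have h6 := hB a ha
      omega

end Pool.Agent.Lib.MP_8ac08c_co.OD
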