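import Pool.Agent.Lib.MP_8ac08c_co.OD.Stm

/-!
# MP_8ac08c_co, project OD, piece odd: an odd signed zero-sum modulo `L`
-/

set_option autoImplicit false

open Finset

namespace Pool.Agent.Lib.MP_8ac08c_co.OD

/-- a sign with `odd_sg t * t = |t|` -/
private def odd_sg (t : ℤ) : ℤ := if t < 0 then -1 else 1

private theorem odd_sg_pm (t : ℤ) : odd_sg t = 1 ∨ odd_sg t = -1 := by
  unfold odd_sg
  split_ifs
  · exact Or.inr rfl
  · exact Or.inl rfl

private theorem odd_sg_mul (t : ℤ) : odd_sg t * t = (t.natAbs : ℤ) := by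
  unfold odd_sg
  split_ifs with h
  · omega
  · omega

private theorem odd_sg_natAbs (t : ℤ) : (t.natAbs : ℤ) * odd_sg t = t := by
  unfold odd_sg
  split_ifs with h
  · omega
  · omega

private theorem odd_key {G : Type} [AddCommGroup G] [DecidableEq G] {V : Finset G}
    {L : AddSubgroup G} {g : G} {y : G → ℤ} {K θ : ℕ} (hL : Lin V L g y K θ) {W : Finset G}
    (hW : W ⊆ V) (σ : G → ℤ) (hσ : ∀ x ∈ W, σ x = 1 ∨ σ x = -1)
    (h : (∑ x ∈ W, σ x * y x) • g ∈ L) : ∃ z ∈ SG W, z ∈ L := by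
  refine ⟨∑ x ∈ W, σ x • x, ?_, ?_⟩
  · rw [mem_SG]
    refine ⟨W.filter (fun x => σ x = 1), filter_subset _ _, ?_⟩
    rw [sum_filter, ← sum_add_distrib, ← sum_sub_distrib]
    refine sum_congr rfl fun x hx => ?_
    rcases hσ x hx with h1 | h1
    · rw [if_pos h1, h1]
      simp
    · rw [if_neg (by rw [h1]; decide), h1]
      simp
  · have h1 : ∑ x ∈ W, σ x • x = ∑ x ∈ W, σ x • (x - y x • g) + (∑ x ∈ W, σ x * y x) • g := by
      rw [sum_smul, ← sum_add_distrib]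
      refine sum_congr rfl fun x _ => ?_
      rw [smul_sub, mul_smul]
      abel
    rw [h1]
    exact L.add_mem (L.sum_mem fun x hx => L.zsmul_mem (hL.sub x (hW hx)) _) h

private theorem odd_par {G : Type} (W : Finset G) (f : G → ℤ) (h : ∀ x ∈ W, Odd (f x))
    (hs : Odd (∑ x ∈ W, f x)) : Odd #W := by
  classical
  have h1 : Even (∑ x ∈ W, f x - (#W : ℤ)) := by
    have h2 : ∑ x ∈ W, f x - (#W : ℤ) = ∑ x ∈ W, (f x - 1) := by
      rw [sum_sub_distrib]
      simp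
    rw [h2]
    apply Finset.even_sum
    intro x hx
    obtain ⟨k, hk⟩ := h x hx
    exact ⟨k, by rw [hk]; ring⟩
  have h3 : Odd ((#W : ℕ) : ℤ) := by
    have h4 : ((#W : ℕ) : ℤ) = ∑ x ∈ W, f x - (∑ x ∈ W, f x - (#W : ℤ)) := by ring
    rw [h4]
    exact hs.sub_even h1
  exact_mod_cast h3

private theorem odd_one {G : Type} [AddCommGroup G] [DecidableEq G] {V : Finset G}
    {L : AddSubgroup G} {g : G} {y : G → ℤ} {K θ : ℕ} (hK : 0 < K) (hL : Lin V L g y K θ)
    (hθ : 2 * K ^ 3 ≤ θ) {a : G} (ha : a ∈ V) (hev : Even (y a)) :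
    ∃ W ⊆ V, Odd #W ∧ ∃ z ∈ SG W, z ∈ L := by
  have hb : ∃ b ∈ V, ¬ 2 ∣ (y b).natAbs := by
    by_contra hcon
    push Not at hcon
    have := hL.gcd 2 hcon
    omega
  obtain ⟨b, hbV, hb⟩ := hb
  have hi : 2 ∣ (y a).natAbs := by
    obtain ⟨k, hk⟩ := hev
    omega
  have hK3 : K ≤ 2 * K ^ 3 := by
    have : 1 ≤ K ^ 2 := Nat.one_le_pow _ _ hK
    nlinarith
  obtain ⟨P₁, hP₁, hc₁⟩ := exists_subset_card_eq
    (((hL.wt b hbV).trans (hK3.trans hθ)).trans (hL.cls a ha))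
  obtain ⟨P₂, hP₂, hc₂⟩ := exists_subset_card_eq
    (((hL.wt a ha).trans (hK3.trans hθ)).trans (hL.cls b hbV))
  have hd : Disjoint P₁ P₂ := by
    rw [disjoint_left]
    intro x h1 h2
    have h3 := (mem_filter.1 (hP₁ h1)).2
    have h4 := (mem_filter.1 (hP₂ h2)).2
    omega
  refine ⟨P₁ ∪ P₂, union_subset (hP₁.trans (filter_subset _ _)) (hP₂.trans (filter_subset _ _)),
    ?_, ?_⟩
  · rw [card_union_of_disjoint hd, hc₁, hc₂, Nat.odd_iff]
    omega
  · refine odd_key hL (union_subset (hP₁.trans (filter_subset _ _))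
      (hP₂.trans (filter_subset _ _))) (fun x => if x ∈ P₁ then odd_sg (y x) else -odd_sg (y x))
      ?_ ?_
    · intro x _
      split_ifs
      · exact odd_sg_pm _
      · rcases odd_sg_pm (y x) with h | h
        · right; rw [h]
        · left; rw [h]; rfl
    · have h1 : ∑ x ∈ P₁ ∪ P₂, (if x ∈ P₁ then odd_sg (y x) else -odd_sg (y x)) * y x = 0 := by
        rw [sum_union hd]
        have h2 : ∑ x ∈ P₁, (if x ∈ P₁ then odd_sg (y x) else -odd_sg (y x)) * y x =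
            ∑ x ∈ P₁, ((y a).natAbs : ℤ) := by
          refine sum_congr rfl fun x hx => ?_
          rw [if_pos hx, odd_sg_mul, (mem_filter.1 (hP₁ hx)).2]
        have h3 : ∑ x ∈ P₂, (if x ∈ P₁ then odd_sg (y x) else -odd_sg (y x)) * y x =
            ∑ x ∈ P₂, (-((y b).natAbs : ℤ)) := by
          refine sum_congr rfl fun x hx => ?_
          rw [if_neg (disjoint_right.1 hd hx), neg_mul, odd_sg_mul, (mem_filter.1 (hP₂ hx)).2]
        rw [h2, h3, sum_const, sum_const, hc₁, hc₂]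
        simp only [nsmul_eq_mul]
        ring
      rw [h1, zero_smul]
      exact L.zero_mem

private theorem odd_max {G : Type} [DecidableEq G] (E : Finset G) (f : G → ℕ) (K n : ℕ)
    (hf : ∀ x ∈ E, f x ≤ K) (hE : n ≤ ∑ x ∈ E, f x) :
    ∃ E' ⊆ E, ∑ x ∈ E', f x ≤ n ∧ n ≤ ∑ x ∈ E', f x + K := by
  induction E using Finset.induction_on generalizing n with
  | empty =>
    refine ⟨∅, Subset.refl _, by simp, ?_⟩
    simpa using le_trans hE (by simp)
  | insert a s ha ih =>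
    by_cases h : n ≤ ∑ x ∈ s, f x
    · obtain ⟨E', h1, h2, h3⟩ := ih n (fun x hx => hf x (mem_insert_of_mem hx)) h
      exact ⟨E', h1.trans (subset_insert _ _), h2, h3⟩
    · refine ⟨s, subset_insert _ _, by omega, ?_⟩
      rw [sum_insert ha] at hE
      have := hf a (mem_insert_self _ _)
      omega

theorem p_odd : S_odd := by
  intro hbez G _ _ V L g y K θ n hK hL hθ hn hng hor
  by_cases hev : ∃ a ∈ V, Even (y a)
  · obtain ⟨a, ha, h⟩ := hev
    exact odd_one hK hL hθ ha h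
  have hodd : ∀ a ∈ V, Odd (y a) := by
    intro a ha
    rw [← Int.not_even_iff_odd]
    intro h
    exact hev ⟨a, ha, h⟩
  have hsum := hor.resolve_left hev
  set I : Finset ℕ := V.image (fun a => (y a).natAbs) with hI
  have hIle : ∀ i ∈ I, i ≤ K := by
    intro i hi
    obtain ⟨a, ha, rfl⟩ := mem_image.1 hi
    exact hL.wt a ha
  have hIcard : #I ≤ K := by
    have h1 : I ⊆ Icc 1 K := by
      intro i hi
      rw [mem_Icc]
      refine ⟨?_, hIle i hi⟩
      obtain ⟨a, ha, rfl⟩ := mem_image.1 hi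
      obtain ⟨k, hk⟩ := hodd a ha
      omega
    have := card_le_card h1
    rwa [Nat.card_Icc, Nat.add_sub_cancel] at this
  have hQex : ∀ i : ℕ, ∃ Q : Finset G, Q ⊆ V.filter (fun x => (y x).natAbs = i) ∧
      (i ∈ I → #Q = 2 * K ^ 3) ∧ #Q ≤ 2 * K ^ 3 := by
    intro i
    by_cases hi : i ∈ I
    · obtain ⟨a, ha, rfl⟩ := mem_image.1 hi
      obtain ⟨Q, hQ, hc⟩ := exists_subset_card_eq (hθ.trans (hL.cls a ha))
      exact ⟨Q, hQ, fun _ => hc, hc.le⟩
    · exact ⟨∅, empty_subset _, fun h => absurd h hi, by simp⟩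
  choose Q hQ1 hQ2 hQ3 using hQex
  set QQ : Finset G := I.biUnion Q with hQQ
  have hQV : QQ ⊆ V := by
    intro x hx
    obtain ⟨i, _, hx⟩ := mem_biUnion.1 hx
    exact (mem_filter.1 (hQ1 i hx)).1
  have hQcard : #QQ ≤ K * (2 * K ^ 3) := by
    calc #QQ ≤ ∑ i ∈ I, #(Q i) := card_biUnion_le
      _ ≤ ∑ i ∈ I, 2 * K ^ 3 := sum_le_sum fun i _ => hQ3 i
      _ = #I * (2 * K ^ 3) := by rw [sum_const, smul_eq_mul]
      _ ≤ K * (2 * K ^ 3) := Nat.mul_le_mul_right _ hIcard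
  have hQsum : ∑ x ∈ QQ, (y x).natAbs ≤ 2 * K ^ 5 := by
    calc ∑ x ∈ QQ, (y x).natAbs ≤ ∑ x ∈ QQ, K := sum_le_sum fun x hx => hL.wt x (hQV hx)
      _ = #QQ * K := by rw [sum_const, smul_eq_mul]
      _ ≤ K * (2 * K ^ 3) * K := Nat.mul_le_mul_right _ hQcard
      _ = 2 * K ^ 5 := by ring
  have hEsum : n ≤ ∑ x ∈ V \ QQ, (y x).natAbs := by
    have h1 := sum_sdiff (f := fun x => (y x).natAbs) hQV
    have h2 : ∑ x ∈ V \ QQ, (y x).natAbs + ∑ x ∈ QQ, (y x).natAbs = ∑ x ∈ V, (y x).natAbs := h1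
    have h3 : 0 ≤ K ^ 5 := Nat.zero_le _
    omega
  obtain ⟨E', hE1, hE2, hE3⟩ := odd_max (V \ QQ) (fun x => (y x).natAbs) K n
    (fun x hx => hL.wt x (mem_sdiff.1 hx).1) hEsum
  have hE1V : E' ⊆ V := fun x hx => (mem_sdiff.1 (hE1 hx)).1
  obtain ⟨X, hX1, hX2⟩ := hbez K (n - ∑ x ∈ E', (y x).natAbs) I hK hIle
    (fun d hd => hL.gcd d fun a ha => hd _ (mem_image_of_mem _ ha)) (by omega)
  have hRex : ∀ i : ℕ, ∃ R : Finset G, R ⊆ Q i ∧ (i ∈ I → #R = (X i).natAbs) := by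
    intro i
    by_cases hi : i ∈ I
    · obtain ⟨R, hR, hc⟩ := exists_subset_card_eq ((hX1 i hi).trans (hQ2 i hi).ge)
      exact ⟨R, hR, fun _ => hc⟩
    · exact ⟨∅, empty_subset _, fun h => absurd h hi⟩
  choose R hR1 hR2 using hRex
  have hRy : ∀ i, ∀ x ∈ R i, (y x).natAbs = i := fun i x hx => (mem_filter.1 (hQ1 i (hR1 i hx))).2
  set RR : Finset G := I.biUnion R with hRR
  have hRQ : RR ⊆ QQ := by
    intro x hx
    obtain ⟨i, hi, hx⟩ := mem_biUnion.1 hx
    exact mem_biUnion.2 ⟨i, hi, hR1 i hx⟩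
  have hdis : Disjoint E' RR := by
    rw [disjoint_left]
    intro x h1 h2
    exact (mem_sdiff.1 (hE1 h1)).2 (hRQ h2)
  have hpd : Set.PairwiseDisjoint (↑I : Set ℕ) R := by
    intro i _ j _ hij
    change Disjoint (R i) (R j)
    rw [disjoint_left]
    intro x h1 h2
    exact hij ((hRy i x h1).symm.trans (hRy j x h2))
  have hWV : E' ∪ RR ⊆ V := union_subset hE1V (hRQ.trans hQV)
  set σ : G → ℤ := fun x => if x ∈ E' then odd_sg (y x) else odd_sg (y x) * odd_sg (X (y x).natAbs)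
    with hσ
  have hσpm : ∀ x, σ x = 1 ∨ σ x = -1 := by
    intro x
    rw [hσ]
    dsimp only
    split_ifs
    · exact odd_sg_pm _
    · rcases odd_sg_pm (y x) with h | h <;> rcases odd_sg_pm (X (y x).natAbs) with h' | h' <;>
        rw [h, h'] <;> simp
  have htot : ∑ x ∈ E' ∪ RR, σ x * y x = (n : ℤ) := by
    rw [sum_union hdis]
    have h1 : ∑ x ∈ E', σ x * y x = ((∑ x ∈ E', (y x).natAbs : ℕ) : ℤ) := by
      rw [Nat.cast_sum]
      refine sum_congr rfl fun x hx => ?_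
      rw [hσ]
      dsimp only
      rw [if_pos hx, odd_sg_mul]
    have h2 : ∑ x ∈ RR, σ x * y x = ∑ i ∈ I, X i * (i : ℤ) := by
      rw [hRR, sum_biUnion hpd]
      refine sum_congr rfl fun i hi => ?_
      have h3 : ∑ x ∈ R i, σ x * y x = ∑ x ∈ R i, odd_sg (X i) * (i : ℤ) := by
        refine sum_congr rfl fun x hx => ?_
        have hxE : x ∉ E' := disjoint_right.1 hdis (mem_biUnion.2 ⟨i, hi, hx⟩)
        rw [hσ]
        dsimp only
        rw [if_neg hxE, mul_right_comm, odd_sg_mul, hRy i x hx, mul_comm]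
      rw [h3, sum_const, hR2 i hi, nsmul_eq_mul, ← mul_assoc, odd_sg_natAbs]
    rw [h1, h2, hX2]
    omega
  refine ⟨E' ∪ RR, hWV, ?_, ?_⟩
  · refine odd_par _ (fun x => σ x * y x) ?_ ?_
    · intro x hx
      have h1 := hodd x (hWV hx)
      rcases hσpm x with h | h
      · rw [h, one_mul]; exact h1
      · rw [h, neg_one_mul]; exact h1.neg
    · rw [htot]
      exact_mod_cast hn
  · refine odd_key hL hWV σ (fun x _ => hσpm x) ?_
    rw [htot, natCast_zsmul]
    exact hng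

end Pool.Agent.Lib.MP_8ac08c_co.OD
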