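import Pool.Agent.Lib.MP_8ac08c_co.OD.Stm

/-!
# MP_8ac08c_co, project OD: weak form of a lemma of Olson (piece `ols`)
-/

set_option autoImplicit false

open Finset

namespace Pool.Agent.Lib.MP_8ac08c_co.OD

private lemma ols_rep_bd {Γ : Type} [AddCommGroup Γ] [Fintype Γ] [DecidableEq Γ]
    (S : Finset Γ) (y : Γ) : rep S y + bd S y = #S := by
  unfold rep bd
  exact card_filter_add_card_filter_not (s := S) (fun s => s + y ∈ S)

private lemma ols_avg {Γ : Type} [AddCommGroup Γ] [Fintype Γ] [DecidableEq Γ]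
    (S B : Finset Γ) (hS : S.Nonempty) (hB : 2 * #S ≤ #B) : ∃ y ∈ B, #S ≤ 2 * bd S y := by
  by_contra hcon
  push Not at hcon
  have h1 : ∑ _y ∈ B, (#S + 1) ≤ ∑ y ∈ B, 2 * rep S y := by
    apply sum_le_sum
    intro y hy
    have h2 := hcon y hy
    have h3 := ols_rep_bd S y
    omega
  have h4 : ∑ y ∈ B, 2 * rep S y ≤ 2 * (#S * #S) := by
    rw [← mul_sum, ← sum_rep S]
    exact Nat.mul_le_mul_left _ (sum_le_sum_of_subset (subset_univ B))
  have h5 : ∑ _y ∈ B, (#S + 1) = #B * (#S + 1) := by simp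
  have h6 : 0 < #S := hS.card_pos
  have h7 : 2 * #S * (#S + 1) ≤ #B * (#S + 1) := Nat.mul_le_mul_right _ hB
  nlinarith

private lemma ols_half {Γ : Type} [AddCommGroup Γ] [Fintype Γ] [DecidableEq Γ]
    (C S : Finset Γ) (hneg : ∀ x ∈ C, -x ∈ C) (h0 : (0 : Γ) ∈ C)
    (hcl : AddSubgroup.closure (C : Set Γ) = ⊤) (hS : S.Nonempty)
    (hN : 2 * #S ≤ Fintype.card Γ) : ∃ x ∈ C, min (8 * #S) #C ≤ 16 * bd S x := by
  by_cases h1 : 2 * #S ≤ #C
  · obtain ⟨y, hy, hy2⟩ := ols_avg S C hS h1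
    exact ⟨y, hy, by omega⟩
  push Not at h1
  have hC : 0 < #C := card_pos.2 ⟨0, h0⟩
  obtain ⟨n, hn⟩ : ∃ n, n = (2 * #S - 1) / #C := ⟨_, rfl⟩
  have hn1 : n * #C ≤ 2 * #S - 1 := by
    rw [hn]; exact Nat.div_mul_le_self _ _
  have hn2 : 2 * #S - 1 < (n + 1) * #C := by
    have h := Nat.lt_mul_div_succ (2 * #S - 1) hC
    rw [← hn] at h
    rw [Nat.mul_comm (n + 1)]
    exact h
  have hn0 : 1 ≤ n := by
    rw [hn]
    exact (Nat.one_le_div_iff hC).2 (by omega)
  have hB : 2 * #S ≤ #(ball C (3 * n + 1)) := by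
    rcases ball_card hneg h0 n with h | h
    · have : ball C (3 * n + 1) = univ := by
        ext x
        simp only [mem_univ, iff_true]
        apply h
        rw [hcl]
        trivial
      rw [this, card_univ]
      exact hN
    · omega
  obtain ⟨y, hy, hy2⟩ := ols_avg S _ hS hB
  by_contra hcon
  push Not at hcon
  have hc : ∀ d ∈ C, 16 * bd S d ≤ #C - 1 := by
    intro d hd
    have := hcon d hd
    omega
  have h2 := bd_ball hc (3 * n + 1) y hy
  obtain ⟨c, hc'⟩ : ∃ c, #C = c + 1 := ⟨#C - 1, by omega⟩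
  rw [hc'] at h2 hn1
  simp only [Nat.add_sub_cancel] at h2
  have h3 : 8 * #S ≤ (3 * n + 1) * c := by omega
  have h4 : 1 ≤ #S := hS.card_pos
  have h5 : 4 * (n * (c + 1)) + 4 ≤ 8 * #S := by omega
  nlinarith

private lemma ols_compl {Γ : Type} [AddCommGroup Γ] [Fintype Γ] [DecidableEq Γ]
    (S : Finset Γ) (x : Γ) : bd Sᶜ x = bd S x := by
  have h1 := ols_rep_bd S x
  have h2 : #{s : Γ | s + x ∈ S} = #S := by
    apply card_bij (fun s _ => s + x)
    · intro s hs
      simpa using hs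
    · intro a _ b _ h
      exact add_right_cancel h
    · intro b hb
      exact ⟨b - x, by simpa using hb, by simp⟩
  have h3 : #{s : Γ | s + x ∈ S} = rep S x + bd Sᶜ x := by
    unfold rep bd
    rw [← card_union_of_disjoint]
    · congr 1
      ext s
      simp only [mem_filter, mem_univ, true_and, mem_union, mem_compl, not_not]
      tauto
    · rw [disjoint_left]
      intro s hs hs'
      simp only [mem_filter, mem_compl] at hs hs'
      exact hs'.1 hs.1
  omega

theorem p_ols : S_ols := by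
  intro Γ _ _ _ C S hneg h0 hcl hS
  by_cases hN : 2 * #S ≤ Fintype.card Γ
  · obtain ⟨x, hx, hx2⟩ := ols_half C S hneg h0 hcl hS hN
    exact ⟨x, hx, by omega⟩
  · push Not at hN
    have hc : #Sᶜ = Fintype.card Γ - #S := card_compl S
    have hle : #S ≤ Fintype.card Γ := card_le_univ S
    rcases Finset.eq_empty_or_nonempty Sᶜ with he | hne
    · refine ⟨0, h0, ?_⟩
      rw [he, card_empty] at hc
      omega
    · obtain ⟨x, hx, hx2⟩ := ols_half C Sᶜ hneg h0 hcl hne (by omega)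
      rw [ols_compl] at hx2
      exact ⟨x, hx, by omega⟩

end Pool.Agent.Lib.MP_8ac08c_co.OD
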