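import Pool.Agent.Lib.MP_8ac08c_co.OD.Stm

/-!
# Piece par
-/

set_option autoImplicit false

open Finset

namespace Pool.Agent.Lib.MP_8ac08c_co.OD

private theorem par_key (Γ : Type) [AddCommGroup Γ] [Fintype Γ] [DecidableEq Γ] (S : Finset Γ)
    (y : Γ) : (Fintype.card Γ : ℂ) * (#(S.filter (fun s => s + y ∈ S)) : ℂ) =
      ∑ χ : AddChar Γ ℂ, χ y * ((‖∑ s ∈ S, χ s‖ ^ 2 : ℝ) : ℂ) := by
  have h1 : ∀ χ : AddChar Γ ℂ, χ y * ((‖∑ s ∈ S, χ s‖ ^ 2 : ℝ) : ℂ) =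
      ∑ s ∈ S, ∑ s' ∈ S, χ (s + y - s') := by
    intro χ
    have e : ((‖∑ s ∈ S, χ s‖ ^ 2 : ℝ) : ℂ) =
        (∑ s ∈ S, χ s) * (starRingEnd ℂ) (∑ s ∈ S, χ s) := by
      rw [Complex.mul_conj, Complex.normSq_eq_norm_sq]
    rw [e, map_sum, Finset.sum_mul_sum, Finset.mul_sum]
    refine Finset.sum_congr rfl fun s _ => ?_
    rw [Finset.mul_sum]
    refine Finset.sum_congr rfl fun s' _ => ?_
    rw [sub_eq_add_neg, AddChar.map_add_eq_mul, AddChar.map_add_eq_mul, AddChar.map_neg_eq_conj]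
    ring
  simp_rw [h1]
  rw [Finset.sum_comm]
  have h2 : ∀ s ∈ S, ∑ χ : AddChar Γ ℂ, ∑ s' ∈ S, χ (s + y - s') =
      if s + y ∈ S then (Fintype.card Γ : ℂ) else 0 := by
    intro s _
    rw [Finset.sum_comm]
    simp_rw [AddChar.sum_apply_eq_ite]
    have h3 : ∀ s' : Γ, (s + y - s' = 0) = (s + y = s') := fun s' => by
      rw [sub_eq_zero]
    simp_rw [h3]
    rw [Finset.sum_ite_eq]
  rw [Finset.sum_congr rfl h2, ← Finset.sum_filter, Finset.sum_const, nsmul_eq_mul]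
  ring

private theorem par_re (Γ : Type) [AddCommGroup Γ] [Fintype Γ] [DecidableEq Γ] (S : Finset Γ)
    (y : Γ) : (Fintype.card Γ : ℝ) * (#(S.filter (fun s => s + y ∈ S)) : ℝ) =
      ∑ χ : AddChar Γ ℂ, (χ y).re * ‖∑ s ∈ S, χ s‖ ^ 2 := by
  have h := congrArg Complex.re (par_key Γ S y)
  rw [Complex.re_sum] at h
  have h1 : ((Fintype.card Γ : ℂ) * (#(S.filter (fun s => s + y ∈ S)) : ℂ)).re =
      (Fintype.card Γ : ℝ) * (#(S.filter (fun s => s + y ∈ S)) : ℝ) := by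
    rw [← Complex.ofReal_natCast, ← Complex.ofReal_natCast, ← Complex.ofReal_mul,
      Complex.ofReal_re]
  rw [h1] at h
  rw [h]
  refine Finset.sum_congr rfl fun χ _ => ?_
  rw [Complex.re_mul_ofReal]

theorem p_par : S_par := by
  intro Γ _ _ _ S
  have h0 : (Fintype.card Γ : ℝ) * #S = ∑ χ : AddChar Γ ℂ, ‖∑ s ∈ S, χ s‖ ^ 2 := by
    have h := par_re Γ S 0
    have e : S.filter (fun s => s + 0 ∈ S) = S := by
      apply Finset.filter_true_of_mem
      intro s hs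
      simpa using hs
    rw [e] at h
    rw [h]
    refine Finset.sum_congr rfl fun χ _ => ?_
    simp
  refine ⟨?_, h0⟩
  intro y
  have h1 : (#(S.filter (fun s => s + y ∈ S)) : ℝ) + (bd S y : ℝ) = #S := by
    unfold bd
    rw [← Nat.cast_add, Finset.card_filter_add_card_filter_not]
  have h2 := par_re Γ S y
  have h3 : (Fintype.card Γ : ℝ) * bd S y =
      (Fintype.card Γ : ℝ) * #S - (Fintype.card Γ : ℝ) * #(S.filter (fun s => s + y ∈ S)) := by
    rw [← h1]; ring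
  rw [h3, h0, h2, ← Finset.sum_sub_distrib]
  refine Finset.sum_congr rfl fun χ _ => ?_
  ring

end Pool.Agent.Lib.MP_8ac08c_co.OD
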