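import Pool.Agent.Lib.MP_8ac08c_co.OD.Stm

/-! Piece `rob` of project OD: robust subgroups, two minimality arguments. -/

set_option autoImplicit false

open Finset

namespace Pool.Agent.Lib.MP_8ac08c_co.OD

private theorem rob_two {G : Type} [AddCommGroup G] [Finite G] {H K : AddSubgroup G}
    (hle : H ≤ K) (hne : H ≠ K) : 2 * Nat.card H ≤ Nat.card K := by
  obtain ⟨c, hc⟩ := AddSubgroup.card_dvd_of_le hle
  have hlt : ¬ Nat.card K ≤ Nat.card H := fun h => hne (AddSubgroup.eq_of_le_of_card_ge hle h)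
  rcases Nat.lt_or_ge c 2 with h | h
  · exfalso
    apply hlt
    rw [hc]
    calc Nat.card H * c ≤ Nat.card H * 1 := Nat.mul_le_mul_left _ (by omega)
      _ = Nat.card H := mul_one _
  · rw [hc, mul_comm]
    exact Nat.mul_le_mul_left _ h

private theorem rob_log {G : Type} [AddCommGroup G] [Finite G] {H K : AddSubgroup G}
    (hle : H ≤ K) (hne : H ≠ K) : Nat.log 2 (Nat.card H) + 1 ≤ Nat.log 2 (Nat.card K) := by
  have h := rob_two hle hne
  have hp : 0 < Nat.card H := Nat.card_pos
  rw [← Nat.log_mul_base (by norm_num) hp.ne']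
  apply Nat.log_mono_right
  omega

private theorem rob_sdiff {α : Type} [DecidableEq α] (V Z Z' : Finset α) :
    #(V \ Z') ≤ #(V \ Z) + #(Z \ Z') := by
  refine le_trans (card_le_card ?_) (card_union_le _ _)
  intro x hx
  rw [mem_sdiff] at hx
  rw [mem_union, mem_sdiff, mem_sdiff]
  by_cases h : x ∈ Z
  · exact Or.inr ⟨h, hx.2⟩
  · exact Or.inl ⟨hx.1, h⟩

theorem p_rob : S_rob := by
  intro G _ _ α _ gen hgen V
  constructor
  · intro d a b
    let s : Finset (Finset α) := V.powerset.filter fun Z =>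
      d * #(V \ Z) + (2 * a * Nat.card (gen Z) + b * Nat.log 2 (Nat.card (gen Z))) ≤
      2 * a * Nat.card (gen V) + b * Nat.log 2 (Nat.card (gen V))
    have hs : s.Nonempty := by
      refine ⟨V, mem_filter.2 ⟨mem_powerset.2 (Subset.refl _), ?_⟩⟩
      rw [sdiff_self]
      simp
    obtain ⟨Z, hZ, hmin⟩ := exists_min_image s (fun Z => Nat.card (gen Z)) hs
    obtain ⟨hZV, hZ1⟩ := mem_filter.1 hZ
    rw [mem_powerset] at hZV
    refine ⟨Z, hZV, hZ1, ?_⟩
    intro Z' hZ' hd
    by_contra hne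
    have hle := hgen Z' Z hZ'
    have h2 := rob_two hle hne
    have hl := rob_log hle hne
    have hp : 0 < Nat.card (gen Z') := Nat.card_pos
    have hZs : Z' ∈ s := by
      refine mem_filter.2 ⟨mem_powerset.2 (hZ'.trans hZV), ?_⟩
      refine le_trans ?_ hZ1
      have h3 : d * #(V \ Z') ≤ d * #(V \ Z) + d * #(Z \ Z') := by
        rw [← mul_add]
        exact Nat.mul_le_mul_left _ (rob_sdiff V Z Z')
      have h4 : 2 * a * Nat.card (gen Z') ≤ a * Nat.card (gen Z) := by
        calc 2 * a * Nat.card (gen Z') = a * (2 * Nat.card (gen Z')) := by ring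
          _ ≤ a * Nat.card (gen Z) := Nat.mul_le_mul_left _ h2
      have h5 : b * Nat.log 2 (Nat.card (gen Z')) + b ≤ b * Nat.log 2 (Nat.card (gen Z)) := by
        calc b * Nat.log 2 (Nat.card (gen Z')) + b = b * (Nat.log 2 (Nat.card (gen Z')) + 1) := by
              ring
          _ ≤ _ := Nat.mul_le_mul_left _ hl
      have h6 : 2 * a * Nat.card (gen Z) = a * Nat.card (gen Z) + a * Nat.card (gen Z) := by ring
      omega
    have := hmin Z' hZs
    omega
  · intro b M hM
    let s : Finset (Finset α) := V.powerset.filter fun Z =>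
      #(V \ Z) + b * Nat.log 2 (Nat.card (gen Z)) ≤ b * Nat.log 2 (Nat.card (gen V)) ∧
      #(V \ Z) ≤ (M + 1) * b
    have hs : s.Nonempty := by
      refine ⟨V, mem_filter.2 ⟨mem_powerset.2 (Subset.refl _), ?_⟩⟩
      rw [sdiff_self]
      simp
    have hb : ∀ Z ∈ s, #(V \ Z) ≤ M * b := by
      intro Z hZ
      obtain ⟨hZV, hZ1, hZ2⟩ := mem_filter.1 hZ
      rw [mem_powerset] at hZV
      have h1 := hM Z hZV hZ2
      have h2 : b * Nat.log 2 (Nat.card (gen V)) ≤ b * Nat.log 2 (Nat.card (gen Z)) + M * b := by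
        calc b * Nat.log 2 (Nat.card (gen V)) ≤ b * (Nat.log 2 (Nat.card (gen Z)) + M) :=
              Nat.mul_le_mul_left _ h1
          _ = _ := by ring
      omega
    obtain ⟨Z, hZ, hmin⟩ := exists_min_image s (fun Z => Nat.card (gen Z)) hs
    obtain ⟨hZV, hZ1, hZ2⟩ := mem_filter.1 hZ
    rw [mem_powerset] at hZV
    refine ⟨Z, hZV, hb Z hZ, ?_⟩
    intro Z' hZ' hd
    by_contra hne
    have hle := hgen Z' Z hZ'
    have h2 := rob_two hle hne
    have hl := rob_log hle hne
    have hp : 0 < Nat.card (gen Z') := Nat.card_pos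
    have h3 := rob_sdiff V Z Z'
    have hZs : Z' ∈ s := by
      refine mem_filter.2 ⟨mem_powerset.2 (hZ'.trans hZV), ?_, ?_⟩
      · refine le_trans ?_ hZ1
        have h5 : b * Nat.log 2 (Nat.card (gen Z')) + b ≤ b * Nat.log 2 (Nat.card (gen Z)) := by
          calc b * Nat.log 2 (Nat.card (gen Z')) + b =
                b * (Nat.log 2 (Nat.card (gen Z')) + 1) := by ring
            _ ≤ _ := Nat.mul_le_mul_left _ hl
        omega
      · have h6 := hb Z hZ
        have h7 : (M + 1) * b = M * b + b := by ring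
        omega
    have := hmin Z' hZs
    omega

end Pool.Agent.Lib.MP_8ac08c_co.OD
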