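import Pool.Agent.Lib.MP_8ac08c_co.OD.Stm

/-!
# MP_8ac08c_co, project OD, piece rsm: sums of `t` elements in a group of odd order
-/

set_option autoImplicit false

open Finset

namespace Pool.Agent.Lib.MP_8ac08c_co.OD

/-- A family with fibres of size at most two splits into two balanced parts on which it is
injective. -/
private lemma rsm_split {Λ ι : Type} [DecidableEq Λ] [DecidableEq ι] (f : ι → Λ) (s : Finset ι) :
    (∀ v, #(s.filter fun a => f a = v) ≤ 2) →
    ∃ a b : Finset ι, Disjoint a b ∧ a ∪ b = s ∧ Set.InjOn f (a : Set ι) ∧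
      Set.InjOn f (b : Set ι) ∧ #b ≤ #a ∧ #a ≤ #b + 1 := by
  induction s using Finset.induction_on with
  | empty =>
    intro _
    exact ⟨∅, ∅, by simp, by simp, by simp, by simp, by simp, by simp⟩
  | insert x s hx ih =>
    intro h
    obtain ⟨a, b, hd, hu, ha, hb, h1, h2⟩ := ih (fun v =>
      (card_le_card (filter_subset_filter _ (subset_insert x s))).trans (h v))
    have hxa : x ∉ a := fun hc => hx (by rw [← hu]; exact mem_union_left _ hc)
    have hxb : x ∉ b := fun hc => hx (by rw [← hu]; exact mem_union_right _ hc)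
    have hins : ∀ c : Finset ι, Set.InjOn f (c : Set ι) → (∀ y ∈ c, f y ≠ f x) →
        Set.InjOn f ((insert x c : Finset ι) : Set ι) := by
      intro c hc hne
      rw [coe_insert, Set.injOn_insert]
      · refine ⟨hc, ?_⟩
        rintro ⟨y, hy, he⟩
        exact hne y hy he
      · intro hxc
        exact hne x hxc rfl
    by_cases hfb : ∃ y ∈ b, f y = f x
    · obtain ⟨y, hy, hyx⟩ := hfb
      have hxy : x ≠ y := fun hc => hxb (by rw [hc]; exact hy)
      have hna : ∀ u ∈ a, f u ≠ f x := by
        intro u hu' hue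
        have hux : u ≠ x := fun hc => hxa (by rw [← hc]; exact hu')
        have huy : u ≠ y := fun hc => (disjoint_left.1 hd) hu' (by rw [hc]; exact hy)
        have h3 : ({u, x, y} : Finset ι) ⊆ (insert x s).filter fun c => f c = f x := by
          intro c hc
          rw [mem_insert, mem_insert, mem_singleton] at hc
          rw [mem_filter]
          rcases hc with rfl | rfl | rfl
          · exact ⟨mem_insert_of_mem (by rw [← hu]; exact mem_union_left _ hu'), hue⟩
          · exact ⟨mem_insert_self _ _, rfl⟩
          · exact ⟨mem_insert_of_mem (by rw [← hu]; exact mem_union_right _ hy), hyx⟩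
        have h4 := (card_le_card h3).trans (h (f x))
        rw [card_insert_of_notMem (by simp [hux, huy]), card_insert_of_notMem (by simp [hxy]),
          card_singleton] at h4
        omega
      have hca : #(insert x a) = #a + 1 := card_insert_of_notMem hxa
      by_cases hab : #a = #b
      · refine ⟨insert x a, b, ?_, ?_, hins a ha hna, hb, by omega, by omega⟩
        · rw [disjoint_insert_left]
          exact ⟨hxb, hd⟩
        · rw [insert_union, hu]
      · -- some element of `a ∪ {x}` has a value which is not taken on `b`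
        have hinj := hins a ha hna
        have hex : ∃ u ∈ insert x a, f u ∉ b.image f := by
          by_contra hno
          push Not at hno
          have h5 : (insert x a).image f ⊆ b.image f := by
            intro v hv
            obtain ⟨u, hu', rfl⟩ := mem_image.1 hv
            exact hno u hu'
          have h6 := card_le_card h5
          rw [card_image_of_injOn hinj, card_image_of_injOn hb] at h6
          omega
        obtain ⟨u, hu1, hu2⟩ := hex
        have hub : u ∉ b := fun hc => hu2 (mem_image_of_mem f hc)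
        have hdis : Disjoint (insert x a) b := by
          rw [disjoint_insert_left]
          exact ⟨hxb, hd⟩
        refine ⟨(insert x a).erase u, insert u b, ?_, ?_, ?_, ?_, ?_, ?_⟩
        · rw [disjoint_insert_right]
          exact ⟨notMem_erase u _, disjoint_of_subset_left (erase_subset _ _) hdis⟩
        · ext c
          have hu' : c ∈ s ↔ c ∈ a ∨ c ∈ b := by rw [← hu, mem_union]
          simp only [mem_union, mem_erase, mem_insert, hu']
          rw [mem_insert] at hu1
          by_cases hcu : c = u
          · subst hcu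
            rcases hu1 with rfl | hu1
            · simp
            · simp [hu1]
          · simp only [hcu, ne_eq, not_false_iff, true_and, false_or]
            tauto
        · exact hinj.mono (by intro c hc; exact erase_subset u _ hc)
        · rw [coe_insert, Set.injOn_insert hub]
          refine ⟨hb, ?_⟩
          rintro ⟨y', hy', he⟩
          exact hu2 (by rw [← he]; exact mem_image_of_mem f hy')
        · rw [card_erase_of_mem hu1, card_insert_of_notMem hub, hca]
          omega
        · rw [card_erase_of_mem hu1, card_insert_of_notMem hub, hca]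
          omega
    · push Not at hfb
      have hcb : #(insert x b) = #b + 1 := card_insert_of_notMem hxb
      refine ⟨insert x b, a, ?_, ?_, hins b hb hfb, ha, by omega, by omega⟩
      · rw [disjoint_insert_left]
        exact ⟨hxa, hd.symm⟩
      · rw [insert_union, union_comm, hu]

private lemma rsm_bd_zero {Λ : Type} [AddCommGroup Λ] [Fintype Λ] [DecidableEq Λ] (S : Finset Λ) :
    bd S 0 = 0 := by
  unfold bd
  rw [card_eq_zero, filter_eq_empty_iff]
  intro s hs
  rw [add_zero]
  exact fun h => h hs

/-- the size of a union of two translates -/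
private lemma rsm_card {Λ : Type} [AddCommGroup Λ] [Fintype Λ] [DecidableEq Λ] (S : Finset Λ)
    (u v : Λ) : #((S.image fun x => x + u) ∪ (S.image fun x => x + v)) = #S + bd S (v - u) := by
  have h1 : (S.image fun x => x + u) ∪ (S.image fun x => x + v) =
      (S.image fun x => x + u) ∪ ((S.filter fun s => s + (v - u) ∉ S).image fun x => x + v) := by
    ext z
    simp only [mem_union, mem_image, mem_filter]
    constructor
    · rintro (⟨x, hx, rfl⟩ | ⟨x, hx, rfl⟩)
      · exact Or.inl ⟨x, hx, rfl⟩
      · by_cases h : x + (v - u) ∈ S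
        · exact Or.inl ⟨_, h, by abel⟩
        · exact Or.inr ⟨x, ⟨hx, h⟩, rfl⟩
    · rintro (⟨x, hx, rfl⟩ | ⟨x, ⟨hx, _⟩, rfl⟩)
      · exact Or.inl ⟨x, hx, rfl⟩
      · exact Or.inr ⟨x, hx, rfl⟩
  rw [h1, card_union_of_disjoint, card_image_of_injective _ (add_left_injective u),
    card_image_of_injective _ (add_left_injective v)]
  · rfl
  · rw [disjoint_left]
    intro z hz hz'
    rw [mem_image] at hz hz'
    obtain ⟨x, hx, rfl⟩ := hz
    obtain ⟨x', hx', h⟩ := hz'
    rw [mem_filter] at hx'
    apply hx'.2
    have : x' + (v - u) = x := by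
      rw [add_sub_assoc'] 
      rw [h]
      abel
    rw [this]
    exact hx

/-- Claim (1): one step of growth. -/
private lemma rsm_step (ols : S_ols) {Λ : Type} [AddCommGroup Λ] [Fintype Λ] [DecidableEq Λ]
    {ι : Type} [DecidableEq ι] (f : ι → Λ) (hodd : Odd (Fintype.card Λ)) (b' : Finset ι)
    (hinj : Set.InjOn f (b' : Set ι)) (hb' : 4 * Fintype.card Λ ≤ 10 * #b') (S : Finset Λ)
    (hS : 21 * Fintype.card Λ ≤ 100 * #S) (hS2 : 2 * #S ≤ Fintype.card Λ) :
    ∃ c ∈ b', ∃ c' ∈ b', c ≠ c' ∧
      40 * #S + Fintype.card Λ ≤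
        40 * #((S.image fun x => x + f c) ∪ (S.image fun x => x + f c')) := by
  classical
  have hpos : 0 < Fintype.card Λ := Fintype.card_pos
  have hbpos : 0 < #b' := by omega
  obtain ⟨c0, hc0⟩ := card_pos.1 hbpos
  set C : Finset Λ := (b' ×ˢ b').image fun p => f p.2 - f p.1 with hC
  have hmem : ∀ c ∈ b', ∀ c' ∈ b', f c' - f c ∈ C := by
    intro c hc c' hc'
    rw [hC, mem_image]
    exact ⟨(c, c'), mem_product.2 ⟨hc, hc'⟩, rfl⟩
  have hCcard : #b' ≤ #C := by
    refine card_le_card_of_injOn (fun c => f c - f c0) (fun c hc => hmem c0 hc0 c hc) ?_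
    intro c hc c' hc' h
    exact hinj hc hc' (sub_left_injective h)
  have hclos : AddSubgroup.closure (C : Set Λ) = ⊤ := by
    set M := AddSubgroup.closure (C : Set Λ) with hM
    have h1 : #b' ≤ Nat.card M := by
      have h2 : ∀ c ∈ b', f c - f c0 ∈ M := fun c hc =>
        AddSubgroup.subset_closure (hmem c0 hc0 c hc)
      have h3 : Function.Injective (fun c : b' => (⟨f c - f c0, h2 c c.2⟩ : M)) := by
        intro c c' h
        have h4 : f c - f c0 = f c' - f c0 := congrArg Subtype.val h
        exact Subtype.ext (hinj c.2 c'.2 (sub_left_injective h4))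
      have h5 := Nat.card_le_card_of_injective _ h3
      rwa [Nat.card_eq_fintype_card, Fintype.card_coe] at h5
    have h6 : Nat.card M * M.index = Fintype.card Λ := by
      rw [AddSubgroup.card_mul_index, Nat.card_eq_fintype_card]
    have h7 : Odd M.index := by
      rw [← h6] at hodd
      exact (Nat.odd_mul.1 hodd).2
    rw [← AddSubgroup.index_eq_one]
    by_contra hne
    have h8 : 3 ≤ M.index := by
      obtain ⟨r, hr⟩ := h7
      omega
    have h9 : Nat.card M * 3 ≤ Nat.card M * M.index := Nat.mul_le_mul_left _ h8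
    omega
  obtain ⟨x, hx, hmin⟩ := ols Λ C S
    (by
      intro y hy
      rw [hC, mem_image] at hy
      obtain ⟨p, hp, rfl⟩ := hy
      rw [mem_product] at hp
      rw [neg_sub]
      exact hmem _ hp.2 _ hp.1)
    (by
      have := hmem c0 hc0 c0 hc0
      rwa [sub_self] at this)
    hclos (card_pos.1 (by omega))
  rw [hC, mem_image] at hx
  obtain ⟨p, hp, rfl⟩ := hx
  rw [mem_product] at hp
  have hbd : Fintype.card Λ ≤ 40 * bd S (f p.2 - f p.1) := by
    omega
  refine ⟨p.1, hp.1, p.2, hp.2, ?_, ?_⟩
  · intro he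
    rw [he, sub_self, rsm_bd_zero] at hbd
    omega
  · rw [rsm_card]
    omega

/-- (2): more than half of the elements are sums of thirteen elements. -/
private lemma rsm_grow (ols : S_ols) {Λ : Type} [AddCommGroup Λ] [Fintype Λ] [DecidableEq Λ]
    {ι : Type} [DecidableEq ι] (f : ι → Λ) (hodd : Odd (Fintype.card Λ))
    (hbig : 2 ^ 20 ≤ Fintype.card Λ) (a b : Finset ι) (hd : Disjoint a b)
    (ha : Set.InjOn f (a : Set ι)) (hb : Set.InjOn f (b : Set ι))
    (hac : 21 * Fintype.card Λ ≤ 100 * #a) (hbc : 41 * Fintype.card Λ ≤ 100 * #b) :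
    ∀ n : ℕ, n ≤ 12 → ∃ (S : Finset Λ) (W : Finset ι), W ⊆ a ∪ b ∧ #(W ∩ b) ≤ 2 * n ∧
      21 * Fintype.card Λ ≤ 100 * #S ∧
      (Fintype.card Λ < 2 * #S ∨ (210 + 25 * n) * Fintype.card Λ ≤ 1000 * #S) ∧
      ∀ v ∈ S, ∃ O ⊆ W, #O = n + 1 ∧ ∑ i ∈ O, f i = v := by
  intro n
  induction n with
  | zero =>
    intro _
    refine ⟨a.image f, a, subset_union_left, ?_, ?_, ?_, ?_⟩
    · rw [disjoint_iff_inter_eq_empty.1 hd]
      simp
    · rwa [card_image_of_injOn ha]
    · right
      rw [card_image_of_injOn ha]
      omega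
    · intro v hv
      obtain ⟨i, hi, rfl⟩ := mem_image.1 hv
      exact ⟨{i}, by simpa using hi, by simp, by simp⟩
  | succ n ih =>
    intro hn
    obtain ⟨S, W, hW, hWb, hS, hor, hrep⟩ := ih (by omega)
    have hb2 : #b ≤ #(b \ W) + 2 * n := by
      have h1 := card_sdiff_add_card_inter b W
      rw [inter_comm] at h1
      omega
    have hb3 : 4 * Fintype.card Λ ≤ 10 * #(b \ W) := by
      have : (2 : ℕ) ^ 20 = 1048576 := by norm_num
      omega
    -- the general step with two new elements
    have hgen : ∀ c ∈ b \ W, ∀ c' ∈ b \ W,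
        (Fintype.card Λ < 2 * #((S.image fun x => x + f c) ∪ (S.image fun x => x + f c')) ∨
          (210 + 25 * (n + 1)) * Fintype.card Λ ≤
            1000 * #((S.image fun x => x + f c) ∪ (S.image fun x => x + f c'))) →
        ∃ (S : Finset Λ) (W : Finset ι), W ⊆ a ∪ b ∧ #(W ∩ b) ≤ 2 * (n + 1) ∧
          21 * Fintype.card Λ ≤ 100 * #S ∧
          (Fintype.card Λ < 2 * #S ∨ (210 + 25 * (n + 1)) * Fintype.card Λ ≤ 1000 * #S) ∧
          ∀ v ∈ S, ∃ O ⊆ W, #O = n + 1 + 1 ∧ ∑ i ∈ O, f i = v := by
      intro c hc c' hc' h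
      have hcb := (mem_sdiff.1 hc)
      have hcb' := (mem_sdiff.1 hc')
      refine ⟨_, W ∪ {c, c'}, ?_, ?_, ?_, h, ?_⟩
      · intro i hi
        rw [mem_union, mem_insert, mem_singleton] at hi
        rcases hi with hi | rfl | rfl
        · exact hW hi
        · exact mem_union_right _ hcb.1
        · exact mem_union_right _ hcb'.1
      · rw [union_inter_distrib_right]
        refine (card_union_le _ _).trans ?_
        have h2 : #(({c, c'} : Finset ι) ∩ b) ≤ 2 :=
          (card_le_card inter_subset_left).trans card_le_two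
        omega
      · have h3 : #S ≤ #((S.image fun x => x + f c) ∪ (S.image fun x => x + f c')) := by
          rw [rsm_card]
          omega
        omega
      · intro v hv
        rw [mem_union, mem_image, mem_image] at hv
        have hadd : ∀ e, e ∉ W → e ∈ ({c, c'} : Finset ι) → ∀ x ∈ S,
            ∃ O ⊆ W ∪ {c, c'}, #O = n + 1 + 1 ∧ ∑ i ∈ O, f i = x + f e := by
          intro e he1 he2 x hx
          obtain ⟨O, hO, hcO, hsO⟩ := hrep x hx
          have heO : e ∉ O := fun h => he1 (hO h)
          refine ⟨insert e O, ?_, ?_, ?_⟩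
          · intro i hi
            rw [mem_insert] at hi
            rcases hi with rfl | hi
            · exact mem_union_right _ he2
            · exact mem_union_left _ (hO hi)
          · rw [card_insert_of_notMem heO, hcO]
          · rw [sum_insert heO, hsO, add_comm]
        rcases hv with ⟨x, hx, rfl⟩ | ⟨x, hx, rfl⟩
        · exact hadd c hcb.2 (by simp) x hx
        · exact hadd c' hcb'.2 (by simp) x hx
    by_cases hhalf : 2 * #S ≤ Fintype.card Λ
    · obtain ⟨c, hc, c', hc', _, h40⟩ := rsm_step ols f hodd (b \ W)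
        (hb.mono (by intro i hi; exact (mem_sdiff.1 hi).1)) hb3 S hS hhalf
      refine hgen c hc c' hc' (Or.inr ?_)
      have h5 : (210 + 25 * n) * Fintype.card Λ ≤ 1000 * #S := by
        rcases hor with h | h
        · omega
        · exact h
      have h6 : (210 + 25 * (n + 1)) * Fintype.card Λ =
          (210 + 25 * n) * Fintype.card Λ + 25 * Fintype.card Λ := by ring
      rw [h6]
      omega
    · have hne : 0 < #(b \ W) := by
        have := Fintype.card_pos (α := Λ)
        omega
      obtain ⟨c, hc⟩ := card_pos.1 hne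
      refine hgen c hc c hc (Or.inl ?_)
      rw [rsm_card, sub_self, rsm_bd_zero]
      omega

/-- [OD rsm] -/
theorem p_rsm : S_rsm := by
  intro ols Λ _ _ _ ι _ s f t hodd hbig hfib hs ht1 ht2 z
  classical
  have h20 : (2 : ℕ) ^ 20 = 1048576 := by norm_num
  -- (0)
  obtain ⟨O', hO', hO'c⟩ := exists_subset_card_eq (show t - 26 ≤ #s by omega)
  have hs' : #(s \ O') = #s - (t - 26) := by
    rw [card_sdiff_of_subset hO', hO'c]
  obtain ⟨a, b, hd, hu, ha, hb, hab1, hab2⟩ := rsm_split f (s \ O') (fun v =>
    (card_le_card (filter_subset_filter _ sdiff_subset)).trans (hfib v))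
  have hcu : #a + #b = #(s \ O') := by
    rw [← hu, card_union_of_disjoint hd]
  have hb44 : 44 * Fintype.card Λ ≤ 100 * #b := by omega
  -- split `a`
  obtain ⟨a1, ha1, ha1c⟩ := exists_subset_card_eq (show #a / 2 ≤ #a by omega)
  have ha2c : #(a \ a1) = #a - #a / 2 := by
    rw [card_sdiff_of_subset ha1, ha1c]
  obtain ⟨S1, W1, hW1, hW1b, -, hS1, hrep1⟩ := rsm_grow ols f hodd hbig a1 b
    (disjoint_of_subset_left ha1 hd) (ha.mono (by intro i hi; exact ha1 hi)) hb
    (by omega) (by omega) 12 le_rfl
  have hb2 : #b ≤ #(b \ W1) + 24 := by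
    have h1 := card_sdiff_add_card_inter b W1
    rw [inter_comm] at h1
    omega
  obtain ⟨S2, W2, hW2, -, -, hS2, hrep2⟩ := rsm_grow ols f hodd hbig (a \ a1) (b \ W1)
    (disjoint_of_subset_left sdiff_subset (disjoint_of_subset_right sdiff_subset hd))
    (ha.mono (by intro i hi; exact (mem_sdiff.1 hi).1))
    (hb.mono (by intro i hi; exact (mem_sdiff.1 hi).1))
    (by omega) (by omega) 12 le_rfl
  have hS1' : Fintype.card Λ < 2 * #S1 := by
    rcases hS1 with h | h
    · exact h
    · omega
  have hS2' : Fintype.card Λ < 2 * #S2 := by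
    rcases hS2 with h | h
    · exact h
    · omega
  have hWd : Disjoint W1 W2 := by
    rw [disjoint_left]
    intro i hi1 hi2
    have h1 := hW1 hi1
    have h2 := hW2 hi2
    rw [mem_union] at h1 h2
    rcases h2 with h2 | h2
    · rw [mem_sdiff] at h2
      rcases h1 with h1 | h1
      · exact h2.2 h1
      · exact (disjoint_left.1 hd) h2.1 h1
    · rw [mem_sdiff] at h2
      exact h2.2 hi1
  -- (3)
  have hex : ∃ v1 ∈ S1, ∃ v2 ∈ S2, v1 + v2 = z - ∑ i ∈ O', f i := by
    set z' := z - ∑ i ∈ O', f i
    by_contra hno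
    push Not at hno
    have hdis : Disjoint S1 (S2.image fun v => z' - v) := by
      rw [disjoint_left]
      intro v hv hv'
      obtain ⟨v2, hv2, he⟩ := mem_image.1 hv'
      apply hno v hv v2 hv2
      rw [← he]
      abel
    have h1 := card_le_univ (S1 ∪ (S2.image fun v => z' - v))
    rw [card_union_of_disjoint hdis, card_image_of_injective _ sub_right_injective] at h1
    omega
  obtain ⟨v1, hv1, v2, hv2, hv⟩ := hex
  obtain ⟨O1, hO1, hc1, hs1⟩ := hrep1 v1 hv1
  obtain ⟨O2, hO2, hc2, hs2⟩ := hrep2 v2 hv2
  have hW1s : W1 ⊆ s \ O' := by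
    intro i hi
    rw [← hu]
    rcases mem_union.1 (hW1 hi) with h | h
    · exact mem_union_left _ (ha1 h)
    · exact mem_union_right _ h
  have hW2s : W2 ⊆ s \ O' := by
    intro i hi
    rw [← hu]
    rcases mem_union.1 (hW2 hi) with h | h
    · exact mem_union_left _ (mem_sdiff.1 h).1
    · exact mem_union_right _ (mem_sdiff.1 h).1
  have hd12 : Disjoint O1 O2 := Disjoint.mono hO1 hO2 hWd
  have hd3 : Disjoint (O1 ∪ O2) O' := by
    rw [disjoint_left]
    intro i hi hi'
    rcases mem_union.1 hi with h | h
    · exact (mem_sdiff.1 (hW1s (hO1 h))).2 hi'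
    · exact (mem_sdiff.1 (hW2s (hO2 h))).2 hi'
  refine ⟨O1 ∪ O2 ∪ O', ?_, ?_, ?_⟩
  · intro i hi
    rcases mem_union.1 hi with h | h
    · rcases mem_union.1 h with h | h
      · exact (mem_sdiff.1 (hW1s (hO1 h))).1
      · exact (mem_sdiff.1 (hW2s (hO2 h))).1
    · exact hO' h
  · rw [card_union_of_disjoint hd3, card_union_of_disjoint hd12, hc1, hc2, hO'c]
    omega
  · rw [sum_union hd3, sum_union hd12, hs1, hs2, hv]
    abel

end Pool.Agent.Lib.MP_8ac08c_co.OD
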