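import Pool.Agent.Lib.MP_8ac08c_co.OD.Stm

/-!
# MP_8ac08c_co, project OD: piece sge, signed sums of elements which are `± e` modulo `L`
-/

set_option autoImplicit false

open Finset

namespace Pool.Agent.Lib.MP_8ac08c_co.OD

private theorem sge_all {G : Type} [AddCommGroup G] [DecidableEq G] (L : AddSubgroup G) (e : G)
    (E : Finset G) : (∀ a ∈ E, a - e ∈ L ∨ a + e ∈ L) → ∃ v ∈ SG E, v - (#E : ℤ) • e ∈ L := by
  induction E using Finset.induction_on with
  | empty =>
    intro _
    refine ⟨0, zero_mem_SG_empty, ?_⟩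
    simp
  | insert a E ha ih =>
    intro h
    obtain ⟨v, hv, hvL⟩ := ih fun x hx => h x (mem_insert_of_mem hx)
    have hd : Disjoint E {a} := disjoint_singleton_right.2 ha
    have h1 : insert a E = E ∪ {a} := by
      rw [union_comm]
      exact insert_eq a E
    have h2 : ((#(insert a E) : ℕ) : ℤ) = (#E : ℤ) + 1 := by
      rw [card_insert_of_notMem ha]
      push_cast
      rfl
    rw [h2]
    rcases h a (mem_insert_self a E) with h3 | h3
    · refine ⟨v + a, ?_, ?_⟩
      · rw [h1]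
        exact add_mem_SG hd hv (mem_SG_single.2 (Or.inl rfl))
      · have h4 : v + a - ((#E : ℤ) + 1) • e = (v - (#E : ℤ) • e) + (a - e) := by
          rw [add_smul, one_smul]
          abel
        rw [h4]
        exact L.add_mem hvL h3
    · refine ⟨v + -a, ?_, ?_⟩
      · rw [h1]
        exact add_mem_SG hd hv (mem_SG_single.2 (Or.inr rfl))
      · have h4 : v + -a - ((#E : ℤ) + 1) • e = (v - (#E : ℤ) • e) - (a + e) := by
          rw [add_smul, one_smul]
          abel
        rw [h4]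
        exact L.sub_mem hvL h3

theorem p_sge : S_sge := by
  intro G _ _ L e E k hE hev hk
  obtain ⟨n, hn⟩ := hev
  have hk1 : -(n : ℤ) ≤ k ∧ k ≤ n := by omega
  obtain ⟨E₁, hE₁, hc⟩ := exists_subset_card_eq (s := E) (n := ((n : ℤ) + k).toNat) (by omega)
  have hc1 : ((#E₁ : ℕ) : ℤ) = n + k := by omega
  have hc2 : ((#(E \ E₁) : ℕ) : ℤ) = n - k := by
    have := card_sdiff_add_card_eq_card hE₁
    omega
  obtain ⟨v, hv, hvL⟩ := sge_all L e E₁ fun a ha => hE a (hE₁ ha)
  obtain ⟨v', hv', hvL'⟩ := sge_all L e (E \ E₁) fun a ha => hE a (mem_sdiff.1 ha).1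
  refine ⟨v + -v', ?_, ?_⟩
  · have h1 : E₁ ∪ E \ E₁ = E := union_sdiff_of_subset hE₁
    rw [← h1]
    exact add_mem_SG disjoint_sdiff hv (neg_mem_SG hv')
  · rw [hc1] at hvL
    rw [hc2] at hvL'
    have h4 : v + -v' - (2 * k) • e = (v - ((n : ℤ) + k) • e) - (v' - ((n : ℤ) - k) • e) := by
      rw [add_smul, sub_smul, mul_smul, two_smul]
      abel
    rw [h4]
    exact L.sub_mem hvL hvL'

end Pool.Agent.Lib.MP_8ac08c_co.OD
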