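import Pool.Agent.Lib.MP_8ac08c_co.OD.Stm

/-!
# MP_8ac08c_co, project OD: piece `sml`
-/

set_option autoImplicit false

open Finset

namespace Pool.Agent.Lib.MP_8ac08c_co.OD

private theorem sml_odd {G : Type} [AddCommGroup G] [Finite G] {κ : ℕ} (ho : Odd κ)
    (hx : ∀ x : G, κ • x = 0) : Odd (Nat.card G) := by
  rw [← Nat.not_even_iff_odd]
  intro he
  have : Fact (Nat.Prime 2) := ⟨Nat.prime_two⟩
  obtain ⟨x, hx2⟩ := exists_prime_addOrderOf_dvd_card' (G := G) 2 he.two_dvd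
  have h1 : 2 ∣ κ := by
    rw [← hx2]
    exact addOrderOf_dvd_of_nsmul_eq_zero (hx x)
  exact (Nat.not_even_iff_odd.2 ho) (even_iff_two_dvd.2 h1)

private theorem sml_exp (l : ℕ) (hl : 100 ≤ l) :
    1000 * ((8 * l + 13) * (2 * l + 1)) ≤ 2 ^ l := by
  induction l, hl using Nat.le_induction with
  | base => norm_num
  | succ n hn ih =>
    rw [pow_succ]
    nlinarith

private theorem sml_log {κ n l : ℕ} (hl : κ < 2 ^ (l + 1)) (hn : n ≤ κ ^ 2) :
    Nat.log 2 n ≤ 2 * l + 1 := by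
  rcases Nat.eq_zero_or_pos n with h0 | h0
  · subst h0
    simp
  · have h1 : n < 2 ^ (2 * l + 2) := by
      have h2 : κ ^ 2 < (2 ^ (l + 1)) ^ 2 := Nat.pow_lt_pow_left hl (by norm_num)
      have h3 : ((2 : ℕ) ^ (l + 1)) ^ 2 = 2 ^ (2 * l + 2) := by
        rw [← pow_mul]
        ring_nf
      omega
    have h4 := Nat.log_lt_of_lt_pow (by omega : n ≠ 0) h1
    omega

theorem p_sml : S_sml := by
  intro hols hcov hrob hfin G _ _ _ κ h t hyp hκ A Z₀ K₀ hA hZ₀ hK₀ h95 h5000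
  have hodd : Odd (Nat.card G) := sml_odd hyp.odd hyp.exp
  obtain ⟨l, hl⟩ : ∃ l, l = Nat.log 2 κ := ⟨_, rfl⟩
  have hκ0 : κ ≠ 0 := by
    intro h0
    rw [h0] at hκ
    norm_num at hκ
  have hκpos : 0 < κ := Nat.pos_of_ne_zero hκ0
  have hl1 : 2 ^ l ≤ κ := by rw [hl]; exact Nat.pow_log_le_self 2 hκ0
  have hl2 : κ < 2 ^ (l + 1) := by rw [hl]; exact Nat.lt_pow_succ_log_self (by norm_num) κ
  have hl3 : 100 ≤ l := by rw [hl]; exact Nat.le_log_of_pow_le (by norm_num) hκ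
  have hexp := (sml_exp l hl3).trans hl1
  have ht : t ≤ l := by
    rw [hl]
    exact Nat.le_log_of_pow_le (by norm_num) (hyp.ge.trans hyp.le)
  -- the robust subset
  obtain ⟨Z, hZ, hZ1, hZ2⟩ := (hrob G G (fun Z : Finset G => AddSubgroup.closure (Z : Set G))
    (fun Z Z' hZZ => AddSubgroup.closure_mono (by exact_mod_cast hZZ)) Z₀).1 κ 64
    (κ * (8 * l + 13))
  obtain ⟨K, hK⟩ : ∃ K, K = AddSubgroup.closure (Z : Set G) := ⟨_, rfl⟩
  rw [← hK] at hZ1 hZ2
  have hle1 : AddSubgroup.closure (Z₀ : Set G) ≤ K₀ := by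
    rw [AddSubgroup.closure_le]
    intro z hz
    exact hK₀ z (by exact_mod_cast hz)
  have hle2 : K ≤ K₀ := by
    rw [hK]
    refine le_trans (AddSubgroup.closure_mono ?_) hle1
    exact_mod_cast hZ
  have hc1 : Nat.card (AddSubgroup.closure (Z₀ : Set G)) ≤ Nat.card K₀ :=
    Nat.card_le_card_of_injective _ (AddSubgroup.inclusion_injective hle1)
  have hc2 : Nat.card K ≤ Nat.card K₀ :=
    Nat.card_le_card_of_injective _ (AddSubgroup.inclusion_injective hle2)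
  obtain ⟨k₀, hk₀⟩ : ∃ k, k = Nat.card (AddSubgroup.closure (Z₀ : Set G)) := ⟨_, rfl⟩
  obtain ⟨k, hk⟩ : ∃ k, k = Nat.card K := ⟨_, rfl⟩
  rw [← hk₀, ← hk] at hZ1
  rw [← hk] at hZ2
  rw [← hk₀] at hc1
  rw [← hk] at hc2
  have hk5 : 5000 * k ≤ κ ^ 2 := (Nat.mul_le_mul_left _ hc2).trans h5000
  have hk05 : 5000 * k₀ ≤ κ ^ 2 := (Nat.mul_le_mul_left _ hc1).trans h5000
  have hlk : Nat.log 2 k ≤ 2 * l + 1 := sml_log hl2 (by omega)
  have hlk0 : Nat.log 2 k₀ ≤ 2 * l + 1 := sml_log hl2 (by omega)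
  -- size of Z
  have hs1 : #(Z₀ \ Z) * 100 ≤ 3 * κ := by
    have h1 : κ * #(Z₀ \ Z) ≤ 2 * 64 * k₀ + κ * (8 * l + 13) * (2 * l + 1) := by
      have h2 : κ * (8 * l + 13) * Nat.log 2 k₀ ≤ κ * (8 * l + 13) * (2 * l + 1) :=
        Nat.mul_le_mul_left _ hlk0
      omega
    have h3 : κ * (#(Z₀ \ Z) * 100) ≤ κ * (3 * κ) := by
      have h4 : κ * (8 * l + 13) * (2 * l + 1) * 1000 ≤ κ * κ := by
        calc κ * (8 * l + 13) * (2 * l + 1) * 1000
            = κ * (1000 * ((8 * l + 13) * (2 * l + 1))) := by ring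
          _ ≤ κ * κ := Nat.mul_le_mul_left _ hexp
      nlinarith
    exact Nat.le_of_mul_le_mul_left h3 hκpos
  have hs2 : #(Z₀ \ Z) + #Z = #Z₀ := card_sdiff_add_card_eq_card hZ
  have hs3 : 92 * κ ≤ 100 * #Z := by omega
  -- the covering
  obtain ⟨m, hm⟩ : ∃ m, m = 64 * k / κ + 1 := ⟨_, rfl⟩
  have hm1 : 64 * k < κ * m := by
    rw [hm]
    exact Nat.lt_mul_div_succ _ hκpos
  have hm2 : κ * m ≤ 64 * k + κ := by
    rw [hm]
    have := Nat.mul_div_le (64 * k) κ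
    linarith [this]
  obtain ⟨b, hb⟩ : ∃ b, b = (m + 4 * Nat.log 2 k + 8) * 1 := ⟨_, rfl⟩
  have hb1 : κ * b ≤ 64 * k + κ * (8 * l + 13) := by
    rw [hb]
    have h1 : κ * (4 * Nat.log 2 k) ≤ κ * (4 * (2 * l + 1)) :=
      Nat.mul_le_mul_left _ (by omega)
    nlinarith
  have hlin : 1000 * (8 * l + 13) ≤ κ := by
    refine le_trans ?_ hexp
    refine Nat.mul_le_mul_left _ ?_
    exact Nat.le_mul_of_pos_right _ (by omega)
  have hb2 : b * 50 ≤ κ := by
    have h3 : κ * (b * 50) ≤ κ * κ := by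
      have h4 : κ * (1000 * (8 * l + 13)) ≤ κ * κ := Nat.mul_le_mul_left _ hlin
      nlinarith
    exact Nat.le_of_mul_le_mul_left h3 hκpos
  have hκbig : 1000 ≤ κ := by omega
  have hKodd : Odd (Nat.card K) := Odd.of_dvd_nat hodd (AddSubgroup.card_addSubgroup_dvd_card K)
  have hZK : ∀ z ∈ Z, z ∈ K := by
    intro z hz
    rw [hK]
    exact AddSubgroup.subset_closure (by exact_mod_cast hz)
  obtain ⟨R, hR, hR1, hR2⟩ := hcov hols G K Z 1 b (κ / 2) m hKodd (by omega)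
    (by
      intro U hU
      refine ⟨Z \ U, ?_, ?_, ?_⟩
      · have h1 : #Z - #U ≤ #(Z \ U) := le_card_sdiff U Z
        omega
      · intro v hv
        rw [mem_sdiff] at hv
        refine ⟨hZK v hv.1, {v}, ?_, ?_, ?_, ?_⟩
        · exact singleton_subset_iff.2 hv.1
        · exact disjoint_singleton_left.2 hv.2
        · simp
        · exact mem_SG_single.2 (Or.inl rfl)
      · apply hZ2 _ sdiff_subset
        have h1 : #(Z \ (Z \ U)) ≤ #U := by
          rw [sdiff_sdiff_right_self]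
          exact card_le_card inter_subset_right
        refine le_trans (Nat.mul_le_mul_left κ (h1.trans hU)) hb1)
    (by
      rw [← hk]
      have h1 : κ ≤ 4 * (κ / 2) := by omega
      have h2 : κ * m ≤ 4 * (κ / 2) * m := Nat.mul_le_mul_right _ h1
      have h3 : 4 * (κ / 2) * m = 4 * (κ / 2 * m) := by ring
      omega)
    (by rw [← hk, ← hb])
  rw [← hk, ← hb] at hR1
  have hZA : Z ⊆ A := hZ.trans hZ₀
  have hs4 : #(A \ Z) + #Z = #A := card_sdiff_add_card_eq_card hZA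
  have hl4 : 100 * l ≤ κ := by omega
  refine hfin G κ h t hyp A Z R K hA hZA hZK hR hR2 ?_ ?_
  · omega
  · have h1 : #Z ≤ Nat.card K := by
      have h2 : (Z : Set G) ⊆ (K : Set G) := fun z hz => hZK z (by exact_mod_cast hz)
      have h3 : Nat.card (Z : Set G) ≤ Nat.card (K : Set G) :=
        Nat.card_le_card_of_injective _ (Set.inclusion_injective h2)
      have h4 : Nat.card (Z : Set G) = #Z := by simp
      rw [h4] at h3
      exact h3
    omega

end Pool.Agent.Lib.MP_8ac08c_co.OD
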