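import Pool.Agent.Lib.MP_8ac08c_co.OD.Stm

/-!
# MP_8ac08c_co, project OD, piece sp2: covering `L` in the special case
-/

set_option autoImplicit false

open Finset

namespace Pool.Agent.Lib.MP_8ac08c_co.OD

/-- the arithmetic of the logarithm -/
private theorem sp2_log (κ l : ℕ) (hκ : 2 ^ 100 ≤ κ) (hl : l ≤ κ) :
    2 ^ 10 * ((80 + 4 * Nat.log 2 l + 8) * 2) ≤ κ := by
  have h0 : κ ≠ 0 := by
    have : 0 < 2 ^ 100 := by positivity
    omega
  have h1 : Nat.log 2 l ≤ Nat.log 2 κ := Nat.log_mono_right hl
  have h2 : 2 ^ Nat.log 2 κ ≤ κ := Nat.pow_log_le_self 2 h0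
  have h3 : 100 ≤ Nat.log 2 κ := Nat.le_log_of_pow_le (by norm_num) hκ
  have h4 : ∀ x : ℕ, 100 ≤ x → 2 ^ 10 * ((80 + 4 * x + 8) * 2) ≤ 2 ^ x := by
    intro x hx
    induction x, hx using Nat.le_induction with
    | base => norm_num
    | succ x hx ih =>
      rw [pow_succ 2 x]
      omega
  have h5 := h4 _ h3
  omega

/-- the representative in `g + L` -/
private theorem sp2_n {G : Type} [AddCommGroup G] (L : AddSubgroup G) (g a : G)
    (h : a - g ∈ L ∨ a + g ∈ L) : ∃ x : G, (x = a ∨ x = -a) ∧ x - g ∈ L := by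
  rcases h with h | h
  · exact ⟨a, Or.inl rfl, h⟩
  · refine ⟨-a, Or.inr rfl, ?_⟩
    have := L.neg_mem h
    rwa [show -(a + g) = -a - g by abel] at this

theorem p_sp2 : S_sp2 := by
  intro hols hcov G _ _ _ κ U L g hodd hκ hU hcU hL
  classical
  have hoddL : Odd (Nat.card L) := Odd.of_dvd_nat hodd (AddSubgroup.card_addSubgroup_dvd_card L)
  have hlog := sp2_log κ (Nat.card L) hκ hL
  have hκ1 : 1000000 ≤ κ := le_trans (by norm_num) hκ
  clear hκ
  have hn : ∀ a : G, ∃ x : G, a ∈ U → (x = a ∨ x = -a) ∧ x - g ∈ L := by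
    intro a
    by_cases ha : a ∈ U
    · obtain ⟨x, hx⟩ := sp2_n L g a (hU a ha)
      exact ⟨x, fun _ => hx⟩
    · exact ⟨a, fun h => absurd h ha⟩
  choose n hn using hn
  obtain ⟨R, hR, hRc, hRL⟩ := hcov hols G L U 2 (κ / 2 ^ 10) (κ / 4) 80 hoddL (by omega) (by
    intro U' hU'
    obtain ⟨V, hV⟩ : ∃ V, V = U \ U' := ⟨_, rfl⟩
    have hVU : V ⊆ U := by rw [hV]; exact sdiff_subset
    have hVc : #U ≤ #V + #U' := by
      rw [hV]
      have := le_card_sdiff U' U
      omega
    obtain ⟨N, hN⟩ : ∃ N, N = V.image n := ⟨_, rfl⟩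
    have hNc : #V ≤ 2 * #N := by
      rw [hN]
      apply card_le_mul_card_image
      intro x _
      have hsub : V.filter (fun a => n a = x) ⊆ {x, -x} := by
        intro a ha
        rw [mem_filter] at ha
        rw [mem_insert, mem_singleton]
        rcases (hn a (hVU ha.1)).1 with h | h
        · left
          rw [← h, ha.2]
        · right
          rw [← ha.2, h, neg_neg]
      exact (card_le_card hsub).trans card_le_two
    obtain ⟨C, hC⟩ : ∃ C, C = (N ×ˢ N).image (fun p => p.1 - p.2) := ⟨_, rfl⟩
    have hNpos : 0 < #N := by omega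
    obtain ⟨y0, hy0⟩ := card_pos.1 hNpos
    have hCc : #N ≤ #C := by
      rw [← card_image_of_injective N (sub_left_injective (b := y0))]
      apply card_le_card
      intro z hz
      rw [mem_image] at hz
      obtain ⟨x, hx, rfl⟩ := hz
      rw [hC, mem_image]
      exact ⟨(x, y0), mem_product.2 ⟨hx, hy0⟩, rfl⟩
    have hCmem : ∀ v ∈ C, ∃ a ∈ V, ∃ a' ∈ V, v = n a - n a' := by
      intro v hv
      rw [hC, mem_image] at hv
      obtain ⟨⟨x, y⟩, hp, rfl⟩ := hv
      rw [mem_product] at hp
      obtain ⟨hx, hy⟩ := hp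
      simp only at hx hy
      rw [hN, mem_image] at hx hy
      obtain ⟨a, ha, rfl⟩ := hx
      obtain ⟨a', ha', rfl⟩ := hy
      exact ⟨a, ha, a', ha', rfl⟩
    have hCL : ∀ v ∈ C, v ∈ L := by
      intro v hv
      obtain ⟨a, ha, a', ha', rfl⟩ := hCmem v hv
      have h1 := L.sub_mem (hn a (hVU ha)).2 (hn a' (hVU ha')).2
      rwa [show n a - g - (n a' - g) = n a - n a' by abel] at h1
    refine ⟨C, by omega, fun v hv => ⟨hCL v hv, ?_⟩, ?_⟩
    · obtain ⟨a, ha, a', ha', rfl⟩ := hCmem v hv
      have hdis : ∀ x ∈ V, x ∉ U' := by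
        intro x hx
        rw [hV, mem_sdiff] at hx
        exact hx.2
      by_cases haa : a = a'
      · refine ⟨∅, empty_subset _, disjoint_empty_left _, by simp, ?_⟩
        rw [haa, sub_self]
        exact zero_mem_SG_empty
      · refine ⟨{a} ∪ {a'}, ?_, ?_, ?_, ?_⟩
        · intro x hx
          rw [mem_union, mem_singleton, mem_singleton] at hx
          rcases hx with rfl | rfl
          · exact hVU ha
          · exact hVU ha'
        · rw [disjoint_left]
          intro x hx
          rw [mem_union, mem_singleton, mem_singleton] at hx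
          rcases hx with rfl | rfl
          · exact hdis _ ha
          · exact hdis _ ha'
        · exact (card_union_le _ _).trans (by simp)
        · rw [sub_eq_add_neg]
          apply add_mem_SG
          · rw [disjoint_singleton]
            exact haa
          · exact mem_SG_single.2 (hn a (hVU ha)).1
          · exact neg_mem_SG (mem_SG_single.2 (hn a' (hVU ha')).1)
    · have hle : AddSubgroup.closure (C : Set G) ≤ L := by
        rw [AddSubgroup.closure_le]
        intro v hv
        exact hCL v hv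
      by_contra hne
      have hdvd : Nat.card (AddSubgroup.closure (C : Set G)) ∣ Nat.card L :=
        AddSubgroup.card_dvd_of_le hle
      obtain ⟨q, hq⟩ := hdvd
      have hcc : #C ≤ Nat.card (AddSubgroup.closure (C : Set G)) := by
        have h1 : Nat.card (C : Set G) ≤ Nat.card (AddSubgroup.closure (C : Set G)) :=
          Nat.card_le_card_of_injective (Set.inclusion AddSubgroup.subset_closure)
            (Set.inclusion_injective _)
        simpa using h1
      have hqodd : Odd q := by
        rw [hq] at hoddL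
        exact (Nat.odd_mul.1 hoddL).2
      have hq1 : q ≠ 1 := by
        intro h1
        apply hne
        apply AddSubgroup.eq_of_le_of_card_ge hle
        rw [hq, h1, mul_one]
      have hq3 : 3 ≤ q := by
        obtain ⟨r, hr⟩ := hqodd
        omega
      have h5 : Nat.card (AddSubgroup.closure (C : Set G)) * 3 ≤ κ := by
        refine le_trans ?_ hL
        rw [hq]
        exact Nat.mul_le_mul_left _ hq3
      omega) (by omega) (by omega)
  refine ⟨R, hR, ?_, hRL⟩
  have h6 := Nat.mul_le_mul_left (2 ^ 10) hRc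
  exact h6.trans hlog

end Pool.Agent.Lib.MP_8ac08c_co.OD
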