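import Pool.Agent.Lib.MP_8ac08c_co.OD.Stm

set_option autoImplicit false

open Finset

namespace Pool.Agent.Lib.MP_8ac08c_co.OD

private lemma spc_pow (l : ℕ) (hl : 100 ≤ l) : 1000 * (10 * l + 12) ≤ 2 ^ l := by
  induction l, hl using Nat.le_induction with
  | base => norm_num
  | succ n hn ih =>
    rw [pow_succ]
    omega

private lemma spc_odd {G : Type} [AddCommGroup G] [Fintype G] (κ : ℕ) (ho : Odd κ)
    (he : ∀ x : G, κ • x = 0) : Odd (Nat.card G) := by
  by_contra hne
  rw [Nat.not_odd_iff_even] at hne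
  have h2 : 2 ∣ Nat.card G := hne.two_dvd
  haveI : Fact (Nat.Prime 2) := ⟨Nat.prime_two⟩
  obtain ⟨x, hx⟩ := exists_prime_addOrderOf_dvd_card' (G := G) 2 h2
  have h3 : addOrderOf x ∣ κ := addOrderOf_dvd_of_nsmul_eq_zero (he x)
  rw [hx] at h3
  have h4 : Even κ := (even_iff_two_dvd).2 h3
  exact (Nat.not_even_iff_odd.2 ho) h4

private lemma spc_J {κ : ℕ} [NeZero κ] (v : ZMod κ) (h : J v = 1) : v = 1 ∨ v = -1 := by
  unfold J at h
  have hv : ((v.val : ℕ) : ZMod κ) = v := ZMod.natCast_zmod_val v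
  split_ifs at h with h1
  · left
    rw [← hv, h, Nat.cast_one]
  · right
    have hlt : v.val < κ := ZMod.val_lt v
    have h2 : v.val + 1 = κ := by omega
    have h3 : ((v.val + 1 : ℕ) : ZMod κ) = 0 := by
      rw [h2]
      exact ZMod.natCast_self κ
    rw [Nat.cast_add, hv, Nat.cast_one] at h3
    exact eq_neg_of_add_eq_zero_left h3

theorem p_spc : S_spc := by
  intro hols hcov hsp2 hsge hfin2 hjsm hrsm hc1b G _ _ _ κ h t hyp hκ π g A hπg hker hA hU
  have hκ0 : 0 < κ := lt_of_lt_of_le (by positivity) hκ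
  haveI : NeZero κ := ⟨hκ0.ne'⟩
  have hκ3 : 2 < κ := lt_of_lt_of_le (by norm_num) hκ
  set L := π.ker with hL
  set U := A.filter fun a => J (π a) = 1 with hUdef
  have hUA : U ⊆ A := filter_subset _ _
  have hodd : Odd (Nat.card G) := spc_odd κ hyp.odd hyp.exp
  have hUL : ∀ a ∈ U, a - g ∈ L ∨ a + g ∈ L := by
    intro a ha
    rw [hUdef, mem_filter] at ha
    rcases spc_J _ ha.2 with h1 | h1
    · left
      rw [hL, AddMonoidHom.mem_ker, map_sub, h1, hπg, sub_self]
    · right
      rw [hL, AddMonoidHom.mem_ker, map_add, h1, hπg, neg_add_cancel]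
  have hU9 : 9 * κ ≤ 10 * #U := by omega
  obtain ⟨R, hRU, hR, hRL⟩ := hsp2 hols hcov G κ U L g hodd hκ hUL hU9 (by rw [hker]; exact hyp.le)
  -- the size of `U`
  have hU2 : #U ≤ 2 * h := by
    classical
    let S : Finset G := univ.filter fun x => x ∈ L
    have hS : #S = h := by
      rw [← hker, Nat.card_eq_fintype_card, Fintype.card_subtype]
    have hsub : U ⊆ (S.image fun x => x + g) ∪ (S.image fun x => x - g) := by
      intro a ha
      rw [mem_union, mem_image, mem_image]
      rcases hUL a ha with h1 | h1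
      · left
        exact ⟨a - g, by simp [S, h1], by abel⟩
      · right
        exact ⟨a + g, by simp [S, h1], by abel⟩
    calc #U ≤ #((S.image fun x => x + g) ∪ (S.image fun x => x - g)) := card_le_card hsub
      _ ≤ #(S.image fun x => x + g) + #(S.image fun x => x - g) := card_union_le _ _
      _ ≤ #S + #S := Nat.add_le_add card_image_le card_image_le
      _ = 2 * h := by rw [hS]; ring
  -- sizes of logarithms
  set l := Nat.log 2 κ with hl
  have hl100 : 100 ≤ l := by
    rw [hl]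
    exact (Nat.le_log_iff_pow_le (by norm_num) hκ0.ne').2 hκ
  have h2l : 2 ^ l ≤ κ := Nat.pow_log_le_self 2 hκ0.ne'
  have h2l' : κ < 2 ^ (l + 1) := Nat.lt_pow_succ_log_self (by norm_num) κ
  have hlogG : Nat.log 2 (Nat.card G) ≤ 2 * l + 1 := by
    have h1 : Nat.card G < 2 ^ (2 * l + 2) := by
      rw [hyp.card]
      calc h * κ ≤ κ * κ := Nat.mul_le_mul_right _ hyp.le
        _ < 2 ^ (l + 1) * 2 ^ (l + 1) := Nat.mul_lt_mul'' h2l' h2l'
        _ = 2 ^ (2 * l + 2) := by rw [← pow_add]; congr 1; ring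
    have h2 : Nat.log 2 (Nat.card G) < 2 * l + 2 := Nat.log_lt_of_lt_pow Nat.card_pos.ne' h1
    omega
  have htl : t ≤ l := by
    rw [hl]
    exact (Nat.le_log_iff_pow_le (by norm_num) hκ0.ne').2 (hyp.ge.trans hyp.le)
  have hpow := (spc_pow l hl100).trans h2l
  set e₀ := 2 * (t + 2 * (Nat.log 2 (Nat.card G) + 2)) with he₀
  have he₀' : 1000 * e₀ ≤ κ := by
    have : e₀ ≤ 10 * l + 12 := by omega
    omega
  -- the set `E`
  have hcardUR : #(U \ R) = #U - #R := card_sdiff_of_subset hRU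
  have hRU' : #R ≤ #U := card_le_card hRU
  obtain ⟨E, hEU, hE⟩ := exists_subset_card_eq (s := U \ R) (n := e₀) (by rw [hcardUR]; omega)
  have hEU' : E ⊆ U := hEU.trans sdiff_subset
  have hdRE : Disjoint R E := by
    rw [disjoint_left]
    intro x hx hx'
    exact (mem_sdiff.1 (hEU hx')).2 hx
  have hfin : ∀ W₀ : Finset G, W₀ ⊆ A → Disjoint R W₀ → Disjoint E W₀ → Odd (#R + #W₀) →
      (∃ z ∈ SG W₀, z ∈ L) → Sol A κ := by
    intro W₀ h1 h2 h3 h4 h5
    refine hfin2 hsge G κ h t hyp A R E W₀ L g 2 hA (hRU.trans hUA) (hEU'.trans hUA) h1 hdRE h2 h3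
      hRL (fun a ha => hUL a (hEU' ha)) ?_ ?_ ?_ ?_ h4 h5
    · rw [hker]
      omega
    · intro k hk0 hk2 hk
      rw [hL, AddMonoidHom.mem_ker, map_nsmul, hπg, nsmul_one] at hk
      have h6 : κ ∣ k := (ZMod.natCast_eq_zero_iff k κ).1 hk
      have h7 := Nat.le_of_dvd hk0 h6
      omega
    · rw [hE, he₀]
      exact even_two_mul _
    · rw [hE]
  rcases Nat.even_or_odd #R with hRe | hRo
  · by_cases hW : ∃ W₀ ⊆ A \ (R ∪ E), Odd #W₀ ∧ ∃ z ∈ SG W₀, z ∈ L
    · obtain ⟨W₀, h1, h2, h3⟩ := hW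
      refine hfin W₀ (h1.trans sdiff_subset) ?_ ?_ (hRe.add_odd h2) h3
      · rw [disjoint_left]
        intro x hx hx'
        exact (mem_sdiff.1 (h1 hx')).2 (mem_union_left _ hx)
      · rw [disjoint_left]
        intro x hx hx'
        exact (mem_sdiff.1 (h1 hx')).2 (mem_union_right _ hx)
    · set X := A \ (R ∪ E) with hX
      have hREU : R ∪ E ⊆ U := union_subset hRU hEU'
      have hXU : X.filter (fun a => J (π a) = 1) = U \ (R ∪ E) := by
        ext a
        simp only [hX, hUdef, mem_filter, mem_sdiff]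
        tauto
      have hXnU : X.filter (fun a => ¬ J (π a) = 1) = A.filter (fun a => ¬ J (π a) = 1) := by
        ext a
        simp only [hX, mem_filter, mem_sdiff]
        constructor
        · rintro ⟨⟨h1, _⟩, h2⟩
          exact ⟨h1, h2⟩
        · rintro ⟨h1, h2⟩
          refine ⟨⟨h1, fun h3 => h2 ?_⟩, h2⟩
          have := hREU h3
          rw [hUdef, mem_filter] at this
          exact this.2
      have hu : #(U \ (R ∪ E)) = #U - (#R + e₀) := by
        rw [card_sdiff_of_subset hREU, card_union_of_disjoint hdRE, hE]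
      have hu93 : 93 * κ ≤ 100 * #(U \ (R ∪ E)) := by
        rw [hu]
        omega
      have hsum : ∑ a ∈ X, J (π a) < κ := by
        by_contra hcon
        apply hW
        obtain ⟨W, hW1, hW2, z, hz1, hz2⟩ := hjsm G κ π X hyp.odd (by rw [hXU]; omega)
          (not_lt.1 hcon)
        exact ⟨W, hW1, hW2, z, hz1, hz2⟩
      have hsplit : ∑ a ∈ X, J (π a) = #(U \ (R ∪ E)) +
          ∑ a ∈ A.filter (fun a => ¬ J (π a) = 1), J (π a) := by
        rw [← sum_filter_add_sum_filter_not X (fun a => J (π a) = 1), hXU, hXnU]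
        congr 1
        rw [card_eq_sum_ones]
        apply sum_congr rfl
        intro a ha
        have := (mem_sdiff.1 ha).1
        rw [hUdef, mem_filter] at this
        exact this.2
      refine hc1b hrsm G κ h t hyp hκ π g A hπg hker hA hU ?_
      omega
  · refine hfin ∅ (empty_subset _) (disjoint_empty_right _) (disjoint_empty_right _) ?_ ?_
    · simpa using hRo
    · exact ⟨0, zero_mem_SG_empty, L.zero_mem⟩

end Pool.Agent.Lib.MP_8ac08c_co.OD
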