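import Pool.Agent.Lib.MP_8ac08c_co.OD.Stm

/-!
# MP_8ac08c_co, project OD: piece spr (the special case: `G / L` is cyclic of order `κ`)
-/

set_option autoImplicit false

open Finset

namespace Pool.Agent.Lib.MP_8ac08c_co.OD

/-- the order of `G` is odd -/
private theorem spr_odd (G : Type) [AddCommGroup G] [Fintype G] (κ h t : ℕ)
    (H : Hyp G κ h t) : Odd (Nat.card G) := by
  rw [← Nat.not_even_iff_odd]
  intro he
  have : Fact (Nat.Prime 2) := ⟨Nat.prime_two⟩
  obtain ⟨x, hx⟩ := exists_prime_addOrderOf_dvd_card' (G := G) 2 he.two_dvd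
  have h1 : addOrderOf x ∣ κ := addOrderOf_dvd_of_nsmul_eq_zero (H.exp x)
  rw [hx] at h1
  have h2 := H.odd
  rw [← Nat.not_even_iff_odd] at h2
  exact h2 (even_iff_two_dvd.2 h1)

/-- at most two cosets -/
private theorem spr_card (G : Type) [AddCommGroup G] [Fintype G] [DecidableEq G]
    (V : Finset G) (L : AddSubgroup G) (g : G) (hV : ∀ a ∈ V, a - g ∈ L ∨ a + g ∈ L) :
    #V ≤ 2 * Nat.card L := by
  classical
  set Lf : Finset G := Finset.univ.filter fun x => x ∈ L with hLf
  have hc : #Lf = Nat.card L := by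
    rw [Nat.card_eq_fintype_card, Fintype.card_subtype]
  have hsub : V ⊆ (Lf.image fun x => x + g) ∪ (Lf.image fun x => x - g) := by
    intro a ha
    rw [mem_union, mem_image, mem_image]
    rcases hV a ha with h | h
    · left
      exact ⟨a - g, by rw [hLf, mem_filter]; exact ⟨mem_univ _, h⟩, by abel⟩
    · right
      exact ⟨a + g, by rw [hLf, mem_filter]; exact ⟨mem_univ _, h⟩, by abel⟩
  have h1 := card_le_card hsub
  have h2 : #((Lf.image fun x => x + g) ∪ (Lf.image fun x => x - g)) ≤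
      #(Lf.image fun x => x + g) + #(Lf.image fun x => x - g) := card_union_le _ _
  have h3 : #(Lf.image fun x => x + g) ≤ #Lf := card_image_le
  have h4 : #(Lf.image fun x => x - g) ≤ #Lf := card_image_le
  omega

/-- **spr.** -/
theorem p_spr : S_spr := by
  intro G _ _ _ κ h t H hκ V L g hV hcV hg
  have hodd := spr_odd G κ h t H
  have hVL := spr_card G V L g hV
  have hκ0 : 0 < κ := by omega
  have : NeZero κ := ⟨hκ0.ne'⟩
  set q : G →+ G ⧸ L := QuotientAddGroup.mk' L with hq
  have hqz : ∀ x : G, q x = 0 ↔ x ∈ L := fun x => QuotientAddGroup.eq_zero_iff x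
  have hord : addOrderOf (q g) = κ := by
    rw [addOrderOf_eq_iff hκ0]
    refine ⟨?_, ?_⟩
    · rw [← map_nsmul, H.exp g, map_zero]
    · intro m hm hm0 hz
      rw [← map_nsmul] at hz
      exact hg m hm0 hm ((hqz _).1 hz)
  have hcard : Nat.card G = Nat.card (G ⧸ L) * Nat.card L :=
    AddSubgroup.card_eq_card_quotient_mul_card_addSubgroup L
  have hdvd : κ ∣ Nat.card (G ⧸ L) := by
    have := addOrderOf_dvd_natCard (q g)
    rwa [hord] at this
  obtain ⟨j, hj⟩ := hdvd
  have hhL : h = j * Nat.card L := by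
    have h1 : κ * h = κ * (j * Nat.card L) := by
      rw [← mul_assoc, ← hj, ← hcard, H.card, mul_comm]
    exact Nat.eq_of_mul_eq_mul_left hκ0 h1
  have hjodd : Odd j := by
    have h1 : j ∣ Nat.card G := ⟨κ * Nat.card L, by
      rw [hcard, hj]
      ring⟩
    exact hodd.of_dvd_nat h1
  have hL0 : 0 < Nat.card L := Nat.card_pos
  have hj1 : j = 1 := by
    have h1 : j < 3 := by
      by_contra hcon
      push Not at hcon
      have h2 : 3 * Nat.card L ≤ j * Nat.card L := Nat.mul_le_mul_right _ hcon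
      have h3 := H.le
      omega
    obtain ⟨i, hi⟩ := hjodd
    omega
  have hcq : Nat.card (G ⧸ L) = κ := by
    rw [hj, hj1, mul_one]
  -- the isomorphism
  set f : {f : ℤ →+ G ⧸ L // f κ = 0} := ⟨zmultiplesHom (G ⧸ L) (q g), by
    rw [zmultiplesHom_apply, natCast_zsmul, ← hord]
    exact addOrderOf_nsmul_eq_zero _⟩ with hf
  have hinj : Function.Injective (ZMod.lift κ f) := by
    rw [ZMod.lift_injective]
    intro m hm
    have h1 : m • q g = 0 := by
      rw [hf] at hm
      simpa [zmultiplesHom_apply] using hm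
    have h2 : (addOrderOf (q g) : ℤ) ∣ m := addOrderOf_dvd_iff_zsmul_eq_zero.2 h1
    rw [hord] at h2
    exact (ZMod.intCast_zmod_eq_zero_iff_dvd m κ).2 h2
  have hbij : Function.Bijective (ZMod.lift κ f) := by
    rw [Nat.bijective_iff_injective_and_card]
    exact ⟨hinj, by rw [hcq, Nat.card_zmod]⟩
  set e : ZMod κ ≃+ G ⧸ L := AddEquiv.ofBijective (ZMod.lift κ f) hbij with he
  have he1 : e 1 = q g := by
    have h1 : e 1 = ZMod.lift κ f ((1 : ℤ) : ZMod κ) := by
      rw [he]
      simp
    rw [h1, ZMod.lift_coe, hf]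
    simp [zmultiplesHom_apply]
  refine ⟨(e.symm : G ⧸ L →+ ZMod κ).comp q, ?_, ?_, ?_⟩
  · rw [AddMonoidHom.comp_apply, ← he1]
    simp
  · intro x
    rw [AddMonoidHom.comp_apply]
    rw [← hqz x]
    constructor
    · intro hx
      have : e.symm (q x) = 0 := hx
      exact (AddEquiv.map_eq_zero_iff e.symm).1 this
    · intro hx
      rw [hx, map_zero]
  · rw [hhL, hj1, one_mul]

end Pool.Agent.Lib.MP_8ac08c_co.OD
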