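import Pool.Agent.Lib.MP_8ac08c_co.OD.Stm

set_option autoImplicit false

open Finset

namespace Pool.Agent.Lib.MP_8ac08c_co.OD

private theorem st_bd_neg {Γ : Type} [AddCommGroup Γ] [DecidableEq Γ] (S : Finset Γ)
    (x : Γ) : bd S (-x) = bd S x := by
  have h1 : ∀ y : Γ, bd S y + #{s ∈ S | s + y ∈ S} = #S := by
    intro y
    unfold bd
    rw [add_comm]
    exact card_filter_add_card_filter_not (fun s => s + y ∈ S)
  have h2 : #{s ∈ S | s + -x ∈ S} = #{s ∈ S | s + x ∈ S} := by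
    apply card_bij (fun b _ => b + -x)
    · intro b hb
      rw [mem_filter] at hb ⊢
      exact ⟨hb.2, by simpa using hb.1⟩
    · intro a _ b _ h
      exact add_right_cancel h
    · intro b hb
      rw [mem_filter] at hb
      refine ⟨b + x, ?_, by simp⟩
      rw [mem_filter]
      exact ⟨hb.2, by simpa using hb.1⟩
  have h3 := h1 x
  have h4 := h1 (-x)
  omega

private theorem st_bd_zero {Γ : Type} [AddCommGroup Γ] [DecidableEq Γ] (S : Finset Γ) :
    bd S (0 : Γ) = 0 := by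
  unfold bd
  rw [card_eq_zero, filter_eq_empty_iff]
  intro s hs
  simp [hs]

private theorem st_half {Γ : Type} [AddCommGroup Γ] (N : ℕ) (hN : Odd N)
    (h : ∀ x : Γ, N • x = 0) : ∃ j : ℕ, ∀ a : Γ, j • (a + a) = a := by
  obtain ⟨m, hm⟩ := hN
  refine ⟨m + 1, fun a => ?_⟩
  have h1 := h a
  rw [hm] at h1
  have h2 : (m + 1) • (a + a) = (2 * m + 1) • a + a := by
    rw [← two_nsmul, smul_smul, ← succ_nsmul]
    congr 1
    ring
  rw [h2, h1, zero_add]

/-- one more element -/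
private theorem st_ins {Γ : Type} [AddCommGroup Γ] [Fintype Γ] [DecidableEq Γ] (U : Finset Γ)
    (a : Γ) (ha : a ∉ U) : #(SG U) + bd (SG U) (a + a) ≤ #(SG (insert a U)) := by
  have hd : Disjoint U ({a} : Finset Γ) := by
    rw [disjoint_singleton_right]
    exact ha
  obtain ⟨h1, h2⟩ := SG_grow (S := SG U) (W := U) (D := {a}) (Subset.refl _) hd (v := a)
    (mem_SG_single.2 (Or.inl rfl))
  have h3 : U ∪ {a} = insert a U := by
    rw [union_comm]
    rfl
  rw [h3] at h1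
  rw [← h2]
  exact card_le_card h1

private theorem st_mono {Γ : Type} [AddCommGroup Γ] [Fintype Γ] [DecidableEq Γ] (U U' : Finset Γ)
    (h : U ⊆ U') : #(SG U) ≤ #(SG U') := by
  have h1 : U ∪ (U' \ U) = U' := union_sdiff_of_subset h
  have hd : Disjoint U (U' \ U) := disjoint_sdiff
  obtain ⟨b, hb⟩ := SG_nonempty (U' \ U)
  have h2 : (SG U).image (fun x => x + b) ⊆ SG U' := by
    intro z hz
    rw [mem_image] at hz
    obtain ⟨x, hx, rfl⟩ := hz
    rw [← h1]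
    exact add_mem_SG hd hx hb
  have h3 := card_le_card h2
  rw [card_image_of_injective _ (add_left_injective b)] at h3
  exact h3

/-- one step of growth -/
private theorem st_step (hols : S_ols) {Γ : Type} [AddCommGroup Γ] [Fintype Γ] [DecidableEq Γ]
    (κ : ℕ) (Z : Finset Γ) (hodd : Odd (Fintype.card Γ))
    (hgen : ∀ Z' ⊆ Z, 2 ^ 13 * #(Z \ Z') ≤ κ → AddSubgroup.closure (Z' : Set Γ) = ⊤)
    (hZ : 8 * κ ≤ 10 * #Z) (U : Finset Γ) (hU : U ⊆ Z) (hUc : 2 ^ 14 * #U ≤ κ)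
    (hS : 2 * #(SG U) ≤ Fintype.card Γ) :
    ∃ U' ⊆ Z, #U' ≤ #U + 1 ∧
      min (16 * #(SG U)) κ + 32 * #(SG U) ≤ 32 * #(SG U') := by
  set V : Finset Γ := Z \ U with hVdef
  have hVcl : AddSubgroup.closure (V : Set Γ) = ⊤ := by
    apply hgen V sdiff_subset
    rw [hVdef, Finset.sdiff_sdiff_eq_self hU]
    omega
  have hVc : #V = #Z - #U := card_sdiff_of_subset hU
  set N := Fintype.card Γ with hNdef
  obtain ⟨j, hj⟩ := st_half (Γ := Γ) N hodd (fun x => card_nsmul_eq_zero)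
  set C : Finset Γ := insert 0 ((V.image fun a => a + a) ∪ (V.image fun a => -(a + a))) with hC
  have h0 : (0 : Γ) ∈ C := mem_insert_self _ _
  have hmem : ∀ d ∈ C, d = 0 ∨ (∃ a ∈ V, a + a = d) ∨ (∃ a ∈ V, -(a + a) = d) := by
    intro d hd
    rw [hC, mem_insert, mem_union, mem_image, mem_image] at hd
    exact hd
  have hin1 : ∀ a ∈ V, a + a ∈ C := by
    intro a ha
    rw [hC]
    exact mem_insert_of_mem (mem_union_left _ (mem_image_of_mem _ ha))
  have hin2 : ∀ a ∈ V, -(a + a) ∈ C := by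
    intro a ha
    rw [hC]
    exact mem_insert_of_mem (mem_union_right _ (mem_image_of_mem (fun a => -(a + a)) ha))
  have hneg : ∀ d ∈ C, -d ∈ C := by
    intro d hd
    rcases hmem d hd with h | ⟨a, ha, h⟩ | ⟨a, ha, h⟩
    · rw [h, neg_zero]
      exact h0
    · rw [← h]
      exact hin2 a ha
    · rw [← h, neg_neg]
      exact hin1 a ha
  have hcl : AddSubgroup.closure (C : Set Γ) = ⊤ := by
    rw [eq_top_iff, ← hVcl, AddSubgroup.closure_le]
    intro a ha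
    have h1 : a + a ∈ AddSubgroup.closure (C : Set Γ) :=
      AddSubgroup.subset_closure (hin1 a ha)
    have h2 := (AddSubgroup.closure (C : Set Γ)).nsmul_mem h1 j
    rw [hj] at h2
    exact h2
  have hcard : #V ≤ #C := by
    have h1 : #(V.image fun a => a + a) = #V := by
      apply card_image_of_injective
      intro a b hab
      have h2 : a + a = b + b := hab
      rw [← hj a, ← hj b, h2]
    rw [← h1]
    apply card_le_card
    intro z hz
    rw [mem_image] at hz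
    obtain ⟨a, ha, rfl⟩ := hz
    exact hin1 a ha
  have hSpos : 0 < #(SG U) := (SG_nonempty U).card_pos
  obtain ⟨x, hxC, hx⟩ := hols Γ C (SG U) hneg h0 hcl (SG_nonempty U)
  have hx2 : min (16 * #(SG U)) κ ≤ 32 * bd (SG U) x := by
    rcases Nat.le_total (8 * #(SG U)) (min (8 * (Fintype.card Γ - #(SG U))) #C) with h | h
    · rw [min_eq_left h] at hx
      have := min_le_left (16 * #(SG U)) κ
      omega
    · rw [min_eq_right h] at hx
      rcases Nat.le_total (8 * (Fintype.card Γ - #(SG U))) #C with h' | h'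
      · rw [min_eq_left h'] at hx
        have := min_le_left (16 * #(SG U)) κ
        omega
      · rw [min_eq_right h'] at hx
        have := min_le_right (16 * #(SG U)) κ
        omega
  have key : ∀ a ∈ V, min (16 * #(SG U)) κ ≤ 32 * bd (SG U) (a + a) →
      ∃ U' ⊆ Z, #U' ≤ #U + 1 ∧ min (16 * #(SG U)) κ + 32 * #(SG U) ≤ 32 * #(SG U') := by
    intro a ha hb
    rw [hVdef, mem_sdiff] at ha
    refine ⟨insert a U, ?_, card_insert_le _ _, ?_⟩
    · intro z hz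
      rw [mem_insert] at hz
      rcases hz with rfl | hz
      · exact ha.1
      · exact hU hz
    · have := st_ins U a ha.2
      omega
  rcases hmem x hxC with h | ⟨a, ha, h⟩ | ⟨a, ha, h⟩
  · refine ⟨U, hU, by omega, ?_⟩
    rw [h, st_bd_zero] at hx2
    omega
  · exact key a ha (by rw [h]; exact hx2)
  · apply key a ha
    rw [← st_bd_neg, h]
    exact hx2

/-- the first phase: multiplication by `3 / 2` -/
private theorem st_ph1 (hols : S_ols) {Γ : Type} [AddCommGroup Γ] [Fintype Γ] [DecidableEq Γ]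
    (κ : ℕ) (Z : Finset Γ) (hodd : Odd (Fintype.card Γ))
    (hgen : ∀ Z' ⊆ Z, 2 ^ 13 * #(Z \ Z') ≤ κ → AddSubgroup.closure (Z' : Set Γ) = ⊤)
    (hZ : 8 * κ ≤ 10 * #Z) (n : ℕ) (hn : 2 ^ 14 * n ≤ κ) :
    ∃ U ⊆ Z, #U ≤ n ∧ (Fintype.card Γ < 2 * #(SG U) ∨ κ ≤ 16 * #(SG U) ∨
      3 ^ n ≤ 2 ^ n * #(SG U)) := by
  induction n with
  | zero =>
    refine ⟨∅, empty_subset _, by simp, ?_⟩
    right; right
    rw [SG_empty]
    simp
  | succ n ih =>
    obtain ⟨U, hU, hUn, h⟩ := ih (by omega)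
    rcases h with h | h | h
    · exact ⟨U, hU, by omega, Or.inl h⟩
    · exact ⟨U, hU, by omega, Or.inr (Or.inl h)⟩
    · by_cases hS : Fintype.card Γ < 2 * #(SG U)
      · exact ⟨U, hU, by omega, Or.inl hS⟩
      by_cases hS2 : κ ≤ 16 * #(SG U)
      · exact ⟨U, hU, by omega, Or.inr (Or.inl hS2)⟩
      obtain ⟨U', hU', hc, hg⟩ := st_step hols κ Z hodd hgen hZ U hU (by omega) (by omega)
      rw [min_eq_left (by omega)] at hg
      refine ⟨U', hU', by omega, Or.inr (Or.inr ?_)⟩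
      have h3 : 3 * #(SG U) ≤ 2 * #(SG U') := by omega
      calc 3 ^ (n + 1) = 3 * 3 ^ n := by ring
        _ ≤ 3 * (2 ^ n * #(SG U)) := Nat.mul_le_mul_left _ h
        _ = 2 ^ n * (3 * #(SG U)) := by ring
        _ ≤ 2 ^ n * (2 * #(SG U')) := Nat.mul_le_mul_left _ h3
        _ = 2 ^ (n + 1) * #(SG U') := by ring

/-- the second phase: addition of `κ / 32` -/
private theorem st_ph2 (hols : S_ols) {Γ : Type} [AddCommGroup Γ] [Fintype Γ] [DecidableEq Γ]
    (κ : ℕ) (Z : Finset Γ) (hodd : Odd (Fintype.card Γ))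
    (hgen : ∀ Z' ⊆ Z, 2 ^ 13 * #(Z \ Z') ≤ κ → AddSubgroup.closure (Z' : Set Γ) = ⊤)
    (hZ : 8 * κ ≤ 10 * #Z) (j : ℕ)
    (hj : ∃ U ⊆ Z, #U ≤ j ∧ (Fintype.card Γ < 2 * #(SG U) ∨ κ ≤ 16 * #(SG U)))
    (n : ℕ) (hn : 2 ^ 14 * (j + n) ≤ κ) :
    ∃ U ⊆ Z, #U ≤ j + n ∧ (Fintype.card Γ < 2 * #(SG U) ∨
      (κ ≤ 16 * #(SG U) ∧ n * κ ≤ 32 * #(SG U))) := by
  induction n with
  | zero =>
    obtain ⟨U, hU, hUj, h⟩ := hj
    refine ⟨U, hU, by omega, ?_⟩
    rcases h with h | h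
    · exact Or.inl h
    · refine Or.inr ⟨h, ?_⟩
      rw [zero_mul]
      exact Nat.zero_le _
  | succ n ih =>
    obtain ⟨U, hU, hUn, h⟩ := ih (by omega)
    rcases h with h | ⟨h, h'⟩
    · exact ⟨U, hU, by omega, Or.inl h⟩
    · by_cases hS : Fintype.card Γ < 2 * #(SG U)
      · exact ⟨U, hU, by omega, Or.inl hS⟩
      obtain ⟨U', hU', hc, hg⟩ := st_step hols κ Z hodd hgen hZ U hU (by omega) (by omega)
      rw [min_eq_right h] at hg
      refine ⟨U', hU', by omega, Or.inr ⟨by omega, ?_⟩⟩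
      have h3 : (n + 1) * κ = n * κ + κ := by ring
      rw [h3]
      omega

private theorem st_pow (L : ℕ) (hL : 30 ≤ L) : 2 ^ 15 * (2 * L + 5) ≤ 2 ^ L := by
  induction L, hL using Nat.le_induction with
  | base => norm_num
  | succ L hL ih =>
    rw [pow_succ]
    omega

/-- the set `U₀` -/
private theorem st_U0 (hols : S_ols) {Γ : Type} [AddCommGroup Γ] [Fintype Γ] [DecidableEq Γ]
    (κ : ℕ) (Z : Finset Γ) (hodd : Odd (Fintype.card Γ)) (hκ : 2 ^ 100 ≤ κ)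
    (hN : Fintype.card Γ ≤ κ ^ 2)
    (hgen : ∀ Z' ⊆ Z, 2 ^ 13 * #(Z \ Z') ≤ κ → AddSubgroup.closure (Z' : Set Γ) = ⊤)
    (hZ : 8 * κ ≤ 10 * #Z) :
    ∃ U ⊆ Z, 2 ^ 14 * #U ≤ κ ∧ Fintype.card Γ ≤ 2 ^ 20 * #(SG U) := by
  have hκ0 : κ ≠ 0 := by
    rintro rfl
    have : (0 : ℕ) < 2 ^ 100 := by positivity
    omega
  set L := Nat.log 2 κ with hL
  have hL1 : 2 ^ L ≤ κ := Nat.pow_log_le_self 2 hκ0
  have hL2 : κ < 2 ^ (L + 1) := Nat.lt_pow_succ_log_self (by norm_num) κ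
  have hL3 : 100 ≤ L := by
    by_contra hlt
    have h1 : (2 : ℕ) ^ (L + 1) ≤ 2 ^ 100 := Nat.pow_le_pow_right (by norm_num) (by omega)
    omega
  have hL4 := st_pow L (by omega)
  set j := 2 * L + 4 with hjdef
  have hjκ : 2 ^ 15 * (j + 1) ≤ κ := by
    have : j + 1 = 2 * L + 5 := by omega
    rw [this]
    omega
  -- phase 1
  have hph1 : ∃ U ⊆ Z, #U ≤ j ∧ (Fintype.card Γ < 2 * #(SG U) ∨ κ ≤ 16 * #(SG U)) := by
    obtain ⟨U, hU, hUj, h⟩ := st_ph1 hols κ Z hodd hgen hZ j (by omega)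
    refine ⟨U, hU, hUj, ?_⟩
    rcases h with h | h | h
    · exact Or.inl h
    · exact Or.inr h
    · right
      have h1 : 2 ^ j * 2 ^ (L + 2) ≤ 3 ^ j := by
        have e1 : (2 : ℕ) ^ j * 2 ^ (L + 2) = 8 ^ (L + 2) := by
          rw [← pow_add]
          have : j + (L + 2) = 3 * (L + 2) := by omega
          rw [this, pow_mul]
          norm_num
        have e2 : (3 : ℕ) ^ j = 9 ^ (L + 2) := by
          have : j = 2 * (L + 2) := by omega
          rw [this, pow_mul]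
          norm_num
        rw [e1, e2]
        exact Nat.pow_le_pow_left (by norm_num) _
      have h2 : 2 ^ j * 2 ^ (L + 2) ≤ 2 ^ j * #(SG U) := h1.trans h
      have h3 : 2 ^ (L + 2) ≤ #(SG U) := Nat.le_of_mul_le_mul_left h2 (by positivity)
      have h4 : (2 : ℕ) ^ (L + 2) = 2 * 2 ^ (L + 1) := by ring
      omega
  -- phase 2
  set m := κ / 2 ^ 14 - j with hm
  have hq1 : κ / 2 ^ 14 * 2 ^ 14 ≤ κ := Nat.div_mul_le_self _ _
  have hq2 : κ < (κ / 2 ^ 14 + 1) * 2 ^ 14 := by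
    have := Nat.lt_div_mul_add (a := κ) (b := 2 ^ 14) (by positivity)
    omega
  have hjm : j + m = κ / 2 ^ 14 := by omega
  obtain ⟨U, hU, hUc, h⟩ := st_ph2 hols κ Z hodd hgen hZ j hph1 m (by omega)
  refine ⟨U, hU, by omega, ?_⟩
  rcases h with h | ⟨_, h⟩
  · omega
  · have h1 : κ ≤ 2 ^ 15 * m := by omega
    calc Fintype.card Γ ≤ κ ^ 2 := hN
      _ = κ * κ := by ring
      _ ≤ (2 ^ 15 * m) * κ := Nat.mul_le_mul_right _ h1
      _ = 2 ^ 15 * (m * κ) := by ring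
      _ ≤ 2 ^ 15 * (32 * #(SG U)) := Nat.mul_le_mul_left _ h
      _ = 2 ^ 20 * #(SG U) := by ring

theorem p_st : S_st := by
  intro hols Γ _ _ _ κ Z hodd hκ hN hgen hZ
  obtain ⟨U₀, hU₀, hU₀c, hU₀N⟩ := st_U0 hols κ Z hodd hκ hN hgen hZ
  have hNpos : 0 < Fintype.card Γ := Fintype.card_pos
  set N := Fintype.card Γ with hNdef
  have hne : (Z.powerset.filter fun U => U₀ ⊆ U).Nonempty :=
    ⟨U₀, mem_filter.2 ⟨mem_powerset.2 hU₀, Subset.refl _⟩⟩
  obtain ⟨U, hUm, hmax⟩ := exists_max_image (Z.powerset.filter fun U => U₀ ⊆ U)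
    (fun U => (κ : ℤ) * #(SG U) - 2 ^ 14 * N * #U) hne
  rw [mem_filter, mem_powerset] at hUm
  obtain ⟨hUZ, hU₀U⟩ := hUm
  have hcN : ∀ W : Finset Γ, #(SG W) ≤ N := fun W => card_le_univ _
  refine ⟨U, hUZ, ?_, ?_, ?_⟩
  · have h1 := hmax U₀ (mem_filter.2 ⟨mem_powerset.2 hU₀, Subset.refl _⟩)
    have h2 : (κ : ℤ) * #(SG U₀) - 2 ^ 14 * N * #U₀ ≤ (κ : ℤ) * #(SG U) - 2 ^ 14 * N * #U := h1
    have h3 : (κ : ℤ) * #(SG U) ≤ κ * N := by
      have := hcN U
      exact_mod_cast Nat.mul_le_mul_left κ this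
    have h4 : (0 : ℤ) ≤ (κ : ℤ) * #(SG U₀) := by positivity
    have h5 : (N : ℤ) * (2 ^ 14 * #U) ≤ N * (κ + 2 ^ 14 * #U₀) := by linarith
    have h6 : N * (2 ^ 14 * #U) ≤ N * (κ + 2 ^ 14 * #U₀) := by exact_mod_cast h5
    have h7 := Nat.le_of_mul_le_mul_left h6 hNpos
    omega
  · have := st_mono U₀ U hU₀U
    omega
  · intro a ha
    rw [mem_sdiff] at ha
    have hins : insert a U ⊆ Z := by
      intro z hz
      rw [mem_insert] at hz
      rcases hz with rfl | hz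
      · exact ha.1
      · exact hUZ hz
    have h1 := hmax (insert a U) (mem_filter.2 ⟨mem_powerset.2 hins,
      hU₀U.trans (subset_insert _ _)⟩)
    have h2 : (κ : ℤ) * #(SG (insert a U)) - 2 ^ 14 * N * #(insert a U) ≤
        (κ : ℤ) * #(SG U) - 2 ^ 14 * N * #U := h1
    rw [card_insert_of_notMem ha.2] at h2
    have h3 := st_ins U a ha.2
    have h4 : (κ : ℤ) * (#(SG U) + bd (SG U) (a + a)) ≤ κ * #(SG (insert a U)) := by
      exact_mod_cast Nat.mul_le_mul_left κ h3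
    push_cast at h2
    have h5 : (κ : ℤ) * bd (SG U) (a + a) ≤ 2 ^ 14 * N := by linarith
    exact_mod_cast h5

end Pool.Agent.Lib.MP_8ac08c_co.OD
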