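import Pool.Agent.Lib.MP_8ac08c_co.OD.Stm

/-! Piece `bez` of project OD: small Bézout coefficients. -/

set_option autoImplicit false

open Finset

namespace Pool.Agent.Lib.MP_8ac08c_co.OD

private theorem bez_exists (I : Finset ℕ) (hd : ∀ d : ℕ, (∀ i ∈ I, d ∣ i) → d = 1) (ρ : ℤ) :
    ∃ x : ℕ → ℤ, ∑ i ∈ I, x i * i = ρ := by
  obtain ⟨J, hJ⟩ : ∃ J : Ideal ℤ, J = Submodule.span ℤ ((fun i : ℕ => (i : ℤ)) '' (I : Set ℕ)) :=
    ⟨_, rfl⟩
  obtain ⟨g, hg⟩ := (IsPrincipalIdealRing.principal J).principal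
  have h1 : ∀ i ∈ I, g.natAbs ∣ i := by
    intro i hi
    have h2 : (i : ℤ) ∈ J := by
      rw [hJ]
      exact Submodule.subset_span ⟨i, hi, rfl⟩
    rw [hg, Submodule.mem_span_singleton] at h2
    obtain ⟨a, ha⟩ := h2
    have h3 : g ∣ (i : ℤ) := ⟨a, by rw [← ha, smul_eq_mul, mul_comm]⟩
    have := Int.natAbs_dvd_natAbs.2 h3
    rwa [Int.natAbs_natCast] at this
  have h4 := hd _ h1
  have h5 : ρ ∈ J := by
    rw [hg, Submodule.mem_span_singleton]
    rcases Int.natAbs_eq g with h6 | h6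
    · refine ⟨ρ, ?_⟩
      rw [h6, h4]; simp
    · refine ⟨-ρ, ?_⟩
      rw [h6, h4]; simp
  rw [hJ, Submodule.mem_span_image_finset_iff_exists_fun'] at h5
  obtain ⟨c, hc⟩ := h5
  exact ⟨c, by simpa using hc⟩

theorem p_bez : S_bez := by
  intro K ρ I hK hI hd hρ
  obtain ⟨x, hx⟩ := bez_exists I hd (ρ : ℤ)
  obtain ⟨i₁, hi₁, hpos⟩ : ∃ i₁ ∈ I, 0 < i₁ := by
    by_contra hno
    push Not at hno
    have := hd 2 (fun i hi => by
      have := hno i hi
      have h0 : i = 0 := by omega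
      rw [h0]; exact dvd_zero 2)
    omega
  obtain ⟨y, hy⟩ : ∃ y : ℕ → ℤ, y = fun i => if i = i₁ then
      x i₁ + ∑ j ∈ I.erase i₁, (x j / i₁) * j else x i % i₁ := ⟨_, rfl⟩
  have hy1 : y i₁ = x i₁ + ∑ j ∈ I.erase i₁, (x j / i₁) * j := by rw [hy]; simp
  have hy2 : ∀ j ∈ I.erase i₁, y j = x j % i₁ := by
    intro j hj
    rw [hy]
    simp [ne_of_mem_erase hj]
  have hi₁K := hI i₁ hi₁
  have hsum : ∑ i ∈ I, y i * i = ρ := by
    rw [← hx, ← add_sum_erase I _ hi₁, ← add_sum_erase I (fun i => x i * (i : ℤ)) hi₁, hy1,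
      add_mul, sum_mul, add_assoc, ← sum_add_distrib]
    congr 1
    apply sum_congr rfl
    intro j hj
    rw [hy2 j hj]
    have := Int.emod_add_mul_ediv (x j) (i₁ : ℤ)
    calc x j / (i₁ : ℤ) * j * i₁ + x j % i₁ * j = (x j % i₁ + i₁ * (x j / i₁)) * j := by ring
      _ = x j * j := by rw [this]
  have hK1 : (1 : ℤ) ≤ K := by exact_mod_cast hK
  have hsm : ∀ j ∈ I.erase i₁, |y j| ≤ K := by
    intro j hj
    rw [hy2 j hj]
    have hp : (0 : ℤ) < i₁ := by exact_mod_cast hpos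
    have h1 := Int.emod_nonneg (x j) hp.ne'
    have h2 := Int.emod_lt_of_pos (x j) hp
    rw [abs_of_nonneg h1]
    have h3 : (i₁ : ℤ) ≤ K := by exact_mod_cast hi₁K
    linarith
  have hK3 : (K : ℤ) ≤ K ^ 3 := by
    have : (1 : ℤ) ≤ K ^ 2 := one_le_pow₀ hK1
    calc (K : ℤ) = K * 1 := by ring
      _ ≤ K * K ^ 2 := mul_le_mul_of_nonneg_left this (by linarith)
      _ = K ^ 3 := by ring
  have hcard : #(I.erase i₁) ≤ K := by
    have h1 : I ⊆ range (K + 1) := by
      intro i hi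
      rw [mem_range]
      have := hI i hi
      omega
    have h2 := card_le_card h1
    rw [card_range] at h2
    rw [card_erase_of_mem hi₁]
    omega
  refine ⟨y, ?_, hsum⟩
  intro i hi
  have key : |y i| ≤ 2 * (K : ℤ) ^ 3 := by
    by_cases hii : i = i₁
    · subst hii
      have h1 : y i * i = ρ - ∑ j ∈ I.erase i, y j * j := by
        rw [← hsum, ← add_sum_erase I _ hi]
        ring
      have h2 : |∑ j ∈ I.erase i, y j * (j : ℤ)| ≤ K * (K * K) := by
        refine (abs_sum_le_sum_abs _ _).trans ?_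
        have h3 : ∀ j ∈ I.erase i, |y j * (j : ℤ)| ≤ (K : ℤ) * K := by
          intro j hj
          rw [abs_mul]
          have h4 : |(j : ℤ)| ≤ K := by
            rw [abs_of_nonneg (Int.natCast_nonneg j)]
            exact_mod_cast hI j (mem_of_mem_erase hj)
          exact mul_le_mul (hsm j hj) h4 (abs_nonneg _) (by linarith)
        refine (sum_le_card_nsmul _ _ _ h3).trans ?_
        rw [nsmul_eq_mul]
        have h5 : ((#(I.erase i) : ℕ) : ℤ) ≤ K := by exact_mod_cast hcard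
        exact mul_le_mul_of_nonneg_right h5 (by positivity)
      have h3 : |y i * (i : ℤ)| ≤ K + K * (K * K) := by
        rw [h1]
        refine (abs_sub _ _).trans ?_
        have : |(ρ : ℤ)| ≤ K := by
          rw [abs_of_nonneg (Int.natCast_nonneg ρ)]
          exact_mod_cast hρ
        linarith
      have h4 : |y i| ≤ |y i * (i : ℤ)| := by
        rw [abs_mul]
        have : (1 : ℤ) ≤ |(i : ℤ)| := by
          rw [abs_of_nonneg (Int.natCast_nonneg i)]
          exact_mod_cast hpos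
        exact le_mul_of_one_le_right (abs_nonneg _) this
      calc |y i| ≤ K + K * (K * K) := h4.trans h3
        _ = K + K ^ 3 := by ring
        _ ≤ 2 * (K : ℤ) ^ 3 := by linarith
    · have := hsm i (mem_erase.2 ⟨hii, hi⟩)
      linarith
  have h1 : ((y i).natAbs : ℤ) ≤ ((2 * K ^ 3 : ℕ) : ℤ) := by
    rw [Int.natCast_natAbs]
    push_cast
    exact key
  exact_mod_cast h1

end Pool.Agent.Lib.MP_8ac08c_co.OD
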