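import Pool.Agent.Lib.MP_8ac08c_co.OD.Stm
import Pool.Agent.Lib.MP_8ac08c_co.Basic

/-! Piece `low` of project OD: the lower bound. -/

set_option autoImplicit false

open Finset

namespace Pool.Agent.Lib.MP_8ac08c_co.OD

/-- a surjection on the cyclic group of order the exponent -/
private theorem low_surj (hchr : S_chr) (G : Type) [AddCommGroup G] [Finite G] (κ : ℕ)
    (hκ : κ = AddMonoid.exponent G) (hpos : 0 < κ) :
    ∃ ψ : G →+ ZMod κ, Function.Surjective ψ := by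
  have _ : NeZero κ := ⟨hpos.ne'⟩
  have hkill : ∀ x : G, κ • x = 0 := fun x => by rw [hκ]; exact AddMonoid.exponent_nsmul_eq_zero x
  -- all characters have order dividing the exponent `n`
  have hex : Monoid.ExponentExists (AddChar G ℂ) := by
    refine ⟨κ, hpos, fun χ => ?_⟩
    ext x
    rw [AddChar.pow_apply, AddChar.one_apply, ← AddChar.map_nsmul_eq_pow, hkill,
      AddChar.map_zero_eq_one]
  obtain ⟨χ, hχ⟩ := Monoid.exists_orderOf_eq_exponent hex
  have hn0 : 0 < Monoid.exponent (AddChar G ℂ) := hex.exponent_pos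
  have hdvd : κ ∣ orderOf χ := by
    rw [hκ, hχ]
    apply AddMonoid.exponent_dvd_of_forall_nsmul_eq_zero
    intro x
    rw [← AddChar.forall_apply_eq_zero (α := G)]
    intro χ'
    rw [AddChar.map_nsmul_eq_pow, ← AddChar.pow_apply, Monoid.pow_exponent_eq_one,
      AddChar.one_apply]
  obtain ⟨ψ, hψ⟩ := hchr G κ hkill χ
  refine ⟨ψ, ?_⟩
  rw [← AddMonoidHom.range_eq_top]
  have hr : ∀ x, Nat.card ψ.range • ψ x = 0 := by
    intro x
    have h1 : Nat.card ψ.range • (⟨ψ x, ⟨x, rfl⟩⟩ : ψ.range) = 0 := card_nsmul_eq_zero'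
    have h2 := congrArg (fun y : ψ.range => (y : ZMod κ)) h1
    simpa using h2
  have hχr : χ ^ Nat.card ψ.range = 1 := by
    ext x
    rw [AddChar.pow_apply, AddChar.one_apply, hψ, ← AddChar.map_nsmul_eq_pow, hr,
      AddChar.map_zero_eq_one]
  have h3 : κ ∣ Nat.card ψ.range := hdvd.trans (orderOf_dvd_of_pow_eq_one hχr)
  have h4 : Nat.card (ZMod κ) = κ := Nat.card_zmod κ
  have h5 : 0 < Nat.card ψ.range := Nat.card_pos
  apply AddSubgroup.eq_top_of_le_card
  rw [h4]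
  exact Nat.le_of_dvd h5 h3

private theorem low_eta (G : Type) [AddCommGroup G] [Fintype G] (K : AddSubgroup G) (κ : ℕ)
    (hK : Nat.card K = κ) (hpos : 0 < κ) : κ - 1 ≤ eta K κ := by
  classical
  obtain ⟨T, hT, hTc⟩ : ∃ T ⊆ univ.filter (fun x : G => x ∈ K), #T = κ - 1 := by
    apply exists_subset_card_eq
    have : #(univ.filter (fun x : G => x ∈ K)) = κ := by
      rw [← hK, Nat.card_eq_fintype_card, Fintype.card_subtype]
    omega
  rw [← hTc]
  apply le_eta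
  · intro t ht
    exact (mem_filter.1 (hT ht)).2
  · intro B hB hc
    have := card_le_card hB
    omega

private theorem low_dis (G : Type) [AddCommGroup G] [Fintype G] (h : ℕ) (hpos : 0 < h)
    (φ : G →+ ZMod h) (x₀ : G) (hx₀ : φ x₀ = 1) : Nat.log 2 h ≤ dis (G ⧸ φ.ker) := by
  classical
  obtain ⟨t, ht⟩ : ∃ t, t = Nat.log 2 h := ⟨_, rfl⟩
  have hth : 2 ^ t ≤ h := by rw [ht]; exact Nat.pow_log_le_self 2 hpos.ne'
  have _ : NeZero h := ⟨hpos.ne'⟩
  rw [← ht]
  have hf : ∀ i : ℕ, φ (2 ^ i • x₀) = ((2 ^ i : ℕ) : ZMod h) := by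
    intro i
    rw [map_nsmul, hx₀, nsmul_one]
  have hinj : Set.InjOn (fun i : ℕ => 2 ^ i • x₀) (range t : Set ℕ) := by
    intro i hi j hj hij
    rw [mem_coe, mem_range] at hi hj
    have h1 : ((2 ^ i : ℕ) : ZMod h) = ((2 ^ j : ℕ) : ZMod h) := by
      rw [← hf, ← hf]
      exact congrArg φ hij
    have h2 : 2 ^ i < h := (Nat.pow_lt_pow_right (by norm_num) hi).trans_le hth
    have h3 : 2 ^ j < h := (Nat.pow_lt_pow_right (by norm_num) hj).trans_le hth
    rw [ZMod.natCast_eq_natCast_iff', Nat.mod_eq_of_lt h2, Nat.mod_eq_of_lt h3] at h1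
    exact Nat.pow_right_injective (le_refl 2) h1
  have hc : #((range t).image (fun i : ℕ => 2 ^ i • x₀)) = t := by
    rw [card_image_of_injOn hinj, card_range]
  rw [← hc]
  apply le_dis_of_lift
  intro P N hP hN hd hs
  obtain ⟨I, hI⟩ : ∃ I, I = (range t).filter (fun i => 2 ^ i • x₀ ∈ P) := ⟨_, rfl⟩
  obtain ⟨J', hJ⟩ : ∃ J', J' = (range t).filter (fun i => 2 ^ i • x₀ ∈ N) := ⟨_, rfl⟩
  have hIr : I ⊆ range t := by rw [hI]; exact filter_subset _ _
  have hJr : J' ⊆ range t := by rw [hJ]; exact filter_subset _ _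
  have himP : I.image (fun i : ℕ => 2 ^ i • x₀) = P := by
    ext x
    rw [hI, mem_image]
    constructor
    · rintro ⟨i, hi, rfl⟩
      exact (mem_filter.1 hi).2
    · intro hx
      obtain ⟨i, hi, rfl⟩ := mem_image.1 (hP hx)
      exact ⟨i, mem_filter.2 ⟨hi, hx⟩, rfl⟩
  have himN : J'.image (fun i : ℕ => 2 ^ i • x₀) = N := by
    ext x
    rw [hJ, mem_image]
    constructor
    · rintro ⟨i, hi, rfl⟩
      exact (mem_filter.1 hi).2
    · intro hx
      obtain ⟨i, hi, rfl⟩ := mem_image.1 (hN hx)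
      exact ⟨i, mem_filter.2 ⟨hi, hx⟩, rfl⟩
  have hsP : φ (∑ x ∈ P, x) = ((∑ i ∈ I, 2 ^ i : ℕ) : ZMod h) := by
    rw [← himP, sum_image (fun a ha b hb hab => hinj (hIr ha) (hIr hb) hab), map_sum,
      Nat.cast_sum]
    exact sum_congr rfl fun i _ => hf i
  have hsN : φ (∑ x ∈ N, x) = ((∑ i ∈ J', 2 ^ i : ℕ) : ZMod h) := by
    rw [← himN, sum_image (fun a ha b hb hab => hinj (hJr ha) (hJr hb) hab), map_sum,
      Nat.cast_sum]
    exact sum_congr rfl fun i _ => hf i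
  rw [AddMonoidHom.mem_ker, map_sub, hsP, hsN, sub_eq_zero] at hs
  have hlt : ∀ S ⊆ range t, ∑ i ∈ S, 2 ^ i < h := by
    intro S hS
    have h1 : ∑ i ∈ S, 2 ^ i ≤ ∑ i ∈ range t, 2 ^ i :=
      sum_le_sum_of_subset hS
    have h2 : ∑ i ∈ range t, 2 ^ i = 2 ^ t - 1 := by
      have := Nat.geomSum_eq (le_refl 2) t
      simpa using this
    have h3 : 0 < 2 ^ t := by positivity
    omega
  rw [ZMod.natCast_eq_natCast_iff', Nat.mod_eq_of_lt (hlt I hIr), Nat.mod_eq_of_lt (hlt J' hJr)]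
    at hs
  have hIJ : I = J' := Finset.geomSum_injective (le_refl 2) hs
  have hPN : P = N := by rw [← himP, ← himN, hIJ]
  have hP0 : P = ∅ := by
    rw [← hPN] at hd
    exact disjoint_self.1 hd
  exact ⟨hP0, by rw [← hPN, hP0]⟩

theorem p_low : S_low := by
  intro hchr G _ _ h hcard hdvd
  obtain ⟨κ, hκ⟩ : ∃ κ, κ = AddMonoid.exponent G := ⟨_, rfl⟩
  rw [← hκ] at hcard hdvd ⊢
  have hGpos : 0 < Nat.card G := Nat.card_pos
  have hκpos : 0 < κ := by
    rcases Nat.eq_zero_or_pos κ with h0 | h0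
    · rw [h0, mul_zero] at hcard
      omega
    · exact h0
  have hhpos : 0 < h := Nat.pos_of_dvd_of_pos hdvd hκpos
  obtain ⟨ψ, hψ⟩ := low_surj hchr G κ hκ hκpos
  obtain ⟨φ, hφ⟩ : ∃ φ : G →+ ZMod h, Function.Surjective φ :=
    ⟨(ZMod.castHom hdvd (ZMod h)).toAddMonoidHom.comp ψ,
      (ZMod.castHom_surjective hdvd).comp hψ⟩
  obtain ⟨x₀, hx₀⟩ := hφ 1
  have hker : Nat.card φ.ker = κ := by
    have h1 := AddSubgroup.card_mul_index φ.ker
    have h2 : φ.ker.index = h := by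
      rw [AddSubgroup.index_ker, AddMonoidHom.range_eq_top.2 hφ]
      rw [Nat.card_congr (Equiv.refl _)]
      simp
    rw [h2, hcard, mul_comm] at h1
    exact Nat.eq_of_mul_eq_mul_left hhpos h1
  have h1 := low_eta G φ.ker κ hker hκpos
  have h2 := low_dis G h hhpos φ x₀ hx₀
  have h3 := lower φ.ker hκpos
  omega

end Pool.Agent.Lib.MP_8ac08c_co.OD
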